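import Pool.Agent.H62.S6.Nl
import Pool.Agent.H75.S6C.SNB

/-!
# Natural labels at finitely many windows: the class theorems
-/

set_option autoImplicit false

namespace Pool.S6F

open Finset Real
open Pool.Agent.H49.Ent Pool.Agent.H32.Dense Pool.STK Pool.KA Pool.KSAT Pool.K2S Pool.PB Pool.KS6
  Pool.S6C

theorem OrdP.lab {J : ℕ} {F : Fam 3 J} {A : F.Ω → Prop} {i₀ : Fin 3} {N : ℕ} {w lam P : ℕ → ℕ}
    (h : OrdP i₀ N w lam P F A) : ∃ (iu iN : Fin 3) (y : ℕ → F.Ω → Pln),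
    (∀ j : Fin 3, j = i₀ ∨ j = iu ∨ j = iN) ∧
      ∀ j ≤ N, Lb3 F A i₀ iu iN (w j) (lam j) (P j) (y j) := by
  obtain ⟨iu, iN, hi, hl⟩ := h
  have hlab : ∀ j, ∃ y : F.Ω → Pln, j ≤ N → Lb3 F A i₀ iu iN (w j) (lam j) (P j) y := by
    intro j
    by_cases hj : j ≤ N
    · obtain ⟨y, g1, g2, g3⟩ := hl j hj
      exact ⟨y, fun _ => ⟨hi, g1, g2, g3⟩⟩
    · exact ⟨fun _ => default, fun h => absurd h hj⟩
  choose y hy using hlab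
  exact ⟨iu, iN, y, hi, hy⟩

/-- The straightness given by the plank itself. -/
theorem Lb3.str {J : ℕ} {F : Fam 3 J} {A : F.Ω → Prop} {i₀ iu iN : Fin 3} {w lam P G : ℕ}
    {y : F.Ω → Pln} (h : Lb3 F A i₀ iu iN w lam P y) (hG : G + w + 1 ≤ P) :
    ∃ b k : (Fin 3 → ℤ) × (ℕ × F.ζ) → ℝ, ∀ ω, A ω →
      |fn i₀ iu iN (y ω).c (y ω).s (F.d ω) - b (ptq F J ω) - k (ptq F J ω) * F.d ω i₀| ≤
        1 / 2 ^ G := by
  obtain ⟨φ, hφ⟩ := h.yp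
  refine ⟨fun u => fn i₀ iu iN (φ u).c (φ u).s (φ u).db, fun _ => 0, fun ω hω => ?_⟩
  have h1 := (h.inc ω hω).vn
  have e1 := hφ ω hω
  beta_reduce
  rw [← e1, zero_mul, sub_zero]
  refine h1.trans ?_
  rw [div_le_div_iff₀ (by positivity) (by positivity), one_mul]
  calc (2 : ℝ) * 2 ^ w * 2 ^ G = 2 ^ (G + w + 1) := by ring
    _ ≤ 2 ^ P := pow_le_pow_right₀ (by norm_num) hG

/-- Labels in one order, with the straightness given by the planks. -/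
theorem ordk_plain {S : PCl 3} {i₀ : Fin 3} {N : ℕ} {u : ℕ → ℚ} {V T G : ℕ → ℝ}
    (hu0 : ∀ j ≤ N, 0 ≤ u j) (huT : ∀ j ≤ N, (u j : ℝ) < T j)
    (hG : ∀ j ≤ N, G j < T j - u j)
    (h : Clp S (fun J F A => OrdP i₀ N (fun j => ⌊(u j : ℝ) * J⌋₊) (fun j => ⌊V j * J⌋₊)
      (fun j => ⌊T j * J⌋₊) F A)) :
    Clp S (fun J F A => OrdK i₀ N (fun j => ⌊(u j : ℝ) * J⌋₊) (fun j => ⌊V j * J⌋₊)
      (fun j => ⌊T j * J⌋₊) (fun j => ⌊G j * J⌋₊) F A) := by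
  obtain ⟨η, hη, k1⟩ := min_pos N (fun j => T j - u j - max (G j) 0) fun j hj => by
    have h1 := huT j hj
    have h2 := hG j hj
    have : max (G j) 0 < T j - u j := max_lt h2 (by linarith)
    linarith
  obtain ⟨J₂, hJ₂⟩ := exists_nat_gt (4 / η)
  refine Clp.mono (J₂ := J₂) h ?_
  intro J hJ F A h'
  obtain ⟨iu, iN, y, hi, hy⟩ := h'.lab
  have hJr : 4 / η < J := hJ₂.trans_le (by exact_mod_cast hJ)
  have hJη : 4 < J * η := by rwa [div_lt_iff₀ hη] at hJr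
  have hJ0 : (0 : ℝ) ≤ J := Nat.cast_nonneg J
  refine ⟨iu, iN, y, hi, fun j hj => ⟨hy j hj, (hy j hj).str ?_⟩⟩
  beta_reduce
  have h0 : (0 : ℝ) ≤ u j := by exact_mod_cast hu0 j hj
  have fw : (⌊(u j : ℝ) * J⌋₊ : ℝ) ≤ u j * J := Nat.floor_le (by positivity)
  have fT : T j * J < ⌊T j * J⌋₊ + 1 := Nat.lt_floor_add_one _
  have fG : (⌊G j * J⌋₊ : ℝ) ≤ max (G j) 0 * J := by
    rcases le_total (G j) 0 with h | h
    · rw [Nat.floor_of_nonpos (mul_nonpos_of_nonpos_of_nonneg h hJ0), Nat.cast_zero]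
      exact mul_nonneg (le_max_right _ _) hJ0
    · rw [max_eq_left h]
      exact Nat.floor_le (mul_nonneg h hJ0)
  have m1 : η * J ≤ (T j - u j - max (G j) 0) * J := mul_le_mul_of_nonneg_right (k1 j hj) hJ0
  have : ((⌊G j * J⌋₊ + ⌊(u j : ℝ) * J⌋₊ + 1 : ℕ) : ℝ) < ((⌊T j * J⌋₊ + 1 : ℕ) : ℝ) := by
    push_cast
    linarith
  have : ⌊G j * J⌋₊ + ⌊(u j : ℝ) * J⌋₊ + 1 < ⌊T j * J⌋₊ + 1 := by exact_mod_cast this
  omega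

/-- Labels in one order, with the straightness given by the number `sN`. -/
theorem ordk_sn {S : PCl 3} {a R h₁ : ℝ} {i₀ : Fin 3} {c s₂ : ℝ} {r : ℝ → ℝ} {D : Set ℝ}
    {σ : ℝ → Row} (hC : Cs S a R h₁ i₀ c s₂ r D σ) (v₁ : ℚ) (hv0 : 0 ≤ v₁) (hv1 : v₁ ≤ 1)
    (turn : (σ 1).rot v₁ < (σ 1).pi) {t : ℚ} (ht0 : 0 ≤ t) (ht1 : t ≤ 1) {N : ℕ} {u : ℕ → ℚ}
    {V T G : ℕ → ℝ} (hu0 : ∀ j ≤ N, 0 ≤ u j) (hu1 : ∀ j ≤ N, u j ≤ v₁)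
    (hG0 : ∀ j ≤ N, 0 ≤ G j) (hG1 : ∀ j ≤ N, G j < (σ 1).sN v₁ t)
    (hG2 : ∀ j ≤ N, G j < t - v₁ + ((σ 1).pi - (σ 1).rot v₁))
    (hG3 : ∀ j ≤ N, G j < T j - u j + ((σ 1).pi - (σ 1).rot v₁))
    (h : Clp S (fun J F A => OrdP i₀ N (fun j => ⌊(u j : ℝ) * J⌋₊) (fun j => ⌊V j * J⌋₊)
      (fun j => ⌊T j * J⌋₊) F A)) :
    Clp S (fun J F A => OrdK i₀ N (fun j => ⌊(u j : ℝ) * J⌋₊) (fun j => ⌊V j * J⌋₊)
      (fun j => ⌊T j * J⌋₊) (fun j => ⌊G j * J⌋₊) F A) := by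
  classical
  refine Clp.step ⟨1, fun J F _ => OrdK i₀ N (fun j => ⌊(u j : ℝ) * J⌋₊)
      (fun j => ⌊V j * J⌋₊) (fun j => ⌊T j * J⌋₊) (fun j => ⌊G j * J⌋₊) F,
    fun J F _ => OrdK.hered _ _ _ _ _ _ _⟩ fun κ hκ => ?_
  obtain ⟨J₂, hJ₂⟩ := Pool.S6K.exp_small (κ := κ) (C := 4 ^ (N + 1)) hκ
    (one_le_pow₀ (by norm_num))
  have c2 : Clp S (fun J F A => ∀ j < N + 1, ∀ G' : F.Ω → Prop, Sub G' A →
      Pe F.p A ≤ 4 ^ (N + 1) * Pe F.p G' →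
      ∀ iu iN : Fin 3, (∀ j : Fin 3, j = i₀ ∨ j = iu ∨ j = iN) → ∀ y : F.Ω → Pln,
      (∀ ω, G' ω → Inc i₀ iu iN ⌊(u j : ℝ) * J⌋₊ 0 ⌊T j * J⌋₊ 2 (y ω) (F.t ω) (F.x ω) (F.d ω)) →
      (∃ φ : (Fin 3 → ℤ) × (ℕ × F.ζ) → Pln, ∀ ω, G' ω → y ω = φ (ptq F J ω)) →
      (∃ ψ : ((Fin 3 → ℝ) × (Fin 3 → ℝ)) × F.ζ × ℕ → Pln, ∀ ω, G' ω →
        y ω = ψ (slam F ⌊(u j : ℝ) * J⌋₊ ω)) →
      ∃ B : F.Ω → Prop, Sub B G' ∧ Pe F.p G' ≤ 4 * Pe F.p B ∧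
        ∃ b k : (Fin 3 → ℤ) × (ℕ × F.ζ) → ℝ, ∀ ω, B ω →
        |fn i₀ iu iN (y ω).c (y ω).s (F.d ω) - b (ptq F J ω) - k (ptq F J ω) * F.d ω i₀| ≤
          1 / 2 ^ ⌊G j * J⌋₊) :=
    Clp.all (N + 1) fun j hj => by
      have hj' : j ≤ N := by omega
      exact nst hC v₁ hv1 turn (hu0 j hj') (hu1 j hj') hv0 le_rfl ht0 ht1 (hG0 j hj') (hG1 j hj')
        (hG2 j hj') (hG3 j hj') (one_le_pow₀ (by norm_num))
  refine Clp.mono (J₂ := J₂) (h.and c2) ?_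
  rintro J hJ F A ⟨h', d2⟩ hSb
  obtain ⟨iu, iN, y, hi, hy⟩ := h'.lab
  obtain ⟨G', hG', hPG, hstr⟩ := seq_ev (K := 4) F.isLaw (B₀ := A) (by norm_num) (N + 1)
    (fun j E => ∃ b k : (Fin 3 → ℤ) × (ℕ × F.ζ) → ℝ, ∀ ω, E ω →
        |fn i₀ iu iN (y j ω).c (y j ω).s (F.d ω) - b (ptq F J ω) - k (ptq F J ω) * F.d ω i₀| ≤
          1 / 2 ^ ⌊G j * J⌋₊)
    (fun j _ A' B' hs ⟨b, k, hb⟩ => ⟨b, k, fun ω hω => hb ω (hs _ hω)⟩)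
    (fun j hj E hE hPE => by
      have hj' : j ≤ N := by omega
      have hyj := (hy j hj').sub hE
      exact d2 j hj E hE hPE iu iN hi (y j)
        (fun ω hω => inc_lam (by norm_num) (Nat.zero_le _) (hyj.inc ω hω)) hyj.yp hyj.ys)
  exact Pool.S6K.stb_part (hSb 0) hG' (by positivity) hPG (hJ₂ J hJ) (Pe_nonneg F.isLaw A)
    ⟨iu, iN, y, hi, fun j hj => ⟨(hy j hj).sub hG', hstr j (by omega)⟩⟩

/-- The slack of finitely many strict inequalities. -/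
theorem slack (N : ℕ) (f : ℕ → ℝ) (hf : ∀ j < N, 0 < f j) : ∃ x > 0, ∀ j < N, x ≤ f j := by
  obtain ⟨x, hx, h⟩ := min_pos N (fun j => if j < N then f j else 1) fun j _ => by
    split_ifs with h
    · exact hf j h
    · exact one_pos
  refine ⟨x, hx, fun j hj => ?_⟩
  have := h j hj.le
  rwa [if_pos hj] at this

/-- **Natural labels** from the existence of labels in one order with the straightness. -/
theorem nl_of {S : PCl 3} {a R h₁ : ℝ} {i₀ : Fin 3} {c s₂ : ℝ} {r : ℝ → ℝ} {D : Set ℝ}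
    {σ : ℝ → Row} (hC : Cs S a R h₁ i₀ c s₂ r D σ) (N : ℕ) (u : ℕ → ℚ) (V T H G : ℕ → ℝ) {g : ℝ}
    (hu : ∀ j < N, u (j + 1) ≤ u j) (hu0 : ∀ j ≤ N, 0 ≤ u j) (hu1 : ∀ j ≤ N, u j ≤ 1)
    (hg : g < (σ 1).pi) (hV : ∀ j ≤ N, V j < (σ 1).rot (u j))
    (hT : ∀ j ≤ N, T j < (σ 1).th (u j))
    (hVT : ∀ j ≤ N, u j + V j ≤ T j) (huT : ∀ j ≤ N, (u j : ℝ) < T j)
    (turn : ∀ j < N, (σ 1).rot (u j) < (σ 1).pi)
    (hR : ∀ j < N, (σ 1).rot (u j) < T j - u j ∧ (σ 1).rot (u j) < T (j + 1) - u (j + 1))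
    (hH : ∀ j < N, H j < T j - u j - (σ 1).rot (u j) ∧
      H j < T (j + 1) - u (j + 1) - (σ 1).rot (u j)) (hG0 : ∀ j ≤ N, 0 ≤ G j)
    (hO : ∃ δ₀ : ℝ, 0 < δ₀ ∧ ∀ δ : ℝ, 0 < δ → δ ≤ δ₀ →
      Clp S (fun J F A => OrdP i₀ N (fun j => ⌊(u j : ℝ) * J⌋₊)
        (fun j => ⌊(V j + δ) * J⌋₊) (fun j => ⌊(T j + δ) * J⌋₊) F A) →
      Clp S (fun J F A => OrdK i₀ N (fun j => ⌊(u j : ℝ) * J⌋₊) (fun j => ⌊(V j + δ) * J⌋₊)
      (fun j => ⌊(T j + δ) * J⌋₊) (fun j => ⌊(G j + δ) * J⌋₊) F A)) :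
    Clp S (fun J F A => NLP i₀ N ⌊g * J⌋₊ (fun j => ⌊(u j : ℝ) * J⌋₊) (fun j => ⌊V j * J⌋₊)
      (fun j => ⌊T j * J⌋₊) (fun j => ⌊H j * J⌋₊) (fun j => ⌊G j * J⌋₊) F A) := by
  have hpi0 := pi_pos hC
  obtain ⟨δ₀, hδ₀, hO⟩ := hO
  obtain ⟨η₁, hη₁, k1⟩ := min_pos N (fun j => min ((σ 1).rot (u j) - V j)
      ((σ 1).th (u j) - T j)) fun j hj => by
    have h1 := hV j hj
    have h2 := hT j hj
    exact lt_min (by linarith) (by linarith)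
  obtain ⟨η₃, hη₃, k3⟩ := slack N (fun j =>
      min ((σ 1).pi - (σ 1).rot (u j)) (min (T j - u j - (σ 1).rot (u j) - max (H j) 0)
        (T (j + 1) - u (j + 1) - (σ 1).rot (u j) - max (H j) 0))) fun j h => by
    have g1 := turn j h
    have g2 := hR j h
    have g3 := hH j h
    refine lt_min (by linarith) (lt_min ?_ ?_)
    · have : max (H j) 0 < T j - u j - (σ 1).rot (u j) := max_lt g3.1 (by linarith [g2.1])
      linarith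
    · have : max (H j) 0 < T (j + 1) - u (j + 1) - (σ 1).rot (u j) :=
        max_lt g3.2 (by linarith [g2.2])
      linarith
  obtain ⟨δ, hδe⟩ : ∃ δ, δ = min (min (η₁ / 2) ((σ 1).pi - g)) (min (min η₃ (σ 1).pi) δ₀) :=
    ⟨_, rfl⟩
  have hδ : 0 < δ := by
    rw [hδe]
    exact lt_min (lt_min (by linarith) (by linarith)) (lt_min (lt_min hη₃ hpi0) hδ₀)
  have q1 : δ ≤ η₁ / 2 := by rw [hδe]; exact (min_le_left _ _).trans (min_le_left _ _)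
  have q2 : δ ≤ (σ 1).pi - g := by rw [hδe]; exact (min_le_left _ _).trans (min_le_right _ _)
  have q3 : δ ≤ η₃ := by
    rw [hδe]
    exact (min_le_right _ _).trans ((min_le_left _ _).trans (min_le_left _ _))
  have q4 : δ ≤ (σ 1).pi := by
    rw [hδe]
    exact (min_le_right _ _).trans ((min_le_left _ _).trans (min_le_right _ _))
  have q5 : δ ≤ δ₀ := by rw [hδe]; exact (min_le_right _ _).trans (min_le_right _ _)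
  have s1 : ∀ j ≤ N, V j + δ < (σ 1).rot (u j) ∧ T j + δ < (σ 1).th (u j) := fun j hj => by
    have h := k1 j hj
    have h1 := h.trans (min_le_left _ _)
    have h2 := h.trans (min_le_right _ _)
    exact ⟨by linarith, by linarith⟩
  refine nl_core hC N u V T H G hδ hu hu0 hu1 (by linarith) q4 (fun j hj => ?_) (fun j hj => ?_)
    (fun j hj => ?_) (hO δ hδ q5 (ord_clp hC N u (fun j => V j + δ) (fun j => T j + δ) hu hu0 hu1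
      (fun j hj => (s1 j hj).1) (fun j hj => (s1 j hj).2) (fun j hj => ?_) (fun j hj => ?_) turn
      (fun j hj => ?_))) hG0
  · have h0 : (0 : ℝ) ≤ u j := by exact_mod_cast hu0 j hj
    exact h0.trans_lt (huT j hj)
  · have h := (q3.trans (k3 j hj)).trans (min_le_left _ _)
    linarith
  · have h := (q3.trans (k3 j hj)).trans (min_le_right _ _)
    have h1 := h.trans (min_le_left _ _)
    have h2 := h.trans (min_le_right _ _)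
    exact ⟨by linarith, by linarith⟩
  · have := hVT j hj
    beta_reduce
    linarith
  · have := huT j hj
    beta_reduce
    linarith
  · have h1 := (hR j hj).1
    have h2 := (hR j hj).2
    beta_reduce
    exact ⟨by linarith, by linarith⟩

/-- **Natural labels**, with the straightness given by the planks. -/
theorem nl_clp {S : PCl 3} {a R h₁ : ℝ} {i₀ : Fin 3} {c s₂ : ℝ} {r : ℝ → ℝ} {D : Set ℝ}
    {σ : ℝ → Row} (hC : Cs S a R h₁ i₀ c s₂ r D σ) (N : ℕ) (u : ℕ → ℚ) (V T H G : ℕ → ℝ) {g : ℝ}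
    (hu : ∀ j < N, u (j + 1) ≤ u j) (hu0 : ∀ j ≤ N, 0 ≤ u j) (hu1 : ∀ j ≤ N, u j ≤ 1)
    (hg : g < (σ 1).pi) (hV : ∀ j ≤ N, V j < (σ 1).rot (u j))
    (hT : ∀ j ≤ N, T j < (σ 1).th (u j))
    (hVT : ∀ j ≤ N, u j + V j ≤ T j) (huT : ∀ j ≤ N, (u j : ℝ) < T j)
    (turn : ∀ j < N, (σ 1).rot (u j) < (σ 1).pi)
    (hR : ∀ j < N, (σ 1).rot (u j) < T j - u j ∧ (σ 1).rot (u j) < T (j + 1) - u (j + 1))
    (hH : ∀ j < N, H j < T j - u j - (σ 1).rot (u j) ∧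
      H j < T (j + 1) - u (j + 1) - (σ 1).rot (u j))
    (hG0 : ∀ j ≤ N, 0 ≤ G j) (hG : ∀ j ≤ N, G j < T j - u j) :
    Clp S (fun J F A => NLP i₀ N ⌊g * J⌋₊ (fun j => ⌊(u j : ℝ) * J⌋₊) (fun j => ⌊V j * J⌋₊)
      (fun j => ⌊T j * J⌋₊) (fun j => ⌊H j * J⌋₊) (fun j => ⌊G j * J⌋₊) F A) :=
  nl_of hC N u V T H G hu hu0 hu1 hg hV hT hVT huT turn hR hH hG0
    ⟨1, one_pos, fun δ hδ _ h => ordk_plain hu0
      (fun j hj => by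
        have := huT j hj
        linarith) (fun j hj => by
        have := hG j hj
        linarith) h⟩

/-- **Natural labels**, with the straightness given by the number `sN`. -/
theorem nl_sn {S : PCl 3} {a R h₁ : ℝ} {i₀ : Fin 3} {c s₂ : ℝ} {r : ℝ → ℝ} {D : Set ℝ}
    {σ : ℝ → Row} (hC : Cs S a R h₁ i₀ c s₂ r D σ) (v₁ : ℚ) (hv0 : 0 ≤ v₁) (hv1 : v₁ ≤ 1)
    (tn : (σ 1).rot v₁ < (σ 1).pi) {t : ℚ} (ht0 : 0 ≤ t) (ht1 : t ≤ 1) (N : ℕ) (u : ℕ → ℚ)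
    (V T H G : ℕ → ℝ) {g : ℝ}
    (hu : ∀ j < N, u (j + 1) ≤ u j) (hu0 : ∀ j ≤ N, 0 ≤ u j) (hu1 : ∀ j ≤ N, u j ≤ v₁)
    (hg : g < (σ 1).pi) (hV : ∀ j ≤ N, V j < (σ 1).rot (u j))
    (hT : ∀ j ≤ N, T j < (σ 1).th (u j))
    (hVT : ∀ j ≤ N, u j + V j ≤ T j) (huT : ∀ j ≤ N, (u j : ℝ) < T j)
    (turn : ∀ j < N, (σ 1).rot (u j) < (σ 1).pi)
    (hR : ∀ j < N, (σ 1).rot (u j) < T j - u j ∧ (σ 1).rot (u j) < T (j + 1) - u (j + 1))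
    (hH : ∀ j < N, H j < T j - u j - (σ 1).rot (u j) ∧
      H j < T (j + 1) - u (j + 1) - (σ 1).rot (u j))
    (hG0 : ∀ j ≤ N, 0 ≤ G j) (hG1 : ∀ j ≤ N, G j < (σ 1).sN v₁ t)
    (hG2 : ∀ j ≤ N, G j < t - v₁ + ((σ 1).pi - (σ 1).rot v₁))
    (hG3 : ∀ j ≤ N, G j < T j - u j + ((σ 1).pi - (σ 1).rot v₁)) :
    Clp S (fun J F A => NLP i₀ N ⌊g * J⌋₊ (fun j => ⌊(u j : ℝ) * J⌋₊) (fun j => ⌊V j * J⌋₊)
      (fun j => ⌊T j * J⌋₊) (fun j => ⌊H j * J⌋₊) (fun j => ⌊G j * J⌋₊) F A) := by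
  obtain ⟨δ₀, hδ₀, k⟩ := min_pos N (fun j => min ((σ 1).sN v₁ t - G j)
      (t - v₁ + ((σ 1).pi - (σ 1).rot v₁) - G j)) fun j hj => by
    have h1 := hG1 j hj
    have h2 := hG2 j hj
    exact lt_min (by linarith) (by linarith)
  refine nl_of hC N u V T H G hu hu0 (fun j hj => (hu1 j hj).trans hv1) hg hV hT hVT huT turn hR hH
    hG0 ⟨δ₀ / 2, by linarith, fun δ hδ hδ₁ h => ordk_sn hC v₁ hv0 hv1 tn ht0 ht1 hu0 hu1 ?_ ?_ ?_ ?_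
      h⟩
  · intro j hj
    have := hG0 j hj
    linarith
  · intro j hj
    have := (k j hj).trans (min_le_left _ _)
    linarith
  · intro j hj
    have := (k j hj).trans (min_le_right _ _)
    linarith
  · intro j hj
    have := hG3 j hj
    linarith

/-- **Natural labels**, in the case of the local data. -/
theorem nl_adm {S : PCl 3} {a R h₁ : ℝ} {i₀ : Fin 3} {c s₂ : ℝ} {r : ℝ → ℝ} {D : Set ℝ}
    {σ : ℝ → Row} (hC : Cs S a R h₁ i₀ c s₂ r D σ) {K : Set ℝ} {W : ℝ → ℝ} {v₁ t : ℚ} {e₁ : ℝ}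
    (hA : Adm σ K W v₁ t e₁) (N : ℕ) (u : ℕ → ℚ) (V T H G : ℕ → ℝ) {g : ℝ}
    (hu : ∀ j < N, u (j + 1) ≤ u j) (hu0 : ∀ j ≤ N, 0 ≤ u j) (hu1 : ∀ j ≤ N, u j ≤ v₁)
    (hg : g < (σ 1).pi) (hV : ∀ j ≤ N, V j < (σ 1).rot (u j))
    (hT : ∀ j ≤ N, T j < (σ 1).th (u j))
    (hVT : ∀ j ≤ N, u j + V j ≤ T j) (huT : ∀ j ≤ N, (u j : ℝ) < T j)
    (turn : ∀ j < N, (σ 1).rot (u j) < (σ 1).pi)
    (hR : ∀ j < N, (σ 1).rot (u j) < T j - u j ∧ (σ 1).rot (u j) < T (j + 1) - u (j + 1))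
    (hH : ∀ j < N, H j < T j - u j - (σ 1).rot (u j) ∧
      H j < T (j + 1) - u (j + 1) - (σ 1).rot (u j))
    (hG0 : ∀ j ≤ N, 0 ≤ G j) (hG1 : ∀ j ≤ N, G j < (σ 1).sN v₁ t)
    (hG2 : ∀ j ≤ N, G j < T j - u j + 7 * e₁) :
    Clp S (fun J F A => NLP i₀ N ⌊g * J⌋₊ (fun j => ⌊(u j : ℝ) * J⌋₊) (fun j => ⌊V j * J⌋₊)
      (fun j => ⌊T j * J⌋₊) (fun j => ⌊H j * J⌋₊) (fun j => ⌊G j * J⌋₊) F A) := by
  have h1 := hA.e8
  have h2 := hA.e0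
  have hv0 : 0 ≤ v₁ := (hu0 0 (Nat.zero_le _)).trans (hu1 0 (Nat.zero_le _))
  refine nl_sn hC v₁ hv0 hA.v1.le (turn_of_adm hA) hA.t0.le (t1_of_adm hC hA hv0) N u V T H G hu hu0
    hu1 hg hV hT hVT huT turn hR hH hG0 hG1 (fun j hj => ?_) (fun j hj => ?_)
  · have h3 := hG2 j hj
    have h4 := vel_adm hC hA (hu0 j hj) (hu1 j hj)
    have h5 := hT j hj
    linarith
  · have h3 := hG2 j hj
    linarith

end Pool.S6F
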