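import Pool.Agent.H75.S6C.SNB

/-!
# Comparison of planks, one family

A plank at a spread fan has the slope of the fan; two planks of one line which are functions of a
window on which the directions turn have the same normals; the other order of the coordinates.
-/

set_option autoImplicit false

namespace Pool.S6F

open Finset Real
open Pool.Agent.H49.Ent Pool.Agent.H32.Dense Pool.STK Pool.KA Pool.KSAT Pool.K2S Pool.PB Pool.KS6
  Pool.S6C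

/-! ### Planks at a point -/

theorem inc_lam {i₀ iu iN : Fin 3} {w lam lam' P : ℕ} {C : ℝ} (hC : 0 ≤ C) (h : lam' ≤ lam)
    {y : Pln} {t : ℝ} {x d : Fin 3 → ℝ} (hI : Inc i₀ iu iN w lam P C y t x d) :
    Inc i₀ iu iN w lam' P C y t x d := by
  have h1 : (2 : ℝ) ^ lam' ≤ 2 ^ lam := pow_le_pow_right₀ (by norm_num) h
  have h2 : (2 : ℝ) ^ (w + lam') ≤ 2 ^ (w + lam) := pow_le_pow_right₀ (by norm_num) (by omega)
  exact ⟨hI.e_le, hI.c_le, hI.s_le, hI.pe,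
    hI.pu.trans (div_le_div_of_nonneg_left hC (by positivity) h2), hI.pn, hI.ve,
    hI.vu.trans (div_le_div_of_nonneg_left hC (by positivity) h1), hI.vn⟩

/-- The frame of a plank at two samples of a fan. -/
theorem lab_pt {i₀ iu iN : Fin 3} {w lam P q lp : ℕ} {y : Pln} {t1 t2 : ℝ}
    {x1 x2 d1 d2 E n : Fin 3 → ℝ} (h1 : Inc i₀ iu iN w lam P 2 y t1 x1 d1)
    (h2 : Inc i₀ iu iN w lam P 2 y t2 x2 d2) (hq : 1 / 2 ^ (q + 1) ≤ |d1 i₀ - d2 i₀|)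
    (l1 : ∀ j, |d1 j - E j * d1 i₀ - n j| ≤ 1 / 2 ^ lp)
    (l2 : ∀ j, |d2 j - E j * d2 i₀ - n j| ≤ 1 / 2 ^ lp) :
    |y.e - E iu| ≤ 8 * 2 ^ q * (1 / 2 ^ lam) + 4 * 2 ^ q * (1 / 2 ^ lp) ∧
      |y.c + y.s * E iu + E iN| ≤ 8 * 2 ^ q * (2 ^ w / 2 ^ P) + 20 * 2 ^ q * (1 / 2 ^ lp) := by
  have a1 := pair_slope (l1 iu) (l2 iu) hq
  have a2 := pair_slope (l1 iN) (l2 iN) hq
  have a3 := pair_fn (inc_lam (by norm_num) (Nat.zero_le _) h1)
    (inc_lam (by norm_num) (Nat.zero_le _) h2) hq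
  have b1 : |d1 iu - y.e * d1 i₀ - fu i₀ iu y.e y.db| ≤ 2 / 2 ^ lam := h1.vu
  have b2 : |d2 iu - y.e * d2 i₀ - fu i₀ iu y.e y.db| ≤ 2 / 2 ^ lam := h2.vu
  have a4 := pair_slope b1 b2 hq
  obtain ⟨αu, hαu⟩ : ∃ αu, αu = (d1 iu - d2 iu) / (d1 i₀ - d2 i₀) := ⟨_, rfl⟩
  obtain ⟨αN, hαN⟩ : ∃ αN, αN = (d1 iN - d2 iN) / (d1 i₀ - d2 i₀) := ⟨_, rfl⟩
  rw [← hαu] at a1 a3 a4
  rw [← hαN] at a2 a3
  constructor
  · have e1 : y.e - E iu = (αu - E iu) - (αu - y.e) := by ring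
    rw [e1]
    have e2 : (4 : ℝ) * 2 ^ q * (2 / 2 ^ lam) = 8 * 2 ^ q * (1 / 2 ^ lam) := by ring
    rw [e2] at a4
    have := abs_sub (αu - E iu) (αu - y.e)
    linarith only [a4, a1, this]
  · have e1 : y.c + y.s * E iu + E iN = (y.c + y.s * αu + αN) - y.s * (αu - E iu) -
        (αN - E iN) := by ring
    rw [e1]
    have t1 := abs_sub ((y.c + y.s * αu + αN) - y.s * (αu - E iu)) (αN - E iN)
    have t2 := abs_sub (y.c + y.s * αu + αN) (y.s * (αu - E iu))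
    have t3 : |y.s * (αu - E iu)| ≤ 4 * (4 * 2 ^ q * (1 / 2 ^ lp)) := by
      rw [abs_mul]
      exact mul_le_mul h1.s_le a1 (abs_nonneg _) (by norm_num)
    linarith only [a3, a2, t1, t2, t3]

/-- The two orders of the coordinates. -/
theorem ord_cases {i₀ iu iN iu' iN' : Fin 3} (hi : ∀ j : Fin 3, j = i₀ ∨ j = iu ∨ j = iN)
    (hi' : ∀ j : Fin 3, j = i₀ ∨ j = iu' ∨ j = iN') :
    (iu' = iu ∧ iN' = iN) ∨ (iu' = iN ∧ iN' = iu) := by
  revert i₀ iu iN iu' iN'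
  decide

/-- Spread fans inside an event. -/
def Spr {J : ℕ} (F : Fam 3 J) (i₀ : Fin 3) (q : ℕ) (B : F.Ω → Prop) : Prop :=
  ∀ ω, B ω → ∃ ω' ω'', B ω' ∧ B ω'' ∧ Fam.pt F ω' = Fam.pt F ω ∧ Fam.pt F ω'' = Fam.pt F ω ∧
    1 / 2 ^ (q + 1) ≤ |F.d ω' i₀ - F.d ω'' i₀|

/-- The data of a label on an event. -/
structure Lb3 {J : ℕ} (F : Fam 3 J) (B : F.Ω → Prop) (i₀ iu iN : Fin 3) (w lam P : ℕ)
    (y : F.Ω → Pln) : Prop where
  hi : ∀ j : Fin 3, j = i₀ ∨ j = iu ∨ j = iN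
  inc : ∀ ω, B ω → Inc i₀ iu iN w lam P 2 (y ω) (F.t ω) (F.x ω) (F.d ω)
  yp : ∃ φ : (Fin 3 → ℤ) × (ℕ × F.ζ) → Pln, ∀ ω, B ω → y ω = φ (ptq F J ω)
  ys : ∃ ψ : ((Fin 3 → ℝ) × (Fin 3 → ℝ)) × F.ζ × ℕ → Pln, ∀ ω, B ω → y ω = ψ (slam F w ω)

theorem Lb3.sub {J : ℕ} {F : Fam 3 J} {A B : F.Ω → Prop} {i₀ iu iN : Fin 3} {w lam P : ℕ}
    {y : F.Ω → Pln} (h : Lb3 F A i₀ iu iN w lam P y) (hB : Sub B A) :
    Lb3 F B i₀ iu iN w lam P y := by
  obtain ⟨φ, hφ⟩ := h.yp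
  obtain ⟨ψ, hψ⟩ := h.ys
  exact ⟨h.hi, fun ω hω => h.inc ω (hB _ hω), ⟨φ, fun ω hω => hφ ω (hB _ hω)⟩,
    ⟨ψ, fun ω hω => hψ ω (hB _ hω)⟩⟩

theorem Lb3.pt {J : ℕ} {F : Fam 3 J} {B : F.Ω → Prop} {i₀ iu iN : Fin 3} {w lam P : ℕ}
    {y : F.Ω → Pln} (h : Lb3 F B i₀ iu iN w lam P y) {ω ω' : F.Ω} (hω : B ω) (hω' : B ω')
    (e : Fam.pt F ω = Fam.pt F ω') : y ω = y ω' := by
  obtain ⟨φ, hφ⟩ := h.yp
  have e' : ptq F J ω = ptq F J ω' := e
  rw [hφ ω hω, hφ ω' hω', e']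

theorem Lb3.win {J : ℕ} {F : Fam 3 J} {B : F.Ω → Prop} {i₀ iu iN : Fin 3} {w lam P : ℕ}
    {y : F.Ω → Pln} (h : Lb3 F B i₀ iu iN w lam P y) {ω ω' : F.Ω} (hω : B ω) (hω' : B ω')
    (e : slam F w ω = slam F w ω') : y ω = y ω' := by
  obtain ⟨ψ, hψ⟩ := h.ys
  rw [hψ ω hω, hψ ω' hω', e]

/-- The frame of a label and the slopes of the fans. -/
theorem Lb3.near {J : ℕ} {F : Fam 3 J} {B : F.Ω → Prop} {i₀ iu iN : Fin 3} {w lam P q lp : ℕ}
    {y : F.Ω → Pln} (h : Lb3 F B i₀ iu iN w lam P y) (hs : Spr F i₀ q B)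
    {e n : (Fin 3 → ℤ) × (ℕ × F.ζ) → Fin 3 → ℝ} (hL : OnL i₀ (1 / 2 ^ lp) (Fam.pt F) F.d B e n)
    {ω : F.Ω} (hω : B ω) :
    |(y ω).e - e (Fam.pt F ω) iu| ≤ 8 * 2 ^ q * (1 / 2 ^ lam) + 4 * 2 ^ q * (1 / 2 ^ lp) ∧
      |(y ω).c + (y ω).s * e (Fam.pt F ω) iu + e (Fam.pt F ω) iN| ≤
        8 * 2 ^ q * (2 ^ w / 2 ^ P) + 20 * 2 ^ q * (1 / 2 ^ lp) := by
  obtain ⟨ωa, ωb, ha, hb, pa, pb, hab⟩ := hs ω hω
  have Ia := h.inc _ ha
  have Ib := h.inc _ hb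
  rw [h.pt ha hω pa] at Ia
  rw [h.pt hb hω pb] at Ib
  have La : ∀ j, |F.d ωa j - e (Fam.pt F ω) j * F.d ωa i₀ - n (Fam.pt F ω) j| ≤ 1 / 2 ^ lp := by
    intro j
    have := hL _ ha j
    rwa [pa] at this
  have Lb : ∀ j, |F.d ωb j - e (Fam.pt F ω) j * F.d ωb i₀ - n (Fam.pt F ω) j| ≤ 1 / 2 ^ lp := by
    intro j
    have := hL _ hb j
    rwa [pb] at this
  exact lab_pt Ia Ib hab La Lb

/-- **Comparison of two labels**: the directions turn on the windows `v₁`. -/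
theorem cmp_turn {S : PCl 3} {i₀ : Fin 3} {ρ : Row} (hR : Rw S i₀ 1 ρ) (v₁ : ℚ) (h0 : 0 ≤ v₁)
    (h1 : v₁ ≤ 1) {h : ℝ} (hh : 0 < h) (hr : ρ.rot v₁ + h ≤ 1) :
    ∃ τ > 0, ∃ J₁ : ℕ, ∀ J ≥ J₁, ∀ (F : Fam 3 J) (B₀ G : F.Ω → Prop), Sub G B₀ → S.St τ J F G →
      ∀ q lp l : ℕ, l = ⌊(ρ.rot v₁ + h) * J⌋₊ → l + q + 5 ≤ lp → Spr F i₀ q B₀ →
      ∀ e n : (Fin 3 → ℤ) × (ℕ × F.ζ) → Fin 3 → ℝ, OnL i₀ (1 / 2 ^ lp) (Fam.pt F) F.d B₀ e n →
      ∀ (iu iN iu' iN' : Fin 3) (w w' lam lam' P P' : ℕ) (y y' : F.Ω → Pln),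
      w ≤ ⌊(v₁ : ℝ) * J⌋₊ → w' ≤ ⌊(v₁ : ℝ) * J⌋₊ → Lb3 F B₀ i₀ iu iN w lam P y →
      Lb3 F B₀ i₀ iu' iN' w' lam' P' y' →
      ∃ B : F.Ω → Prop, Sub B G ∧ Pe F.p G ≤ 2 * Pe F.p B ∧ ∀ ω, B ω →
        (iu' = iu ∧ iN' = iN ∧ |(y' ω).s - (y ω).s| ≤
          1600 * 2 ^ q * 2 ^ l * (2 ^ w / 2 ^ P + 2 ^ w' / 2 ^ P')) ∨
        (iu' = iN ∧ iN' = iu ∧ |1 - (y' ω).s * (y ω).s| ≤
          1600 * 2 ^ q * 2 ^ l * (2 ^ w / 2 ^ P + 2 ^ w' / 2 ^ P')) := by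
  classical
  obtain ⟨τ, hτ, J₁, htn⟩ := turn_part hR v₁ h0 h1 hh hr
  refine ⟨τ, hτ, J₁, ?_⟩
  intro J hJ F B₀ G hG hS q lp l hl hlp hpr e n hL iu iN iu' iN' w w' lam lam' P P' y y' hw hw'
    hy hy'
  have i1 : (1 : ℝ) / 2 ^ lp ≤ 1 / 2 ^ l := inv_mono (by omega)
  obtain ⟨B, hB, hPB, htr⟩ := htn J hJ F G hS e n (by
    rw [← hl]
    exact (hL.sub hG).mono i1)
  rw [← hl] at htr
  refine ⟨B, hB, hPB, fun ω hω => ?_⟩
  have hvJ : ⌊(v₁ : ℝ) * J⌋₊ ≤ J := floor_row_one (by exact_mod_cast h1) J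
  obtain ⟨ε, hε⟩ : ∃ ε : ℝ, ε = 8 * 2 ^ q * (2 ^ w / 2 ^ P) := ⟨_, rfl⟩
  obtain ⟨ε', hε'⟩ : ∃ ε' : ℝ, ε' = 8 * 2 ^ q * (2 ^ w' / 2 ^ P') := ⟨_, rfl⟩
  have hl0 : (0 : ℝ) < 1 / 2 ^ (l + 1) := by positivity
  have hκ : 100 * ((ε + ε') / (1 / 2 ^ (l + 1))) =
      1600 * 2 ^ q * 2 ^ l * (2 ^ w / 2 ^ P + 2 ^ w' / 2 ^ P') := by
    rw [hε, hε', pow_succ]
    field_simp
    ring
  obtain ⟨ω₁, hω₁, hsl, j, hj⟩ := htr ω hω
  have b0 := hG _ (hB _ hω)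
  have b1 := hG _ hω₁
  obtain ⟨ωa, ωb, ha, hb, pa, pb, hab⟩ := hpr ω b0
  obtain ⟨ωc, ωd, hc, hd, pc, pd, hcd⟩ := hpr ω₁ b1
  have s1 : slam F w ω₁ = slam F w ω := Pool.S6K.slam_mono hw hvJ hsl
  have s2 : slam F w' ω₁ = slam F w' ω := Pool.S6K.slam_mono hw' hvJ hsl
  have y1 := hy.win b1 b0 s1
  have y2 := hy'.win b1 b0 s2
  have Ia := inc_lam (by norm_num) (Nat.zero_le _) (hy.inc _ ha)
  have Ib := inc_lam (by norm_num) (Nat.zero_le _) (hy.inc _ hb)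
  have Ic := inc_lam (by norm_num) (Nat.zero_le _) (hy.inc _ hc)
  have Id := inc_lam (by norm_num) (Nat.zero_le _) (hy.inc _ hd)
  rw [hy.pt ha b0 pa] at Ia
  rw [hy.pt hb b0 pb] at Ib
  rw [hy.pt hc b1 pc, y1] at Ic
  rw [hy.pt hd b1 pd, y1] at Id
  have Ia' := inc_lam (by norm_num) (Nat.zero_le _) (hy'.inc _ ha)
  have Ib' := inc_lam (by norm_num) (Nat.zero_le _) (hy'.inc _ hb)
  have Ic' := inc_lam (by norm_num) (Nat.zero_le _) (hy'.inc _ hc)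
  have Id' := inc_lam (by norm_num) (Nat.zero_le _) (hy'.inc _ hd)
  rw [hy'.pt ha b0 pa] at Ia'
  rw [hy'.pt hb b0 pb] at Ib'
  rw [hy'.pt hc b1 pc, y2] at Ic'
  rw [hy'.pt hd b1 pd, y2] at Id'
  have La : ∀ j, |F.d ωa j - e (Fam.pt F ω) j * F.d ωa i₀ - n (Fam.pt F ω) j| ≤ 1 / 2 ^ lp := by
    intro j
    have := hL _ ha j
    rwa [pa] at this
  have Lb : ∀ j, |F.d ωb j - e (Fam.pt F ω) j * F.d ωb i₀ - n (Fam.pt F ω) j| ≤ 1 / 2 ^ lp := by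
    intro j
    have := hL _ hb j
    rwa [pb] at this
  have Lc : ∀ j, |F.d ωc j - e (Fam.pt F ω₁) j * F.d ωc i₀ - n (Fam.pt F ω₁) j| ≤
      1 / 2 ^ lp := by
    intro j
    have := hL _ hc j
    rwa [pc] at this
  have Ld : ∀ j, |F.d ωd j - e (Fam.pt F ω₁) j * F.d ωd i₀ - n (Fam.pt F ω₁) j| ≤
      1 / 2 ^ lp := by
    intro j
    have := hL _ hd j
    rwa [pd] at this
  have p1 := pair_fn Ia Ib hab
  have p2 := pair_fn Ic Id hcd
  have p3 := ind_pts hy.hi hlp La Lb Lc Ld hab hcd hj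
  rw [← hε] at p1 p2
  rw [← hκ]
  rcases ord_cases hy.hi hy'.hi with ⟨u1, u2⟩ | ⟨u1, u2⟩
  · left
    subst u1 u2
    have p4 := pair_fn Ia' Ib' hab
    have p5 := pair_fn Ic' Id' hcd
    rw [← hε'] at p4 p5
    exact ⟨rfl, rfl, ind_alg p1 p2 p4 p5 Ia.s_le Ia'.s_le hl0 p3⟩
  · right
    subst u1 u2
    have p4 := pair_fn Ia' Ib' hab
    have p5 := pair_fn Ic' Id' hcd
    rw [← hε'] at p4 p5
    exact ⟨rfl, rfl, ind_alg2 p1 p2 p4 p5 Ia.s_le Ia'.s_le hl0 p3⟩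

/-! ### The other order of the coordinates -/

/-- The same plank with the other order of the coordinates; `e'` is the slope. -/
noncomputable def flp (e' : ℝ) (y : Pln) : Pln :=
  { e := e', c := y.c / y.s, s := 1 / y.s, xb := y.xb, db := y.db }

theorem fn_flp {i₀ iu iN : Fin 3} {e' : ℝ} {y : Pln} (hs : y.s ≠ 0) (x : Fin 3 → ℝ) :
    fn i₀ iu iN (flp e' y).c (flp e' y).s x = 1 / y.s * fn i₀ iN iu y.c y.s x := by
  unfold fn flp
  field_simp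
  ring

theorem fu_flp (i₀ iu iN : Fin 3) (e' : ℝ) (y : Pln) (x : Fin 3 → ℝ) :
    fu i₀ iu (flp e' y).e x = fn i₀ iN iu y.c y.s x - y.s * fu i₀ iN y.e x -
      (e' + (y.c + y.s * y.e)) * x i₀ := by
  unfold fn fu flp
  ring

/-- The frame of the plank in the other order. -/
theorem flp_near {y : Pln} {Eu EN a b : ℝ} (h1 : |y.e - EN| ≤ a) (h2 : |y.c + y.s * EN + Eu| ≤ b)
    (hs : |y.s| ≤ 4) : |-(y.c + y.s * y.e) - Eu| ≤ 4 * a + b := by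
  have e1 : -(y.c + y.s * y.e) - Eu = -(y.c + y.s * EN + Eu) - y.s * (y.e - EN) := by ring
  rw [e1]
  have t1 := abs_sub (-(y.c + y.s * EN + Eu)) (y.s * (y.e - EN))
  rw [abs_neg] at t1
  have t2 : |y.s * (y.e - EN)| ≤ 4 * a := by
    rw [abs_mul]
    exact mul_le_mul hs h1 (abs_nonneg _) (by norm_num)
  linarith only [h2, t1, t2]

/-- The first coefficient of the normal form in the other order. -/
theorem flp_c {e' : ℝ} {y : Pln} {Eu EN b : ℝ} (h2 : |y.c + y.s * EN + Eu| ≤ b)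
    (hs2 : 1 / 2 ≤ |y.s|) (hu : |Eu| ≤ 9 / 8) (hN : |EN| ≤ 9 / 8) (hb : b ≤ 1 / 4) :
    |(flp e' y).c| ≤ 4 := by
  have hs0 : y.s ≠ 0 := by
    intro h
    rw [h, abs_zero] at hs2
    norm_num at hs2
  have e1 : (flp e' y).c = 1 / y.s * (y.c + y.s * EN + Eu) - EN - 1 / y.s * Eu := by
    unfold flp
    field_simp
    ring
  have t1 : |1 / y.s| ≤ 2 := by
    rw [abs_div, abs_one, div_le_iff₀ (by linarith only [hs2])]
    linarith only [hs2]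
  rw [e1]
  have a1 := abs_sub (1 / y.s * (y.c + y.s * EN + Eu) - EN) (1 / y.s * Eu)
  have a2 := abs_sub (1 / y.s * (y.c + y.s * EN + Eu)) EN
  have a3 : |1 / y.s * (y.c + y.s * EN + Eu)| ≤ 2 * (1 / 4) := by
    rw [abs_mul]
    exact mul_le_mul t1 (h2.trans hb) (abs_nonneg _) (by norm_num)
  have a4 : |1 / y.s * Eu| ≤ 2 * (9 / 8) := by
    rw [abs_mul]
    exact mul_le_mul t1 hu (abs_nonneg _) (by norm_num)
  linarith only [hN, a1, a2, a3, a4]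

/-- The plank in the other order contains the line. -/
theorem inc_flp {i₀ iu iN : Fin 3} {w lam P : ℕ} {e' : ℝ} {y : Pln} {t : ℝ} {x d : Fin 3 → ℝ}
    (h : Inc i₀ iN iu w lam P 2 y t x d) (hs2 : 1 / 2 ≤ |y.s|) (he : |e'| ≤ 2)
    (hc : |(flp e' y).c| ≤ 4) (hP : w + lam ≤ P) (hel : |e' + (y.c + y.s * y.e)| ≤ 14 / 2 ^ lam) :
    Inc i₀ iu iN w lam P 40 (flp e' y) t x d := by
  have hs0 : y.s ≠ 0 := by
    intro h
    rw [h, abs_zero] at hs2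
    norm_num at hs2
  have t1 : |1 / y.s| ≤ 2 := by
    rw [abs_div, abs_one, div_le_iff₀ (by linarith only [hs2])]
    linarith only [hs2]
  have hsl := h.s_le
  have c1 : ∀ n : ℕ, (2 : ℝ) / 2 ^ n ≤ 40 / 2 ^ n := fun n =>
    div_le_div_of_nonneg_right (by norm_num) (by positivity)
  have i1 : (1 : ℝ) / 2 ^ P ≤ 1 / 2 ^ (w + lam) := inv_mono hP
  have key : ∀ a b : Fin 3 → ℝ, fn i₀ iu iN (flp e' y).c (flp e' y).s a -
      fn i₀ iu iN (flp e' y).c (flp e' y).s b =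
      1 / y.s * (fn i₀ iN iu y.c y.s a - fn i₀ iN iu y.c y.s b) := by
    intro a b
    rw [fn_flp hs0, fn_flp hs0]
    ring
  have key2 : ∀ a b : Fin 3 → ℝ, fu i₀ iu (flp e' y).e a - fu i₀ iu (flp e' y).e b =
      (fn i₀ iN iu y.c y.s a - fn i₀ iN iu y.c y.s b) -
        y.s * (fu i₀ iN y.e a - fu i₀ iN y.e b) - (e' + (y.c + y.s * y.e)) * (a i₀ - b i₀) := by
    intro a b
    rw [fu_flp, fu_flp]
    ring
  refine ⟨he, hc, t1.trans (by norm_num), h.pe.trans (c1 _), ?_, ?_, h.ve.trans (by norm_num), ?_,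
    ?_⟩
  · change |fu i₀ iu (flp e' y).e x - fu i₀ iu (flp e' y).e (fun i => y.xb i + t * y.db i)| ≤ _
    rw [key2]
    have a1 := h.pn
    have a2 := h.pu
    have a3 : |y.s * (fu i₀ iN y.e x - fu i₀ iN y.e (fun i => y.xb i + t * y.db i))| ≤
        4 * (2 / 2 ^ (w + lam)) := by
      rw [abs_mul]
      exact mul_le_mul hsl a2 (abs_nonneg _) (by norm_num)
    have a4 : |(e' + (y.c + y.s * y.e)) * (x i₀ - (y.xb i₀ + t * y.db i₀))| ≤
        14 / 2 ^ lam * (2 / 2 ^ w) := by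
      rw [abs_mul]
      exact mul_le_mul hel h.pe (abs_nonneg _) (by positivity)
    have e0 : (14 : ℝ) / 2 ^ lam * (2 / 2 ^ w) = 28 * (1 / 2 ^ (w + lam)) := by
      rw [pow_add]
      field_simp
      norm_num
    rw [e0] at a4
    refine (abs_sub _ _).trans ((add_le_add_left (abs_sub _ _) _).trans ?_)
    have e1 : (2 : ℝ) / 2 ^ P = 2 * (1 / 2 ^ P) := by ring
    have e2 : (40 : ℝ) / 2 ^ (w + lam) = 32 * (1 / 2 ^ (w + lam)) + 4 * (2 / 2 ^ (w + lam)) := by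
      ring
    rw [e2]
    rw [e1] at a1
    have p0 : (0 : ℝ) < 1 / 2 ^ (w + lam) := by positivity
    linarith only [i1, a1, a3, a4, p0]
  · change |fn i₀ iu iN (flp e' y).c (flp e' y).s x -
      fn i₀ iu iN (flp e' y).c (flp e' y).s (fun i => y.xb i + t * y.db i)| ≤ _
    rw [key, abs_mul]
    have a1 : |1 / y.s| * |fn i₀ iN iu y.c y.s x -
        fn i₀ iN iu y.c y.s (fun i => y.xb i + t * y.db i)| ≤ 2 * (2 / 2 ^ P) :=
      mul_le_mul t1 h.pn (abs_nonneg _) (by norm_num)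
    refine a1.trans ?_
    rw [mul_div_assoc', div_le_div_iff_of_pos_right (by positivity)]
    norm_num
  · change |fu i₀ iu (flp e' y).e d - fu i₀ iu (flp e' y).e y.db| ≤ _
    rw [key2]
    have a1 := h.vn
    have a2 := h.vu
    have a3 : |y.s * (fu i₀ iN y.e d - fu i₀ iN y.e y.db)| ≤ 4 * (2 / 2 ^ lam) := by
      rw [abs_mul]
      exact mul_le_mul hsl a2 (abs_nonneg _) (by norm_num)
    have a4 : |(e' + (y.c + y.s * y.e)) * (d i₀ - y.db i₀)| ≤ 14 / 2 ^ lam * 2 := by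
      rw [abs_mul]
      exact mul_le_mul hel h.ve (abs_nonneg _) (by positivity)
    refine (abs_sub _ _).trans ((add_le_add_left (abs_sub _ _) _).trans ?_)
    have e1 : (2 : ℝ) * 2 ^ w / 2 ^ P ≤ 2 / 2 ^ lam := by
      have e3 : (2 : ℝ) / 2 ^ lam = 2 * 2 ^ w * (1 / 2 ^ (w + lam)) := by
        rw [pow_add]
        field_simp
      have e4 : (2 : ℝ) * 2 ^ w / 2 ^ P = 2 * 2 ^ w * (1 / 2 ^ P) := by ring
      rw [e3, e4]
      exact mul_le_mul_of_nonneg_left i1 (by positivity)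
    have e2 : (40 : ℝ) / 2 ^ lam = 2 / 2 ^ lam + 4 * (2 / 2 ^ lam) + 14 / 2 ^ lam * 2 +
      2 / 2 ^ lam := by ring
    rw [e2]
    have p0 : (0 : ℝ) < 2 / 2 ^ lam := by positivity
    linarith only [a1, a3, a4, e1, p0]
  · change |fn i₀ iu iN (flp e' y).c (flp e' y).s d -
      fn i₀ iu iN (flp e' y).c (flp e' y).s y.db| ≤ _
    rw [key, abs_mul]
    have a1 : |1 / y.s| * |fn i₀ iN iu y.c y.s d - fn i₀ iN iu y.c y.s y.db| ≤
        2 * (2 * 2 ^ w / 2 ^ P) := mul_le_mul t1 h.vn (abs_nonneg _) (by norm_num)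
    refine a1.trans ?_
    rw [mul_div_assoc', div_le_div_iff_of_pos_right (by positivity)]
    have : (0 : ℝ) < 2 ^ w := by positivity
    linarith only [this]

theorem inc_C {i₀ iu iN : Fin 3} {w lam P : ℕ} {C C' : ℝ} (h : C ≤ C')
    {y : Pln} {t : ℝ} {x d : Fin 3 → ℝ} (hI : Inc i₀ iu iN w lam P C y t x d) :
    Inc i₀ iu iN w lam P C' y t x d := by
  have h1 : ∀ n : ℕ, C / 2 ^ n ≤ C' / 2 ^ n := fun n =>
    div_le_div_of_nonneg_right h (by positivity)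
  exact ⟨hI.e_le, hI.c_le, hI.s_le, hI.pe.trans (h1 _), hI.pu.trans (h1 _), hI.pn.trans (h1 _),
    hI.ve.trans h, hI.vu.trans (h1 _), hI.vn.trans (by
      refine div_le_div_of_nonneg_right ?_ (by positivity)
      exact mul_le_mul_of_nonneg_right h (by positivity))⟩

/-! ### Chains -/

theorem min_pos : ∀ (N : ℕ) (f : ℕ → ℝ), (∀ j ≤ N, 0 < f j) → ∃ x > 0, ∀ j ≤ N, x ≤ f j
  | 0, f, hf => ⟨f 0, hf 0 le_rfl, fun j hj => by
      have : j = 0 := by omega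
      rw [this]⟩
  | N + 1, f, hf => by
    obtain ⟨x, hx, h⟩ := min_pos N f fun j hj => hf j (by omega)
    refine ⟨min x (f (N + 1)), lt_min hx (hf _ le_rfl), fun j hj => ?_⟩
    rcases Nat.lt_or_ge N j with h1 | h1
    · have : j = N + 1 := by omega
      rw [this]
      exact min_le_right _ _
    · exact (min_le_left _ _).trans (h j h1)

/-- Finitely many restrictions of an event. -/
theorem seq_ev {Ω : Type} [Fintype Ω] {p : Ω → ℝ} (hp : IsLaw p) {B₀ : Ω → Prop} {K : ℝ}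
    (hK : 1 ≤ K) (N : ℕ) (P : ℕ → (Ω → Prop) → Prop)
    (her : ∀ j < N, ∀ A B : Ω → Prop, Sub B A → P j A → P j B)
    (hst : ∀ j < N, ∀ G : Ω → Prop, Sub G B₀ → Pe p B₀ ≤ K ^ N * Pe p G →
      ∃ B : Ω → Prop, Sub B G ∧ Pe p G ≤ K * Pe p B ∧ P j B) :
    ∃ G : Ω → Prop, Sub G B₀ ∧ Pe p B₀ ≤ K ^ N * Pe p G ∧ ∀ j < N, P j G := by
  have main : ∀ k ≤ N, ∃ G : Ω → Prop, Sub G B₀ ∧ Pe p B₀ ≤ K ^ k * Pe p G ∧ ∀ j < k, P j G := by
    intro k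
    induction k with
    | zero =>
      intro _
      exact ⟨B₀, fun _ h => h, by rw [pow_zero, one_mul], fun j hj => absurd hj (by omega)⟩
    | succ k ih =>
      intro hk
      obtain ⟨G, h1, h2, h3⟩ := ih (by omega)
      have h4 : Pe p B₀ ≤ K ^ N * Pe p G := by
        refine h2.trans (mul_le_mul_of_nonneg_right ?_ (Pe_nonneg hp G))
        exact pow_le_pow_right₀ hK (by omega)
      obtain ⟨B, h5, h6, h7⟩ := hst k (by omega) G h1 h4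
      refine ⟨B, h5.trans h1, ?_, fun j hj => ?_⟩
      · calc Pe p B₀ ≤ K ^ k * Pe p G := h2
          _ ≤ K ^ k * (K * Pe p B) := mul_le_mul_of_nonneg_left h6 (by positivity)
          _ = K ^ (k + 1) * Pe p B := by rw [pow_succ]; ring
      · rcases Nat.lt_or_ge j k with h8 | h8
        · exact her j (by omega) G B h5 (h3 j h8)
        · have : j = k := by omega
          rw [this]
          exact h7
  exact main N le_rfl

/-- The orders along a chain of planks. -/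
theorem flip_chain {N : ℕ} {s : ℕ → ℝ} {f : ℕ → Prop} {δ : ℝ} (hδ0 : 0 ≤ δ)
    (hδ : 16 * (N + 1) * δ ≤ 1) (h0 : (f 0 → |s 0| ≤ 1) ∧ (¬ f 0 → 1 ≤ |s 0|))
    (hst : ∀ j < N, ((f j ↔ f (j + 1)) → |s (j + 1) - s j| ≤ δ) ∧
      (¬ (f j ↔ f (j + 1)) → |1 - s (j + 1) * s j| ≤ δ)) :
    ∀ j ≤ N, (f j → |s j| ≤ 2) ∧ (¬ f j → 1 / 2 ≤ |s j|) := by
  have main : ∀ j ≤ N, (f j → |s j| ≤ 1 + 8 * j * δ) ∧ (¬ f j → 1 ≤ (1 + 8 * j * δ) * |s j|) := by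
    intro j
    induction j with
    | zero =>
      intro _
      simpa using h0
    | succ j ih =>
      intro hj
      obtain ⟨i1, i2⟩ := ih (by omega)
      obtain ⟨g1, g2⟩ := hst j (by omega)
      have hjN : (j : ℝ) + 1 ≤ N := by exact_mod_cast hj
      have hb : 8 * ((j : ℝ) + 1) * δ ≤ 1 / 2 := by nlinarith only [hδ, hjN]
      have hδ1 : δ ≤ 1 / 16 := by
        have : (0 : ℝ) ≤ N := Nat.cast_nonneg N
        nlinarith only [hδ, hδ0]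
      obtain ⟨a, ha⟩ : ∃ a : ℝ, a = 1 + 8 * j * δ := ⟨_, rfl⟩
      have ha1 : 1 ≤ a := by
        rw [ha]
        have : 0 ≤ 8 * (j : ℝ) * δ := by positivity
        linarith only [this]
      have ha2 : a ≤ 3 / 2 := by rw [ha]; nlinarith only [hδ0, hb]
      have e1 : 1 + 8 * ((j + 1 : ℕ) : ℝ) * δ = a + 8 * δ := by
        rw [ha]
        push_cast
        ring
      rw [e1]
      rw [← ha] at i1 i2
      by_cases f0 : f j <;> by_cases f1 : f (j + 1)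
      · have g := g1 ⟨fun _ => f1, fun _ => f0⟩
        refine ⟨fun _ => ?_, fun h => absurd f1 h⟩
        have k := i1 f0
        have t := abs_sub_abs_le_abs_sub (s (j + 1)) (s j)
        linarith only [hδ0, g, k, t]
      · have g := g2 (fun h => f1 (h.1 f0))
        refine ⟨fun h => absurd h f1, fun _ => ?_⟩
        have k := i1 f0
        have t : 1 - |s (j + 1)| * |s j| ≤ δ := by
          rw [← abs_mul]
          have := abs_sub_abs_le_abs_sub 1 (s (j + 1) * s j)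
          rw [abs_one] at this
          linarith only [g, this]
        have h5 : 0 ≤ |s (j + 1)| := abs_nonneg _
        have h6 : |s (j + 1)| * |s j| ≤ |s (j + 1)| * a := mul_le_mul_of_nonneg_left k h5
        have h7 : 1 / 2 ≤ |s (j + 1)| := by nlinarith only [hδ1, t, h6, hδ0, h5, hb, ha]
        nlinarith only [t, h6, hδ0, h5, h7]
      · have g := g2 (fun h => f0 (h.2 f1))
        refine ⟨fun _ => ?_, fun h => absurd f1 h⟩
        have k := i2 f0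
        have t : |s (j + 1)| * |s j| ≤ 1 + δ := by
          rw [← abs_mul]
          have := abs_sub_abs_le_abs_sub (s (j + 1) * s j) 1
          rw [abs_one, abs_sub_comm] at this
          linarith only [g, this]
        have h5 : 0 ≤ |s (j + 1)| := abs_nonneg _
        have h6 : |s (j + 1)| ≤ |s (j + 1)| * (a * |s j|) := by nlinarith only [k, h5]
        nlinarith only [hδ0, t, h6, hb, ha, ha1]
      · have g := g1 ⟨fun h => absurd h f0, fun h => absurd h f1⟩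
        refine ⟨fun h => absurd h f1, fun _ => ?_⟩
        have k := i2 f0
        have t : |s j| - δ ≤ |s (j + 1)| := by
          have := abs_sub_abs_le_abs_sub (s j) (s (j + 1))
          rw [abs_sub_comm] at this
          linarith only [g, this]
        have h5 : 2 / 3 ≤ |s j| := by nlinarith only [hδ0, hb, ha, k, ha1]
        have h6 : (a + 8 * δ) * (|s j| - δ) ≤ (a + 8 * δ) * |s (j + 1)| :=
          mul_le_mul_of_nonneg_left t (by positivity)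
        nlinarith only [hδ0, k, h6, hb, ha, h5]
  intro j hj
  obtain ⟨i1, i2⟩ := main j hj
  have hjN : (j : ℝ) ≤ N := by exact_mod_cast hj
  have hb : 8 * (j : ℝ) * δ ≤ 1 / 2 := by nlinarith only [hjN, hδ]
  refine ⟨fun h => (i1 h).trans (by linarith), fun h => ?_⟩
  have k := i2 h
  have h5 : 0 ≤ |s j| := abs_nonneg _
  nlinarith only [k, hb, h5]

end Pool.S6F
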