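import Pool.Agent.H62.S6.Cmp

/-!
# Labels at finitely many windows in one order of the coordinates
-/

set_option autoImplicit false

namespace Pool.S6F

open Finset Real
open Pool.Agent.H49.Ent Pool.Agent.H32.Dense Pool.STK Pool.KA Pool.KSAT Pool.K2S Pool.PB Pool.KS6
  Pool.S6C

/-- The comparison of two labels, as a claim about an event. -/
def CmpP {J : ℕ} (F : Fam 3 J) (A : F.Ω → Prop) (i₀ : Fin 3) (l wv : ℕ) (C : ℝ) : Prop :=
  ∀ B₀ G : F.Ω → Prop, Sub G B₀ → Sub B₀ A → Pe F.p A ≤ C * Pe F.p G →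
    ∀ q lp : ℕ, l + q + 5 ≤ lp → Spr F i₀ q B₀ →
    ∀ e n : (Fin 3 → ℤ) × (ℕ × F.ζ) → Fin 3 → ℝ, OnL i₀ (1 / 2 ^ lp) (Fam.pt F) F.d B₀ e n →
    ∀ (iu iN iu' iN' : Fin 3) (w w' lam lam' P P' : ℕ) (y y' : F.Ω → Pln),
    w ≤ wv → w' ≤ wv → Lb3 F B₀ i₀ iu iN w lam P y → Lb3 F B₀ i₀ iu' iN' w' lam' P' y' →
    ∃ B : F.Ω → Prop, Sub B G ∧ Pe F.p G ≤ 2 * Pe F.p B ∧ ∀ ω, B ω →
      (iu' = iu ∧ iN' = iN ∧ |(y' ω).s - (y ω).s| ≤
        1600 * 2 ^ q * 2 ^ l * (2 ^ w / 2 ^ P + 2 ^ w' / 2 ^ P')) ∨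
      (iu' = iN ∧ iN' = iu ∧ |1 - (y' ω).s * (y ω).s| ≤
        1600 * 2 ^ q * 2 ^ l * (2 ^ w / 2 ^ P + 2 ^ w' / 2 ^ P'))

theorem cmp_clp {S : PCl 3} {i₀ : Fin 3} {ρ : Row} (hR : Rw S i₀ 1 ρ) (v₁ : ℚ) (h0 : 0 ≤ v₁)
    (h1 : v₁ ≤ 1) {h C : ℝ} (hh : 0 < h) (hr : ρ.rot v₁ + h ≤ 1) (hC : 1 ≤ C) :
    Clp S (fun J F A => CmpP F A i₀ ⌊(ρ.rot v₁ + h) * J⌋₊ ⌊(v₁ : ℝ) * J⌋₊ C) := by
  obtain ⟨τ, hτ, J₁, hc⟩ := cmp_turn hR v₁ h0 h1 hh hr
  refine Clp.mono (J₂ := J₁) (sub_base (S := S) hτ hC) ?_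
  intro J hJ F A hA B₀ G hG hB₀ hP q lp hlp hpr e n hL iu iN iu' iN' w w' lam lam' P P' y y' hw hw'
    hy hy'
  exact hc J hJ F B₀ G hG (hA G (hG.trans hB₀) hP) q lp _ rfl hlp hpr e n hL iu iN iu' iN' w w'
    lam lam' P P' y y' hw hw' hy hy'

/-- The straightness is positive. -/
theorem pi_pos {S : PCl 3} {a R h₁ : ℝ} {i₀ : Fin 3} {c s₂ : ℝ} {r : ℝ → ℝ} {D : Set ℝ}
    {σ : ℝ → Row} (hC : Cs S a R h₁ i₀ c s₂ r D σ) : 0 < (σ 1).pi := by
  have hR1 := hC.row 1 one_pos le_rfl hC.D1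
  have h0 : 0 < min h₁ 1 := lt_min hC.h₁0 one_pos
  refine h0.trans_le (num_ge hC.ne hR1.pi (Clp.of one_pos 0 ?_))
  intro J _ F A hS
  refine Or.inr ⟨min_le_right _ _, ?_⟩
  obtain ⟨e, n, hfr⟩ := hC.lb _ _ _ _ hS
  unfold qPi
  rw [ptq_one F]
  refine ⟨e, n, hfr.onL.mono (inv_mono (Nat.floor_le_floor ?_))⟩
  exact mul_le_mul_of_nonneg_right (min_le_left _ _) (Nat.cast_nonneg J)

/-- **Spread fans with bounded slopes.** -/
theorem spr_clp {S : PCl 3} {a R h₁ : ℝ} {i₀ : Fin 3} {c s₂ : ℝ} {r : ℝ → ℝ} {D : Set ℝ}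
    {σ : ℝ → Row} (hC : Cs S a R h₁ i₀ c s₂ r D σ) {x g : ℝ} (hx0 : 0 < x) (hx1 : x ≤ h₁ / 4)
    (hx2 : x ≤ 1 / 4) (hxg : 4 * x ≤ g) (hg : g < (σ 1).pi) :
    Clp S (fun J F A => ∃ e n : (Fin 3 → ℤ) × (ℕ × F.ζ) → Fin 3 → ℝ,
      OnL i₀ (1 / 2 ^ ⌊g * J⌋₊) (Fam.pt F) F.d A e n ∧
      ∃ B₀ : F.Ω → Prop, Sub B₀ A ∧ Pe F.p A ≤ 2 * Pe F.p B₀ ∧ Spr F i₀ ⌈x * J⌉₊ B₀ ∧
        ∀ ω, B₀ ω → ∀ j, |e (Fam.pt F ω) j| ≤ 9 / 8) := by
  have hR1 := hC.row 1 one_pos le_rfl hC.D1
  obtain ⟨τ, hτ, J₁, hsp⟩ := spread_part hC.a1 hC.R0 hC.ub hC.st hC.lb hx0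
  obtain ⟨J₃, hJ₃⟩ := exists_nat_gt (64 / x)
  have c1 := hR1.pi.1 ((σ 1).pi - g) (by linarith only [hg])
  have c2 : Clp S (fun J F A => Lb F i₀ ⌊h₁ * J⌋₊ A ∧
      ∀ q : ℕ, q ≤ J → x * J ≤ q → q + 2 ≤ ⌊h₁ * J⌋₊ →
        ∃ B : F.Ω → Prop, Sub B A ∧ Real.exp (-Real.log 2) * Pe F.p A ≤ Pe F.p B ∧
        Spr F i₀ q B) :=
    Clp.base τ hτ J₁ fun J hJ F A hS => ⟨hC.lb _ _ _ _ hS, hsp J hJ F A hS⟩
  refine Clp.mono (J₂ := J₃) (c1.and c2) ?_
  rintro J hJ F A ⟨d1, ⟨eb, nb, hfr⟩, d3⟩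
  have hJr : 64 / x < J := hJ₃.trans_le (by exact_mod_cast hJ)
  have hJx : 64 < J * x := by rwa [div_lt_iff₀ hx0] at hJr
  have hJ0 : (0 : ℝ) ≤ J := Nat.cast_nonneg J
  rcases d1 with d1 | ⟨-, e, n, hL⟩
  · linarith only [hx0, hxg, d1]
  rw [ptq_one F, sub_sub_cancel] at hL
  obtain ⟨q, hq⟩ : ∃ q, q = ⌈x * J⌉₊ := ⟨_, rfl⟩
  have hq1 : x * J ≤ q := by rw [hq]; exact Nat.le_ceil _
  have hq2 : (q : ℝ) < x * J + 1 := by rw [hq]; exact Nat.ceil_lt_add_one (by positivity)
  have hqJ : q ≤ J := by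
    have e1 : x * J ≤ 1 / 4 * J := mul_le_mul_of_nonneg_right hx2 hJ0
    have : (q : ℝ) ≤ J := by linarith only [hx0, hx2, hJx, hq2, e1]
    exact_mod_cast this
  have hqh : q + 7 ≤ ⌊h₁ * J⌋₊ := by
    refine Nat.le_floor ?_
    push_cast
    have e1 : x * J ≤ h₁ / 4 * J := mul_le_mul_of_nonneg_right hx1 hJ0
    linarith only [hx0, hx2, hJx, hq2, e1]
  have hqg : q + 7 ≤ ⌊g * J⌋₊ := by
    refine Nat.le_floor ?_
    push_cast
    have e1 : 4 * x * J ≤ g * J := mul_le_mul_of_nonneg_right hxg hJ0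
    linarith only [hx0, hx2, hJx, hq2, e1]
  exact by
   obtain ⟨B, hB, hPB, hBs⟩ := d3 q hqJ hq1 (by omega)
   refine ⟨e, n, hL, B, hB, ?_, by rw [← hq]; exact hBs, ?_⟩
   · have e2 : Real.exp (-Real.log 2) = 1 / 2 := by
       rw [Real.exp_neg, Real.exp_log (by norm_num)]
       norm_num
     rw [e2] at hPB
     linarith only [hPB]
   · intro ω hω j
     obtain ⟨ω', ω'', b1, b2, b3, b4, b5⟩ := hBs ω hω
     have a1 := hfr.line ω' (hB _ b1) j
     have a2 := hfr.line ω'' (hB _ b2) j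
     have a3 := hL ω' (hB _ b1) j
     have a4 := hL ω'' (hB _ b2) j
     rw [b3] at a1 a3
     rw [b4] at a2 a4
     have hcl := frame_close (U := ℕ) (d := F.d) a1 a2 a3 a4 (by positivity) b5
     have hb := hfr.bound ω (hB _ hω) j
     have k1 : (1 : ℝ) / 2 ^ ⌊g * J⌋₊ ≤ 1 / 2 ^ (q + 7) := inv_mono hqg
     have k2 : (1 : ℝ) / 2 ^ ⌊h₁ * J⌋₊ ≤ 1 / 2 ^ (q + 7) := inv_mono hqh
     have t1 : (2 * (1 / 2 ^ ⌊h₁ * J⌋₊) + 2 * (1 / 2 ^ ⌊g * J⌋₊)) / (1 / 2 ^ (q + 1)) ≤
         (1 / 8 : ℝ) := by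
       rw [div_le_iff₀ (by positivity)]
       have : (1 : ℝ) / 2 ^ (q + 7) = 1 / 2 ^ (q + 1) / 64 := by
         rw [show q + 7 = q + 1 + 6 by ring, pow_add 2 (q + 1) 6]
         field_simp
         norm_num
       have h0 : (0 : ℝ) < 1 / 2 ^ (q + 1) := by positivity
       rw [this] at k1 k2
       linarith only [k1, k2, h0]
     have := abs_sub_abs_le_abs_sub (e (Fam.pt F ω) j) (eb (Fam.pt F ω) j)
     linarith only [hcl, hb, t1, this]

theorem pow_small {q l w P K : ℕ} (h : l + q + w + K ≤ P) :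
    (1600 : ℝ) * 2 ^ q * 2 ^ l * (2 ^ w / 2 ^ P) ≤ 1600 / 2 ^ K := by
  obtain ⟨m, rfl⟩ := Nat.exists_eq_add_of_le h
  have e1 : (1600 : ℝ) * 2 ^ q * 2 ^ l * (2 ^ w / 2 ^ (l + q + w + K + m)) =
      1600 / 2 ^ K / 2 ^ m := by
    simp only [pow_add]
    field_simp
  rw [e1]
  exact div_le_self (by positivity) (one_le_pow₀ (by norm_num))

theorem pow_small2 {q w P K : ℕ} (h : q + w + K ≤ P) :
    (8 : ℝ) * 2 ^ q * (2 ^ w / 2 ^ P) ≤ 8 / 2 ^ K := by
  obtain ⟨m, rfl⟩ := Nat.exists_eq_add_of_le h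
  have e1 : (8 : ℝ) * 2 ^ q * (2 ^ w / 2 ^ (q + w + K + m)) = 8 / 2 ^ K / 2 ^ m := by
    simp only [pow_add]
    field_simp
  rw [e1]
  exact div_le_self (by positivity) (one_le_pow₀ (by norm_num))

theorem pow_small1 {q lam K : ℕ} (h : q + K ≤ lam) :
    (2 : ℝ) ^ q * (1 / 2 ^ lam) ≤ 1 / 2 ^ K := by
  obtain ⟨m, rfl⟩ := Nat.exists_eq_add_of_le h
  have e1 : (2 : ℝ) ^ q * (1 / 2 ^ (q + K + m)) = 1 / 2 ^ K / 2 ^ m := by
    simp only [pow_add]
    field_simp
  rw [e1]
  exact div_le_self (by positivity) (one_le_pow₀ (by norm_num))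

theorem Pe_cases {Ω : Type} [Fintype Ω] (p : Ω → ℝ) (A N : Ω → Prop) :
    Pe p A = Pe p (fun ω => A ω ∧ N ω) + Pe p (fun ω => A ω ∧ ¬ N ω) := by
  classical
  rw [Pe_eq, Pe_eq, Pe_eq, ← Finset.sum_add_distrib]
  refine Finset.sum_congr rfl fun ω _ => ?_
  by_cases h1 : A ω <;> by_cases h2 : N ω <;> simp [h1, h2]

/-- The plank in the order of the target. -/
noncomputable def cnv (f : Prop) [Decidable f] (V : ℝ) (y : Pln) : Pln :=
  if f then y else flp (if 0 < V then -(y.c + y.s * y.e) else 0) y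

theorem floor_sum {a b J : ℝ} (ha : 0 ≤ a) (hb : 0 ≤ b) (hJ : 0 ≤ J) :
    ⌊a * J⌋₊ + ⌊b * J⌋₊ ≤ ⌊(a + b) * J⌋₊ := by
  refine Nat.le_floor ?_
  push_cast
  have h1 : (⌊a * J⌋₊ : ℝ) ≤ a * J := Nat.floor_le (by positivity)
  have h2 : (⌊b * J⌋₊ : ℝ) ≤ b * J := Nat.floor_le (by positivity)
  linarith

/-- Labels at the windows `w j` in one order of the coordinates. -/
def OrdP (i₀ : Fin 3) (N : ℕ) (w lam P : ℕ → ℕ) {J : ℕ} (F : Fam 3 J) (A : F.Ω → Prop) : Prop :=
  ∃ iu iN : Fin 3, (∀ j : Fin 3, j = i₀ ∨ j = iu ∨ j = iN) ∧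
    ∀ j ≤ N, LABq F J i₀ iu iN (w j) (lam j) (P j) 2 A

theorem OrdP.hered (i₀ : Fin 3) (N : ℕ) (w lam P : ℕ → ℕ) {J : ℕ} (F : Fam 3 J) :
    Hered (OrdP i₀ N w lam P F) := by
  rintro A B hB ⟨iu, iN, hi, h⟩
  exact ⟨iu, iN, hi, fun j hj => LABq.hered _ _ _ _ _ _ _ _ _ A B hB (h j hj)⟩

/-- **Labels in one order of the coordinates.** -/
theorem ord_clp {S : PCl 3} {a R h₁ : ℝ} {i₀ : Fin 3} {c s₂ : ℝ} {r : ℝ → ℝ} {D : Set ℝ}
    {σ : ℝ → Row} (hC : Cs S a R h₁ i₀ c s₂ r D σ) (N : ℕ) (u : ℕ → ℚ) (V T : ℕ → ℝ)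
    (hu : ∀ j < N, u (j + 1) ≤ u j) (hu0 : ∀ j ≤ N, 0 ≤ u j) (hu1 : ∀ j ≤ N, u j ≤ 1)
    (hV : ∀ j ≤ N, V j < (σ 1).rot (u j)) (hT : ∀ j ≤ N, T j < (σ 1).th (u j))
    (hVT : ∀ j ≤ N, u j + V j ≤ T j) (huT : ∀ j ≤ N, (u j : ℝ) < T j)
    (turn : ∀ j < N, (σ 1).rot (u j) < (σ 1).pi)
    (hR : ∀ j < N, (σ 1).rot (u j) < T j - u j ∧ (σ 1).rot (u j) < T (j + 1) - u (j + 1)) :
    Clp S (fun J F A => OrdP i₀ N (fun j => ⌊(u j : ℝ) * J⌋₊) (fun j => ⌊V j * J⌋₊)
      (fun j => ⌊T j * J⌋₊) F A) := by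
  classical
  have hR1 := hC.row 1 one_pos le_rfl hC.D1
  have hpi1 : (σ 1).pi ≤ 1 := num_le_cap hC.ne zero_le_one hR1.pi
  have hpi0 := pi_pos hC
  have hrot0 : ∀ j ≤ N, 0 ≤ (σ 1).rot (u j) := fun j hj =>
    num_nonneg hC.ne (hR1.rot (u j) (hu0 j hj) (hu1 j hj))
  have hth1 : ∀ j ≤ N, (σ 1).th (u j) ≤ 1 := fun j hj =>
    num_le_cap hC.ne zero_le_one (hR1.th (u j) (hu0 j hj) (hu1 j hj))
  have hu0r : ∀ j ≤ N, (0 : ℝ) ≤ u j := fun j hj => by exact_mod_cast hu0 j hj
  have hu1r : ∀ j ≤ N, (u j : ℝ) ≤ 1 := fun j hj => by exact_mod_cast hu1 j hj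
  -- the slack
  obtain ⟨η₁, hη₁, k1⟩ := min_pos N (fun j => T j - u j) fun j hj => by
    have := huT j hj
    linarith only [this]
  obtain ⟨η₂, hη₂, k2⟩ := min_pos N (fun j => if 0 < V j then V j else 1) fun j hj => by
    split_ifs with h
    · exact h
    · exact one_pos
  obtain ⟨η₃, hη₃, k3⟩ := min_pos N (fun j => if j < N then
      min ((σ 1).pi - (σ 1).rot (u j)) (min (T j - u j - (σ 1).rot (u j))
        (T (j + 1) - u (j + 1) - (σ 1).rot (u j))) else 1) fun j hj => by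
    split_ifs with h
    · have g1 := turn j h
      have g2 := hR j h
      exact lt_min (by linarith only [g1]) (lt_min (by linarith [g2.1]) (by linarith [g2.2]))
    · exact one_pos
  obtain ⟨η, hη⟩ : ∃ η, η = min (min η₁ η₂) (min η₃ (σ 1).pi) := ⟨_, rfl⟩
  have hη0 : 0 < η := by rw [hη]; exact lt_min (lt_min hη₁ hη₂) (lt_min hη₃ hpi0)
  have hηa : η ≤ η₁ := by rw [hη]; exact (min_le_left _ _).trans (min_le_left _ _)
  have hηb : η ≤ η₂ := by rw [hη]; exact (min_le_left _ _).trans (min_le_right _ _)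
  exact by
   have hηc : η ≤ η₃ := by rw [hη]; exact (min_le_right _ _).trans (min_le_left _ _)
   have hηd : η ≤ (σ 1).pi := by rw [hη]; exact (min_le_right _ _).trans (min_le_right _ _)
   have s1 : ∀ j ≤ N, η ≤ T j - u j := fun j hj => hηa.trans (k1 j hj)
   have s2 : ∀ j ≤ N, 0 < V j → η ≤ V j := fun j hj h => by
     have := hηb.trans (k2 j hj)
     rwa [if_pos h] at this
   have s3 : ∀ j < N, η ≤ (σ 1).pi - (σ 1).rot (u j) ∧ η ≤ T j - u j - (σ 1).rot (u j) ∧
       η ≤ T (j + 1) - u (j + 1) - (σ 1).rot (u j) := fun j hj => by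
     have h := hηc.trans (k3 j hj.le)
     rw [if_pos hj] at h
     exact ⟨h.trans (min_le_left _ _), h.trans ((min_le_right _ _).trans (min_le_left _ _)),
       h.trans ((min_le_right _ _).trans (min_le_right _ _))⟩
   obtain ⟨x, hx⟩ : ∃ x, x = min (η / 16) (min h₁ 1 / 4) := ⟨_, rfl⟩
   have hx0 : 0 < x := by
     rw [hx]
     have := lt_min hC.h₁0 one_pos
     exact lt_min (by linarith) (by linarith)
   have hxη : x ≤ η / 16 := by rw [hx]; exact min_le_left _ _
   have hx1 : x ≤ h₁ / 4 := by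
     rw [hx]
     refine (min_le_right _ _).trans ?_
     have := min_le_left h₁ 1
     linarith only [this]
   have hx2 : x ≤ 1 / 4 := by
     rw [hx]
     refine (min_le_right _ _).trans ?_
     have := min_le_right h₁ 1
     linarith only [this]
   obtain ⟨K, hK⟩ : ∃ K : ℕ, 16 * ((N : ℝ) + 1) * 3200 ≤ 2 ^ K := by
     obtain ⟨K, hK⟩ := pow_unbounded_of_one_lt (16 * ((N : ℝ) + 1) * 3200)
       (by norm_num : (1 : ℝ) < 2)
     exact ⟨K, hK.le⟩
   exact by
    obtain ⟨κc, hκc⟩ : ∃ κc : ℝ, κc = Real.exp (-(8 * (3 * Real.log 15 +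
        6 * Real.log (16 * 40 + 21)))) / 2 := ⟨_, rfl⟩
    have hκc0 : 0 < κc := by rw [hκc]; positivity
    have hκc1 : κc ≤ 1 := by
      rw [hκc]
      have : Real.exp (-(8 * (3 * Real.log 15 + 6 * Real.log (16 * 40 + 21)))) ≤ 1 := by
        rw [Real.exp_le_one_iff]
        have l15 : 0 < Real.log 15 := Real.log_pos (by norm_num)
        have lC : 0 < Real.log (16 * 40 + 21) := Real.log_pos (by norm_num)
        linarith only [l15, lC]
      exact (div_le_self (Real.exp_pos _).le (by norm_num)).trans this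
    obtain ⟨J₃, hJ₃⟩ := exists_nat_gt ((64 + 4 * K) / η)
    refine Clp.step ⟨1, fun J F _ => OrdP i₀ N (fun j => ⌊(u j : ℝ) * J⌋₊) (fun j => ⌊V j * J⌋₊)
        (fun j => ⌊T j * J⌋₊) F, fun J F _ => OrdP.hered _ _ _ _ _ _⟩ fun κ hκ => ?_
    obtain ⟨J₂, hJ₂⟩ := Pool.S6K.exp_small (κ := κ) (C := 4 * 2 ^ N * (1 / κc) ^ (N + 1)) hκ (by
      have h1 : (1 : ℝ) ≤ 2 ^ N := one_le_pow₀ (by norm_num)
      have h2 : (1 : ℝ) ≤ (1 / κc) ^ (N + 1) := one_le_pow₀ (by
        rw [le_div_iff₀ hκc0]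
        linarith only [hκc1])
      have h3 : (1 : ℝ) ≤ 4 * 2 ^ N := by linarith only [hpi1, hηd, hx0, hxη, h1]
      calc (1 : ℝ) = 1 * 1 := by norm_num
        _ ≤ _ := mul_le_mul h3 h2 zero_le_one (by positivity))
    have c1 : Clp S (fun J F A => ∀ j < N + 1, qGl i₀ 1 (u j) (V j) (T j) J F A) :=
      Clp.all (N + 1) fun j hj => by
        have hj' : j ≤ N := by omega
        have h0 := hu0r j hj'
        have h2 := huT j hj'
        exact glu hC le_rfl hR1 (u j) (hu0 j hj') (hu1 j hj') (hV j hj') (hT j hj') (hVT j hj')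
          (by linarith only [h0, h2]) ((hT j hj').le.trans (hth1 j hj'))
    have c2 : Clp S (fun J F A => ∀ j < N,
        CmpP F A i₀ ⌊((σ 1).rot (u j) + η / 4) * J⌋₊ ⌊(u j : ℝ) * J⌋₊ (2 * 2 ^ N)) :=
      Clp.all N fun j hj => by
        refine cmp_clp hR1 (u j) (hu0 j hj.le) (hu1 j hj.le) (by linarith only [hx0, hxη]) ?_ ?_
        · have := (s3 j hj).1
          linarith only [hpi1, hx0, hxη, this]
        · have : (1 : ℝ) ≤ 2 ^ N := one_le_pow₀ (by norm_num)
          linarith only [hpi1, hηd, hx0, hxη, this]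
    exact by
     have c3 := spr_clp hC hx0 hx1 hx2 (g := (σ 1).pi - η / 4) (by linarith only [hηd, hx0, hxη]) (by linarith only [hx0, hxη])
     have c4 : Clp S (fun J F A => 0 < Pe F.p A) := Clp.of one_pos 0 fun J _ F A hS =>
       lt_of_lt_of_le (Real.exp_pos _) (hC.st _ _ _ _ hS).2.2.2
     refine Clp.mono (J₂ := max J₂ J₃) (((c1.and c2).and c3).and c4) ?_
     rintro J hJ F A ⟨⟨⟨d1, d2⟩, e, n, hL, B₀, hB₀, hPB₀, hspr, heb⟩, hA⟩ hSb
     have hJr : (64 + 4 * K) / η < J :=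
       hJ₃.trans_le (by exact_mod_cast (le_max_right _ _).trans hJ)
     have hJη : 64 + 4 * K < J * η := by rwa [div_lt_iff₀ hη0] at hJr
     have hJ0 : (0 : ℝ) ≤ J := Nat.cast_nonneg J
     obtain ⟨q, hq⟩ : ∃ q, q = ⌈x * J⌉₊ := ⟨_, rfl⟩
     rw [← hq] at hspr
     have hq2 : (q : ℝ) < x * J + 1 := by rw [hq]; exact Nat.ceil_lt_add_one (by positivity)
     have hxJ : x * J ≤ η / 16 * J := mul_le_mul_of_nonneg_right hxη hJ0
     obtain ⟨w, hw⟩ : ∃ w : ℕ → ℕ, w = fun j => ⌊(u j : ℝ) * J⌋₊ := ⟨_, rfl⟩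
     obtain ⟨lam, hlam⟩ : ∃ lam : ℕ → ℕ, lam = fun j => ⌊V j * J⌋₊ := ⟨_, rfl⟩
     obtain ⟨P, hP⟩ : ∃ P : ℕ → ℕ, P = fun j => ⌊T j * J⌋₊ := ⟨_, rfl⟩
     obtain ⟨l, hl⟩ : ∃ l : ℕ → ℕ, l = fun j => ⌊((σ 1).rot (u j) + η / 4) * J⌋₊ := ⟨_, rfl⟩
     obtain ⟨lp, hlp⟩ : ∃ lp : ℕ, lp = ⌊((σ 1).pi - η / 4) * J⌋₊ := ⟨_, rfl⟩
     have ew : ∀ j, ⌊(u j : ℝ) * J⌋₊ = w j := fun j => by rw [hw]
     have elam : ∀ j, ⌊V j * J⌋₊ = lam j := fun j => by rw [hlam]
     have eP : ∀ j, ⌊T j * J⌋₊ = P j := fun j => by rw [hP]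
     have el : ∀ j, ⌊((σ 1).rot (u j) + η / 4) * J⌋₊ = l j := fun j => by rw [hl]
     rw [← hlp] at hL
     have fw : ∀ j ≤ N, (w j : ℝ) ≤ u j * J := fun j hj => by
       rw [← ew]
       have := hu0r j hj
       exact Nat.floor_le (by positivity)
     have fP : ∀ j, T j * J < P j + 1 := fun j => by rw [← eP]; exact Nat.lt_floor_add_one _
     have fl : ∀ j ≤ N, (l j : ℝ) ≤ ((σ 1).rot (u j) + η / 4) * J := fun j hj => by
       rw [← el]
       have := hrot0 j hj
       exact Nat.floor_le (by positivity)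
     exact by
      have flp' : ((σ 1).pi - η / 4) * J < lp + 1 := by rw [hlp]; exact Nat.lt_floor_add_one _
      have n1 : ∀ j < N, l j + q + 5 ≤ lp := fun j hj => by
        have m1 : η * J ≤ ((σ 1).pi - (σ 1).rot (u j)) * J :=
          mul_le_mul_of_nonneg_right (s3 j hj).1 hJ0
        have m2 := fl j hj.le
        have : ((l j + q + 5 : ℕ) : ℝ) < ((lp + 1 : ℕ) : ℝ) := by
          push_cast
          linarith only [hpi1, hηd, hx0, hxη, hJη, hq2, hxJ, flp', m1, m2]
        have : l j + q + 5 < lp + 1 := by exact_mod_cast this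
        omega
      have n1' : q + 10 ≤ lp := by
        have m1 : η * J ≤ (σ 1).pi * J := mul_le_mul_of_nonneg_right hηd hJ0
        have : ((q + 10 : ℕ) : ℝ) < ((lp + 1 : ℕ) : ℝ) := by
          push_cast
          linarith only [hpi1, hηd, hx0, hxη, hJη, hq2, hxJ, flp', m1]
        have : q + 10 < lp + 1 := by exact_mod_cast this
        omega
      have n2 : ∀ j < N, l j + q + w j + K ≤ P j := fun j hj => by
        have m1 : η * J ≤ (T j - u j - (σ 1).rot (u j)) * J :=
          mul_le_mul_of_nonneg_right (s3 j hj).2.1 hJ0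
        have m2 := fl j hj.le
        have m3 := fw j hj.le
        have m4 := fP j
        have : ((l j + q + w j + K : ℕ) : ℝ) < ((P j + 1 : ℕ) : ℝ) := by
          push_cast
          linarith only [hpi1, hηd, hx0, hxη, hJη, hq2, hxJ, m1, m2, m3, m4]
        have : l j + q + w j + K < P j + 1 := by exact_mod_cast this
        omega
      have n3 : ∀ j < N, l j + q + w (j + 1) + K ≤ P (j + 1) := fun j hj => by
        have m1 : η * J ≤ (T (j + 1) - u (j + 1) - (σ 1).rot (u j)) * J :=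
          mul_le_mul_of_nonneg_right (s3 j hj).2.2 hJ0
        have m2 := fl j hj.le
        have m3 := fw (j + 1) hj
        have m4 := fP (j + 1)
        have : ((l j + q + w (j + 1) + K : ℕ) : ℝ) < ((P (j + 1) + 1 : ℕ) : ℝ) := by
          push_cast
          linarith only [hpi1, hηd, hx0, hxη, hJη, hq2, hxJ, m1, m2, m3, m4]
        have : l j + q + w (j + 1) + K < P (j + 1) + 1 := by exact_mod_cast this
        omega
      exact by
       have n4 : ∀ j ≤ N, q + w j + 10 ≤ P j := fun j hj => by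
         have m1 : η * J ≤ (T j - u j) * J := mul_le_mul_of_nonneg_right (s1 j hj) hJ0
         have m3 := fw j hj
         have m4 := fP j
         have : ((q + w j + 10 : ℕ) : ℝ) < ((P j + 1 : ℕ) : ℝ) := by
           push_cast
           linarith only [hpi1, hηd, hx0, hxη, hJη, hq2, hxJ, m1, m3, m4]
         have : q + w j + 10 < P j + 1 := by exact_mod_cast this
         omega
       have n5 : ∀ j ≤ N, 0 < V j → q + 10 ≤ lam j := fun j hj h => by
         have m1 : η * J ≤ V j * J := mul_le_mul_of_nonneg_right (s2 j hj h) hJ0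
         have m4 : V j * J < lam j + 1 := by rw [← elam]; exact Nat.lt_floor_add_one _
         have : ((q + 10 : ℕ) : ℝ) < ((lam j + 1 : ℕ) : ℝ) := by
           push_cast
           linarith only [hpi1, hηd, hx0, hxη, hJη, hq2, hxJ, m1, m4]
         have : q + 10 < lam j + 1 := by exact_mod_cast this
         omega
       have n6 : ∀ j ≤ N, w j + lam j ≤ P j := fun j hj => by
         by_cases h : 0 < V j
         · rw [← ew, ← elam, ← eP]
           exact (floor_sum (hu0r j hj) h.le hJ0).trans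
             (Nat.floor_le_floor (mul_le_mul_of_nonneg_right (hVT j hj) hJ0))
         · have e0 : lam j = 0 := by
             rw [← elam]
             exact Nat.floor_of_nonpos (mul_nonpos_of_nonpos_of_nonneg (not_lt.1 h) hJ0)
           have := n4 j hj
           omega
       have n7 : ∀ j ≤ N, P j ≤ J := fun j hj => by
         rw [← eP]
         exact floor_row_one ((hT j hj).le.trans (hth1 j hj)) J
       exact by
        have n8 : ∀ j < N, w (j + 1) ≤ w j := fun j hj => by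
          rw [← ew, ← ew]
          exact Nat.floor_le_floor (mul_le_mul_of_nonneg_right (by exact_mod_cast hu j hj) hJ0)
        -- the labels
        have hQJ : ⌊(1 : ℝ) * J⌋₊ = J := by rw [one_mul, Nat.floor_natCast]
        have hlab : ∀ j, ∃ (iu iN : Fin 3) (y : F.Ω → Pln), j ≤ N →
            Lb3 F A i₀ iu iN (w j) (lam j) (P j) y := by
          intro j
          by_cases hj : j ≤ N
          · obtain ⟨iu, iN, hi, y, g1, g2, g3⟩ := d1 j (by omega)
            rw [ew, elam, eP] at g1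
            rw [hQJ] at g2
            rw [ew] at g3
            exact ⟨iu, iN, y, fun _ => ⟨hi, g1, g2, g3⟩⟩
          · exact ⟨0, 0, fun _ => default, fun h => absurd h hj⟩
        choose iu iN y hy using hlab
        -- the comparisons
        obtain ⟨G, hG, hPG, hcmp⟩ := seq_ev (K := 2) F.isLaw (B₀ := B₀) (by norm_num) N
          (fun j G => ∀ ω, G ω →
            (iu (j + 1) = iu j ∧ iN (j + 1) = iN j ∧ |(y (j + 1) ω).s - (y j ω).s| ≤
              1600 * 2 ^ q * 2 ^ l j * (2 ^ w j / 2 ^ P j + 2 ^ w (j + 1) / 2 ^ P (j + 1))) ∨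
            (iu (j + 1) = iN j ∧ iN (j + 1) = iu j ∧ |1 - (y (j + 1) ω).s * (y j ω).s| ≤
              1600 * 2 ^ q * 2 ^ l j * (2 ^ w j / 2 ^ P j + 2 ^ w (j + 1) / 2 ^ P (j + 1))))
          (fun j _ A' B' hs h ω hω => h ω (hs _ hω))
          (fun j hj G' hG' hP' => by
            have := d2 j hj B₀ G' hG' hB₀ (by
              rw [mul_assoc]
              exact hPB₀.trans (mul_le_mul_of_nonneg_left hP' (by norm_num))) q lp (by
                rw [el]
                exact n1 j hj) hspr e n (hL.sub hB₀) (iu j) (iN j) (iu (j + 1)) (iN (j + 1)) (w j)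
              (w (j + 1)) (lam j) (lam (j + 1)) (P j) (P (j + 1)) (y j) (y (j + 1)) (by rw [ew])
              (by rw [ew]; exact n8 j hj) ((hy j hj.le).sub hB₀) ((hy (j + 1) hj).sub hB₀)
            rw [el] at this
            exact this)
        exact by
         have hδ : ∀ j < N, (1600 : ℝ) * 2 ^ q * 2 ^ l j *
             (2 ^ w j / 2 ^ P j + 2 ^ w (j + 1) / 2 ^ P (j + 1)) ≤ 3200 / 2 ^ K := by
           intro j hj
           have a1 := pow_small (n2 j hj)
           have a2 := pow_small (n3 j hj)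
           have e1 : (1600 : ℝ) * 2 ^ q * 2 ^ l j *
               (2 ^ w j / 2 ^ P j + 2 ^ w (j + 1) / 2 ^ P (j + 1)) =
               1600 * 2 ^ q * 2 ^ l j * (2 ^ w j / 2 ^ P j) +
               1600 * 2 ^ q * 2 ^ l j * (2 ^ w (j + 1) / 2 ^ P (j + 1)) := by ring
           have e2 : (3200 : ℝ) / 2 ^ K = 1600 / 2 ^ K + 1600 / 2 ^ K := by ring
           rw [e1, e2]
           exact add_le_add a1 a2
         have hδN : 16 * ((N : ℝ) + 1) * (3200 / 2 ^ K) ≤ 1 := by
           rw [mul_div_assoc', div_le_one (by positivity)]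
           exact hK
         -- the target
         obtain ⟨G₁, tu, tN, hti, hG₁, hPG₁, hbase⟩ : ∃ (G₁ : F.Ω → Prop) (tu tN : Fin 3),
             (∀ j : Fin 3, j = i₀ ∨ j = tu ∨ j = tN) ∧ Sub G₁ G ∧ Pe F.p G ≤ 2 * Pe F.p G₁ ∧
             ∀ ω, G₁ ω → (iu 0 = tu → |(y 0 ω).s| ≤ 1) ∧ (¬ iu 0 = tu → 1 ≤ |(y 0 ω).s|) := by
           have hi := (hy 0 (Nat.zero_le _)).hi
           obtain ⟨t1, t2, t3⟩ := three hi
           have hc := Pe_cases F.p G (fun ω => |(y 0 ω).s| ≤ 1)
           by_cases h : Pe F.p G ≤ 2 * Pe F.p (fun ω => G ω ∧ |(y 0 ω).s| ≤ 1)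
           · exact ⟨_, iu 0, iN 0, hi, fun ω hω => hω.1, h, fun ω hω =>
               ⟨fun _ => hω.2, fun h => absurd rfl h⟩⟩
           · refine ⟨fun ω => G ω ∧ ¬ |(y 0 ω).s| ≤ 1, iN 0, iu 0, fun j => ?_, fun ω hω => hω.1, ?_,
               fun ω hω => ⟨fun h => absurd h.symm t3, fun _ => (not_le.1 hω.2).le⟩⟩
             · rcases hi j with h | h | h
               · exact Or.inl h
               · exact Or.inr (Or.inr h)
               · exact Or.inr (Or.inl h)
             · push Not at h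
               linarith only [hc, h]
         -- the orders
         exact by
          have hord : ∀ j ≤ N, (iu j = tu ∧ iN j = tN) ∨ (iu j = tN ∧ iN j = tu) := fun j hj =>
            ord_cases hti (hy j hj).hi
          obtain ⟨t1, t2, t3⟩ := three hti
          have hchain : ∀ ω, G₁ ω → ∀ j ≤ N, (iu j = tu → |(y j ω).s| ≤ 2) ∧
              (¬ iu j = tu → 1 / 2 ≤ |(y j ω).s|) := by
            intro ω hω
            refine flip_chain (s := fun j => (y j ω).s) (f := fun j => iu j = tu) (δ := 3200 / 2 ^ K)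
              (by positivity) hδN (hbase ω hω) ?_
            intro j hj
            have hc := hcmp j hj ω (hG₁ _ hω)
            have hd := hδ j hj
            constructor
            · intro hiff
              rcases hc with ⟨-, -, h⟩ | ⟨h1, h2, -⟩
              · exact h.trans hd
              · exfalso
                rcases hord j hj.le with ⟨o1, o2⟩ | ⟨o1, o2⟩
                · have h3 := hiff.1 o1
                  rw [h1, o2] at h3
                  exact t3 h3
                · have h3 := hiff.2 (by rw [h1, o2])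
                  rw [o1] at h3
                  exact t3 h3
            · intro hiff
              rcases hc with ⟨h1, h2, -⟩ | ⟨-, -, h⟩
              · exact absurd (by rw [h1]) hiff
              · exact h.trans hd
          have hPG₁' : Pe F.p A ≤ 4 * 2 ^ N * Pe F.p G₁ := by
            have h2 : (0 : ℝ) < 2 ^ N := by positivity
            calc Pe F.p A ≤ 2 * Pe F.p B₀ := hPB₀
              _ ≤ 2 * (2 ^ N * Pe F.p G) := mul_le_mul_of_nonneg_left hPG (by norm_num)
              _ ≤ 2 * (2 ^ N * (2 * Pe F.p G₁)) :=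
                  mul_le_mul_of_nonneg_left (mul_le_mul_of_nonneg_left hPG₁ h2.le) (by norm_num)
              _ = _ := by ring
          exact by
           have hG₁0 : 0 < Pe F.p G₁ := by
             by_contra hcon
             have h3 : Pe F.p G₁ ≤ 0 := not_lt.1 hcon
             have h2 : (0 : ℝ) < 4 * 2 ^ N := by positivity
             have : 4 * 2 ^ N * Pe F.p G₁ ≤ 0 := mul_nonpos_of_nonneg_of_nonpos h2.le h3
             linarith only [hA, hPG₁', this]
           -- the planks in the order of the target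
           have hinc : ∀ j ≤ N, ∀ ω, G₁ ω → Inc i₀ tu tN (w j) (lam j) (P j) 40
               (cnv (iu j = tu) (V j) (y j ω)) (F.t ω) (F.x ω) (F.d ω) := by
             intro j hj ω hω
             have hB := hG _ (hG₁ _ hω)
             have hI := (hy j hj).inc ω (hB₀ _ hB)
             unfold cnv
             by_cases h : iu j = tu
             · rw [if_pos h]
               have h' : iN j = tN := by
                 rcases hord j hj with ⟨o1, o2⟩ | ⟨o1, o2⟩
                 · exact o2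
                 · rw [h] at o1
                   exact absurd o1.symm t3
               rw [h, h'] at hI
               exact inc_C (by norm_num) hI
             · rw [if_neg h]
               have h' : iu j = tN ∧ iN j = tu := by
                 rcases hord j hj with ⟨o1, o2⟩ | ho
                 · exact absurd o1 h
                 · exact ho
               have hs2 := (hchain ω hω j hj).2 h
               obtain ⟨m1, m2⟩ := ((hy j hj).sub hB₀).near hspr (hL.sub hB₀) hB
               rw [h'.1, h'.2] at hI m2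
               rw [h'.1] at m1
               have b1 := heb ω hB tu
               have b2 := heb ω hB tN
               have r1 : (8 : ℝ) * 2 ^ q * (2 ^ w j / 2 ^ P j) ≤ 8 / 2 ^ 10 := pow_small2 (n4 j hj)
               have r2 : (2 : ℝ) ^ q * (1 / 2 ^ lp) ≤ 1 / 2 ^ 10 := pow_small1 n1'
               have r3 : (20 : ℝ) * 2 ^ q * (1 / 2 ^ lp) ≤ 20 * (1 / 2 ^ 10) := by
                 rw [mul_assoc]
                 exact mul_le_mul_of_nonneg_left r2 (by norm_num)
               have r4 : (4 : ℝ) * 2 ^ q * (1 / 2 ^ lp) ≤ 4 * (1 / 2 ^ 10) := by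
                 rw [mul_assoc]
                 exact mul_le_mul_of_nonneg_left r2 (by norm_num)
               have m2' : |(y j ω).c + (y j ω).s * e (Fam.pt F ω) tN + e (Fam.pt F ω) tu| ≤ 1 / 16 := by
                 refine m2.trans ?_
                 norm_num at r1 r3 ⊢
                 linarith only [hpi1, hηd, hx0, hxη, r1, r3]
               have hc4 : ∀ e' : ℝ, |(flp e' (y j ω)).c| ≤ 4 := fun e' =>
                 flp_c m2' hs2 b1 b2 (by norm_num)
               by_cases hV0 : 0 < V j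
               · rw [if_pos hV0]
                 have r5 : (2 : ℝ) ^ q * (1 / 2 ^ lam j) ≤ 1 / 2 ^ 10 := pow_small1 (n5 j hj hV0)
                 have m1' : |(y j ω).e - e (Fam.pt F ω) tN| ≤ 1 / 16 := by
                   refine m1.trans ?_
                   have r6 : (8 : ℝ) * 2 ^ q * (1 / 2 ^ lam j) ≤ 8 * (1 / 2 ^ 10) := by
                     rw [mul_assoc]
                     exact mul_le_mul_of_nonneg_left r5 (by norm_num)
                   norm_num at r4 r6 ⊢
                   linarith only [hpi1, hηd, hx0, hxη, r4, r6]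
                 have m3 := flp_near m1' m2' hI.s_le
                 refine inc_flp hI hs2 ?_ (hc4 _) (n6 j hj) ?_
                 · have := abs_sub_abs_le_abs_sub (-((y j ω).c + (y j ω).s * (y j ω).e))
                     (e (Fam.pt F ω) tu)
                   linarith only [hpi1, hηd, hx0, hxη, b1, m3, this]
                 · rw [neg_add_cancel, abs_zero]
                   positivity
               · rw [if_neg hV0]
                 have e0 : lam j = 0 := by
                   rw [← elam]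
                   exact Nat.floor_of_nonpos (mul_nonpos_of_nonpos_of_nonneg (not_lt.1 hV0) hJ0)
                 refine inc_flp hI hs2 (by rw [abs_zero]; norm_num) (hc4 _) (n6 j hj) ?_
                 rw [e0, pow_zero, div_one, zero_add]
                 have a1 := abs_add_le (y j ω).c ((y j ω).s * (y j ω).e)
                 have a2 : |(y j ω).s * (y j ω).e| ≤ 4 * 2 := by
                   rw [abs_mul]
                   exact mul_le_mul hI.s_le hI.e_le (abs_nonneg _) (by norm_num)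
                 have a3 := hI.c_le
                 linarith only [hpi1, hηd, hx0, hxη, a1, a2, a3]
           -- production
           exact by
            obtain ⟨G₂, hG₂, hPG₂, hlab2⟩ := seq_ev (K := 1 / κc) F.isLaw (B₀ := G₁) (by
                rw [le_div_iff₀ hκc0]
                linarith only [hκc1]) (N + 1)
              (fun j G => LABq F J i₀ tu tN (w j) (lam j) (P j) 2 G)
              (fun j _ A' B' hs h => LABq.hered _ _ _ _ _ _ _ _ _ A' B' hs h)
              (fun j hj G' hG' hP' => by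
                have hj' : j ≤ N := by omega
                have hG'0 : 0 < Pe F.p G' := by
                  by_contra hcon
                  have h3 : Pe F.p G' ≤ 0 := not_lt.1 hcon
                  have h2 : (0 : ℝ) < (1 / κc) ^ (N + 1) := by positivity
                  have : (1 / κc) ^ (N + 1) * Pe F.p G' ≤ 0 := mul_nonpos_of_nonneg_of_nonpos h2.le h3
                  linarith only [hG₁0, hP', this]
                obtain ⟨φ, hφ⟩ := (hy j hj').yp
                obtain ⟨ψ, hψ⟩ := (hy j hj').ys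
                have hGA : ∀ ω, G' ω → A ω := fun ω hω => hB₀ _ (hG _ (hG₁ _ (hG' _ hω)))
                obtain ⟨B, g1, g2, g3⟩ := lab_prod F le_rfl hti (v := w j) (W := w j) (lam := lam j)
                  (P := P j) (l2 := lam j) (sg := P j) (ag := P j) (P2 := P j) (C := 40) (by norm_num) hG'0
                  (y := fun ω => cnv (iu j = tu) (V j) (y j ω)) (fun ω hω => hinc j hj' ω (hG' _ hω))
                  (φ := fun u => cnv (iu j = tu) (V j) (φ u)) (fun ω hω => by
                    beta_reduce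
                    rw [hφ ω (hGA ω hω)])
                  (ζ := fun u => cnv (iu j = tu) (V j) (ψ u)) (fun ω hω => by
                    beta_reduce
                    rw [← hψ ω (hGA ω hω)]
                    refine ⟨?_, ?_, ?_⟩
                    · rw [sub_self, abs_zero]
                      positivity
                    · rw [sub_self, abs_zero]
                      positivity
                    · unfold Ae
                      simp only [sub_self, zero_mul, add_zero, abs_zero]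
                      positivity) le_rfl (by
                    have := n6 j hj'
                    have := n7 j hj'
                    omega) (by omega) (by omega) le_rfl (n7 j hj')
                refine ⟨B, g1, ?_, g3⟩
                rw [← hκc] at g2
                rw [div_mul_eq_mul_div, le_div_iff₀ hκc0]
                linarith only [g2])
            exact by
             have hfin : Pe F.p A ≤ 4 * 2 ^ N * (1 / κc) ^ (N + 1) * Pe F.p G₂ := by
               calc Pe F.p A ≤ 4 * 2 ^ N * Pe F.p G₁ := hPG₁'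
                 _ ≤ 4 * 2 ^ N * ((1 / κc) ^ (N + 1) * Pe F.p G₂) :=
                     mul_le_mul_of_nonneg_left hPG₂ (by positivity)
                 _ = _ := by ring
             refine Pool.S6K.stb_part (hSb 0) (((hG₂.trans hG₁).trans hG).trans hB₀) (by positivity) hfin
               (hJ₂ J ((le_max_left _ _).trans hJ)) (Pe_nonneg F.isLaw A) ⟨tu, tN, hti, fun j hj => ?_⟩
             beta_reduce
             rw [ew, elam, eP]
             exact hlab2 j (by omega)

end Pool.S6F
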