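import Pool.Agent.H62.S6.Adm
import Pool.Agent.H88.S6F.Frm
import Pool.Agent.H97.S6.Rnd
import Pool.Agent.H80.KS6.Start

/-!
# The frames of the falling case, one family
-/

set_option autoImplicit false

namespace Pool.S6F

open Finset Real
open Pool.Agent.H49.Ent Pool.Agent.H32.Dense Pool.STK Pool.KA Pool.KSAT Pool.K2S Pool.PB Pool.KS6
  Pool.S6C Pool.FALL Pool.S6N

/-- The coefficient of the normal form of the plank `y` with the slope `s` in place of its own. -/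
noncomputable def tau (y : Pln) (s : ℝ) : ℝ := -(y.c + (y.s - s) * y.e)

section near

variable {J : ℕ} {F : Fam 3 J} {A : F.Ω → Prop} {i₀ iu iN : Fin 3} {M Pu' : ℕ}
  {w V T H : ℕ → ℕ} {e n : (Fin 3 → ℤ) × (ℕ × F.ζ) → Fin 3 → ℝ} {z : ℕ → F.Ω → Pln}

theorem tau_near (h : NLc F A i₀ iu iN M Pu' w V T H e n z) {j : ℕ} (hj : j ≤ M) {Q K : ℕ}
    (hK : (M : ℝ) ≤ 2 ^ K) (h1 : w j + Q + 2 ≤ T j)
    (h2 : ∀ b, j ≤ b → b < M → Q + K + 4 ≤ H b + V j) {ω : F.Ω} (hω : A ω) :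
    |tau (z j ω) (z M ω).s - (e (Fam.pt F ω) iN + (z M ω).s * e (Fam.pt F ω) iu)| ≤
      1 / 2 / 2 ^ Q := by
  obtain ⟨x, hx⟩ : ∃ x, x = e (Fam.pt F ω) iu := ⟨_, rfl⟩
  obtain ⟨x', hx'⟩ : ∃ x, x = e (Fam.pt F ω) iN := ⟨_, rfl⟩
  have k1 := h.zc j hj ω hω
  have k2 := h.ze j hj ω hω
  have k3 := h.s_near hj le_rfl (M := Q + K + 4 - V j)
    (fun b hb hb' => by
      have := h2 b hb hb'
      omega) hω
  rw [← hx, ← hx'] at k1 ⊢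
  rw [← hx] at k2
  have e1 : tau (z j ω) (z M ω).s - (x' + (z M ω).s * x) =
      -((z j ω).c + (z j ω).s * x + x') + ((z M ω).s - (z j ω).s) * ((z j ω).e - x) := by
    unfold tau
    ring
  rw [e1]
  refine (abs_add_le _ _).trans ?_
  rw [abs_neg, abs_mul]
  have a1 : (2 : ℝ) ^ w j / 2 ^ T j ≤ 1 / 4 / 2 ^ Q := by
    rw [div_le_div_iff₀ (by positivity) (by positivity)]
    have : (2 : ℝ) ^ (w j + Q + 2) ≤ 2 ^ T j := pow_le_pow_right₀ (by norm_num) h1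
    calc (2 : ℝ) ^ w j * 2 ^ Q = 1 / 4 * 2 ^ (w j + Q + 2) := by
          rw [pow_add, pow_add]
          ring
      _ ≤ 1 / 4 * 2 ^ T j := mul_le_mul_of_nonneg_left this (by norm_num)
  have a2 : |(z M ω).s - (z j ω).s| * |(z j ω).e - x| ≤ 1 / 4 / 2 ^ Q := by
    calc |(z M ω).s - (z j ω).s| * |(z j ω).e - x| ≤
          ((M - j : ℕ) : ℝ) / 2 ^ (Q + K + 4 - V j) * (4 / 2 ^ V j) :=
          mul_le_mul k3 k2 (abs_nonneg _) (by positivity)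
      _ ≤ 2 ^ K / 2 ^ (Q + K + 4 - V j) * (4 / 2 ^ V j) := by
          refine mul_le_mul_of_nonneg_right (div_le_div_of_nonneg_right ?_ (by positivity))
            (by positivity)
          refine le_trans ?_ hK
          exact_mod_cast Nat.sub_le M j
      _ = 4 * 2 ^ K / 2 ^ (Q + K + 4 - V j + V j) := by
          rw [pow_add]
          field_simp
      _ ≤ 4 * 2 ^ K / 2 ^ (Q + K + 4) := by
          refine div_le_div_of_nonneg_left (by positivity) (by positivity)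
            (pow_le_pow_right₀ (by norm_num) (by omega))
      _ = 1 / 4 / 2 ^ Q := by
          rw [pow_add, pow_add]
          field_simp
          norm_num
  have e2 : (1 : ℝ) / 2 / 2 ^ Q = 1 / 4 / 2 ^ Q + 1 / 4 / 2 ^ Q := by ring
  rw [e2]
  exact add_le_add (k1.trans a1) a2

theorem e_small (h : NLc F A i₀ iu iN M Pu' w V T H e n z) {j : ℕ} (hj : j ≤ M) {Q : ℕ}
    (h1 : Q + 3 ≤ V j) {ω : F.Ω} (hω : A ω) : |(z j ω).e - e (Fam.pt F ω) iu| ≤ 1 / 2 / 2 ^ Q := by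
  refine (h.ze j hj ω hω).trans ?_
  rw [div_le_div_iff₀ (by positivity) (by positivity)]
  have : (2 : ℝ) ^ (Q + 3) ≤ 2 ^ V j := pow_le_pow_right₀ (by norm_num) h1
  calc (4 : ℝ) * 2 ^ Q = 1 / 2 * 2 ^ (Q + 3) := by
        rw [pow_add]
        ring
    _ ≤ 1 / 2 * 2 ^ V j := mul_le_mul_of_nonneg_left this (by norm_num)

theorem bij_of {i₀ iu iN : Fin 3} (hi : ∀ j : Fin 3, j = i₀ ∨ j = iu ∨ j = iN) :
    Function.Bijective ![i₀, iu, iN] := by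
  rw [← Finite.surjective_iff_bijective]
  intro j
  rcases hi j with h | h | h
  · exact ⟨0, h.symm⟩
  · exact ⟨1, h.symm⟩
  · exact ⟨2, h.symm⟩

theorem pow_dec {x : ℝ} {m n : ℕ} (hx : 0 ≤ x) (h : m ≤ n) : x / (2 : ℝ) ^ n ≤ x / 2 ^ m :=
  div_le_div_of_nonneg_left hx (by positivity) (pow_le_pow_right₀ (by norm_num) h)

/-- **The frames of the falling case**, one family. -/
theorem ffr_of (h : NLc F A i₀ iu iN M Pu' w V T H e n z) {PN' : ℕ}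
    (hb : SnG F A i₀ iu iN PN' e (z M)) {N w₀ Δ r V₀ Hn X Va Rt Pu PN K : ℕ} (m : ℕ → ℕ)
    (hm : ∀ i ≤ N, m i ≤ M) (hwm : ∀ i ≤ N, w (m i) ≤ fw w₀ Δ i) (hwM : ∀ i ≤ N, w M ≤ fw w₀ Δ i)
    (hwJ : ∀ i ≤ N, fw w₀ Δ i ≤ J) (hK : (M : ℝ) ≤ 2 ^ K)
    (hV : ∀ i ≤ N, fv V₀ r i + 3 ≤ V (m i)) (hV0 : fv V₀ r N + 3 ≤ V 0)
    (hT : ∀ i ≤ N, w (m i) + (fv V₀ r i + Hn) + 2 ≤ T (m i))
    (hT0 : w 0 + (fv V₀ r N + Hn + X) + 2 ≤ T 0) (hTM : w M + (Hn + X) + 2 ≤ T M)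
    (hH : ∀ i ≤ N, ∀ b, m i ≤ b → b < M → fv V₀ r i + Hn + K + 4 ≤ H b + V (m i))
    (hH0 : ∀ b, 0 ≤ b → b < M → fv V₀ r N + Hn + X + K + 4 ≤ H b + V 0)
    (hVa : fv V₀ r N ≤ Va) (hVa2 : 2 ≤ Va) (hRt : fv V₀ r N + Hn + X ≤ Rt)
    (hv2 : 2 ≤ fv V₀ r N)
    (hPu : Pu ≤ Pu') (hPN : PN ≤ PN') :
    ∃ bb : F.Ω → ℝ, FFr F A ![i₀, iu, iN] N w₀ Δ r V₀ Hn X Va Rt Pu PN
      (fun i ω => rd (fv V₀ r i) (z (m i) ω).e)
      (fun i ω => rd (fv V₀ r i + Hn) (tau (z (m i) ω) (z M ω).s))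
      (fun ω => -(z M ω).s) (fun ω => rd Va (z 0 ω).e) (fun ω => rd Rt (tau (z 0 ω) (z M ω).s))
      (fun ω => e (Fam.pt F ω) iu) (fun ω => n (Fam.pt F ω) iu)
      (fun ω => e (Fam.pt F ω) iN + (z M ω).s * e (Fam.pt F ω) iu) bb := by
  obtain ⟨b, hb⟩ := hb
  have fvN : ∀ i ≤ N, fv V₀ r i ≤ fv V₀ r N := fun i hi => by
    unfold fv
    have := Nat.mul_le_mul_right r hi
    omega
  have t0 : ∀ ω, A ω → |tau (z 0 ω) (z M ω).s -
      (e (Fam.pt F ω) iN + (z M ω).s * e (Fam.pt F ω) iu)| ≤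
      1 / 2 / 2 ^ (fv V₀ r N + Hn + X) := fun ω hω =>
    tau_near h (Nat.zero_le M) hK hT0 hH0 hω
  have ti : ∀ i ≤ N, ∀ ω, A ω → |tau (z (m i) ω) (z M ω).s -
      (e (Fam.pt F ω) iN + (z M ω).s * e (Fam.pt F ω) iu)| ≤
      1 / 2 / 2 ^ (fv V₀ r i + Hn) := fun i hi ω hω =>
    tau_near h (hm i hi) hK (hT i hi) (hH i hi) hω
  have ps : ∀ j ≤ M, ∀ ω ω', A ω → A ω' → Fam.pt F ω = Fam.pt F ω' → z j ω = z j ω' := by
    intro j hj ω ω' hω hω' hp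
    obtain ⟨φ, hφ⟩ := h.zp j hj
    rw [hφ ω hω, hφ ω' hω']
    exact congrArg φ hp
  have sl : ∀ j ≤ M, ∀ i ≤ N, w j ≤ fw w₀ Δ i → ∀ ω ω',
      slam F (fw w₀ Δ i) ω = slam F (fw w₀ Δ i) ω' → z j ω = z j ω' := by
    intro j hj i hi hw ω ω' hs
    obtain ⟨ψ, hψ⟩ := h.zs j hj
    rw [hψ ω, hψ ω', Pool.S6K.slam_mono hw (hwJ i hi) hs]
  refine ⟨fun ω => b (Fam.pt F ω), bij_of h.hi, fun i hi ω ω' hs => ?_, fun i _ ω => rd_grid _ _,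
    fun i _ ω => rd_grid _ _, fun i hi ω hω => ?_, fun i hi ω hω => ?_, hVa, hRt,
    fun ω => rd_grid _ _, fun ω => rd_grid _ _, fun ω hω => ?_, fun ω ω' hω hω' hp => ?_,
    fun ω hω => ?_, fun ω hω => ?_, fun ω hω => ?_, fun ω hω => ?_⟩
  · have e1 := sl (m i) (hm i hi) i hi (hwm i hi) ω ω' hs
    have e2 := sl M le_rfl i hi (hwM i hi) ω ω' hs
    beta_reduce
    rw [e1, e2]
    exact ⟨rfl, rfl, rfl⟩
  · have h1 := rd_near Va (z 0 ω).e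
    have h2 := rd_near (fv V₀ r i) (z (m i) ω).e
    have h3 := e_small h (Nat.zero_le M) hV0 hω
    have h4 := e_small h (hm i hi) (hV i hi) hω
    have h5 : (1 : ℝ) / 2 ^ Va ≤ 1 / 2 ^ fv V₀ r i := pow_dec zero_le_one ((fvN i hi).trans hVa)
    have h6 : (1 : ℝ) / 2 / 2 ^ fv V₀ r N ≤ 1 / 2 / 2 ^ fv V₀ r i :=
      pow_dec (by norm_num) (fvN i hi)
    beta_reduce
    have e1 : (4 : ℝ) / 2 ^ fv V₀ r i = 1 / 2 ^ fv V₀ r i + 1 / 2 ^ fv V₀ r i +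
      1 / 2 / 2 ^ fv V₀ r i + 1 / 2 / 2 ^ fv V₀ r i + 1 / 2 ^ fv V₀ r i := by ring
    have e2 : (0 : ℝ) < 1 / 2 ^ fv V₀ r i := by positivity
    rw [e1]
    rw [abs_le] at h1 h2 h3 h4 ⊢
    constructor <;> linarith only [h1.1, h1.2, h2.1, h2.2, h3.1, h3.2, h4.1, h4.2, h5, h6, e2]
  · have h1 := rd_near Rt (tau (z 0 ω) (z M ω).s)
    have h2 := rd_near (fv V₀ r i + Hn) (tau (z (m i) ω) (z M ω).s)
    have h3 := t0 ω hω
    have h4 := ti i hi ω hω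
    have h5 : (1 : ℝ) / 2 ^ Rt ≤ 1 / 2 ^ (fv V₀ r i + Hn) :=
      pow_dec zero_le_one (by have := fvN i hi; omega)
    have h6 : (1 : ℝ) / 2 / 2 ^ (fv V₀ r N + Hn + X) ≤ 1 / 2 / 2 ^ (fv V₀ r i + Hn) :=
      pow_dec (by norm_num) (by have := fvN i hi; omega)
    beta_reduce
    have e1 : (4 : ℝ) / 2 ^ (fv V₀ r i + Hn) = 1 / 2 ^ (fv V₀ r i + Hn) +
      1 / 2 ^ (fv V₀ r i + Hn) + 1 / 2 / 2 ^ (fv V₀ r i + Hn) + 1 / 2 / 2 ^ (fv V₀ r i + Hn) +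
      1 / 2 ^ (fv V₀ r i + Hn) := by ring
    have e2 : (0 : ℝ) < 1 / 2 ^ (fv V₀ r i + Hn) := by positivity
    rw [e1]
    rw [abs_le] at h1 h2 h3 h4 ⊢
    constructor <;> linarith only [h1.1, h1.2, h2.1, h2.2, h3.1, h3.2, h4.1, h4.2, h5, h6, e2]
  · have g1 := h.eb ω hω iu
    have h1 := rd_near Va (z 0 ω).e
    have h3 := e_small h (Nat.zero_le M) hV0 hω
    have h5 : (1 : ℝ) / 2 ^ Va ≤ 1 / 2 ^ 2 := pow_dec zero_le_one hVa2
    have h6 : (1 : ℝ) / 2 / 2 ^ fv V₀ r N ≤ 1 / 2 / 2 ^ 2 := pow_dec (by norm_num) hv2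
    have I := h.inc M le_rfl ω hω
    refine ⟨?_, ?_, ?_⟩
    · beta_reduce
      have h7 : (1 : ℝ) / 2 ^ 2 = 1 / 4 := by norm_num
      have h8 : (1 : ℝ) / 2 / 2 ^ 2 = 1 / 8 := by norm_num
      rw [h7] at h5
      rw [h8] at h6
      rw [abs_le] at h1 h3 g1 ⊢
      constructor <;> linarith only [h1.1, h1.2, h3.1, h3.2, g1.1, g1.2, h5, h6]
    · rw [abs_neg]
      exact I.s_le
    · have k1 := rd_near Rt (tau (z 0 ω) (z M ω).s)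
      have k2 := t0 ω hω
      have k3 := h.zc M le_rfl ω hω
      have k4 := I.c_le
      have k5 : (1 : ℝ) / 2 ^ Rt ≤ 1 / 4 / 2 ^ (Hn + X) := by
        have e1 : (1 : ℝ) / 4 / 2 ^ (Hn + X) = 1 / 2 ^ (Hn + X + 2) := by
          rw [pow_add _ _ 2]
          field_simp
          norm_num
        rw [e1]
        exact pow_dec zero_le_one (by omega)
      have k6 : (1 : ℝ) / 2 / 2 ^ (fv V₀ r N + Hn + X) ≤ 1 / 4 / 2 ^ (Hn + X) := by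
        have e1 : (1 : ℝ) / 4 / 2 ^ (Hn + X) = 1 / 2 / 2 ^ (Hn + X + 1) := by
          rw [pow_succ _ (Hn + X)]
          field_simp
          norm_num
        rw [e1]
        exact pow_dec (by norm_num) (by omega)
      have k7 : (2 : ℝ) ^ w M / 2 ^ T M ≤ 1 / 4 / 2 ^ (Hn + X) := by
        rw [div_le_div_iff₀ (by positivity) (by positivity)]
        have : (2 : ℝ) ^ (w M + (Hn + X) + 2) ≤ 2 ^ T M := pow_le_pow_right₀ (by norm_num) hTM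
        calc (2 : ℝ) ^ w M * 2 ^ (Hn + X) = 1 / 4 * 2 ^ (w M + (Hn + X) + 2) := by
              rw [pow_add (2 : ℝ) (w M + (Hn + X)) 2, pow_add (2 : ℝ) (w M) (Hn + X)]
              ring
          _ ≤ 1 / 4 * 2 ^ T M := mul_le_mul_of_nonneg_left this (by norm_num)
      have e9 : (1 : ℝ) / 2 ^ (Hn + X) = 1 / 4 / 2 ^ (Hn + X) + 1 / 4 / 2 ^ (Hn + X) +
        1 / 4 / 2 ^ (Hn + X) + 1 / 4 / 2 ^ (Hn + X) := by ring
      have e8 : (0 : ℝ) < 1 / 4 / 2 ^ (Hn + X) := by positivity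
      beta_reduce
      rw [e9]
      rw [abs_le] at k1 k2 k3 k4 ⊢
      constructor <;> linarith only [k1.1, k1.2, k2.1, k2.2, k3.1, k3.2, k4.1, k4.2, k5, k6, k7, e8]
  · have e1 := ps 0 (Nat.zero_le M) ω ω' hω hω' hp
    have e2 := ps M le_rfl ω ω' hω hω' hp
    beta_reduce
    rw [e1, e2, hp]
    exact ⟨rfl, rfl, rfl, rfl, rfl, rfl, rfl⟩
  · exact (h.ln ω hω iu).trans (pow_dec zero_le_one hPu)
  · have k := (hb ω hω).trans (pow_dec zero_le_one hPN)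
    have e1 : F.d ω iN - -(z M ω).s * F.d ω iu -
        (e (Fam.pt F ω) iN + (z M ω).s * e (Fam.pt F ω) iu) * F.d ω i₀ - b (Fam.pt F ω) =
        (F.d ω iN - e (Fam.pt F ω) iN * F.d ω i₀) +
      (z M ω).s * (F.d ω iu - e (Fam.pt F ω) iu * F.d ω i₀) - b (Fam.pt F ω) := by ring
    show |F.d ω iN - -(z M ω).s * F.d ω iu -
        (e (Fam.pt F ω) iN + (z M ω).s * e (Fam.pt F ω) iu) * F.d ω i₀ - b (Fam.pt F ω)| ≤ _
    rw [e1]
    exact k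
  · have h1 := rd_near Va (z 0 ω).e
    have h3 := e_small h (Nat.zero_le M) hV0 hω
    have h5 : (1 : ℝ) / 2 ^ Va ≤ 1 / 2 ^ fv V₀ r N := pow_dec zero_le_one hVa
    beta_reduce
    have e1 : (4 : ℝ) / 2 ^ fv V₀ r N = 1 / 2 ^ fv V₀ r N + 1 / 2 / 2 ^ fv V₀ r N +
      5 / 2 / 2 ^ fv V₀ r N := by ring
    have e2 : (0 : ℝ) < 5 / 2 / 2 ^ fv V₀ r N := by positivity
    rw [e1]
    rw [abs_le] at h1 h3 ⊢
    constructor <;> linarith only [h1.1, h1.2, h3.1, h3.2, h5, e2]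
  · have h1 := rd_near Rt (tau (z 0 ω) (z M ω).s)
    have h3 := t0 ω hω
    have h5 : (1 : ℝ) / 2 ^ Rt ≤ 1 / 2 ^ (fv V₀ r N + Hn + X) := pow_dec zero_le_one hRt
    beta_reduce
    have e1 : (4 : ℝ) / 2 ^ (fv V₀ r N + Hn + X) = 1 / 2 ^ (fv V₀ r N + Hn + X) +
      1 / 2 / 2 ^ (fv V₀ r N + Hn + X) + 5 / 2 / 2 ^ (fv V₀ r N + Hn + X) := by ring
    have e2 : (0 : ℝ) < 5 / 2 / 2 ^ (fv V₀ r N + Hn + X) := by positivity
    rw [e1]
    rw [abs_le] at h1 h3 ⊢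
    constructor <;> linarith only [h1.1, h1.2, h3.1, h3.2, h5, e2]

theorem nl_weak (h : NLc F A i₀ iu iN M Pu' w V T H e n z) {j : ℕ} (hj : j ≤ M) {lam P : ℕ}
    (h1 : lam ≤ V j) (h2 : P ≤ T j) : NL F A ![i₀, iu, iN] (w j) lam P (z j) := by
  refine ⟨fun ω hω => ?_, fun ω ω' hω hω' hp => ?_, fun ω ω' _ _ hs => ?_⟩
  · have I := inc_lam (by norm_num) h1 (h.inc j hj ω hω)
    have hp : (2 : ℝ) ^ P ≤ 2 ^ T j := pow_le_pow_right₀ (by norm_num) h2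
    exact ⟨I.e_le, I.c_le, I.s_le, I.pe, I.pu,
      I.pn.trans (div_le_div_of_nonneg_left (by norm_num) (by positivity) hp), I.ve, I.vu,
      I.vn.trans (div_le_div_of_nonneg_left (by positivity) (by positivity) hp)⟩
  · obtain ⟨φ, hφ⟩ := h.zp j hj
    rw [hφ ω hω, hφ ω' hω']
    exact congrArg φ hp
  · obtain ⟨ψ, hψ⟩ := h.zs j hj
    rw [hψ ω, hψ ω', hs]

theorem pow_cmp {a b c K : ℕ} (h : c ≤ K + a + b) :
    (1 : ℝ) / 2 ^ b ≤ 2 ^ K * 2 ^ a / 2 ^ c := by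
  rw [div_le_div_iff₀ (by positivity) (by positivity), one_mul]
  calc (2 : ℝ) ^ c ≤ 2 ^ (K + a + b) := pow_le_pow_right₀ (by norm_num) h
    _ = _ := by rw [pow_add, pow_add]

/-- **The closeness** of the exact frame to the two natural labels. -/
theorem cl_of (h : NLc F A i₀ iu iN M Pu' w V T H e n z) {K Kf Va Rt Q U₀ P₀ UM PM : ℕ}
    (hK : (M : ℝ) ≤ 2 ^ K) {E : ℝ} (hE : (2 : ℝ) ^ Kf ≤ E)
    (c1 : U₀ ≤ Kf + w 0 + Va) (c2 : ∀ b, 0 ≤ b → b < M → P₀ + K ≤ Kf + U₀ + H b)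
    (c3 : P₀ ≤ Kf + w 0 + Rt) (c4 : UM + 4 ≤ Kf + w M + Va) (c5 : UM + 4 ≤ Kf + w M + V 0)
    (c6 : UM + 4 ≤ Kf + w M + V M) (c7 : PM + 1 ≤ Kf + w M + Q) (c8 : w 0 + Q + 2 ≤ T 0)
    (c9 : ∀ b, 0 ≤ b → b < M → Q + K + 4 ≤ H b + V 0) (c10 : w M + Q + 2 ≤ T M)
    (c11 : Q + 1 ≤ Rt) {ω : F.Ω} (hω : A ω) :
    Fnr (w M) UM PM E (z M ω).e (-(z M ω).s) (-(z M ω).c) (rd Va (z 0 ω).e) (-(z M ω).s)
      (rd Rt (tau (z 0 ω) (z M ω).s)) ∧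
    Fnr (w 0) U₀ P₀ E (z 0 ω).e (-(z 0 ω).s) (-(z 0 ω).c) (rd Va (z 0 ω).e) (-(z M ω).s)
      (rd Rt (tau (z 0 ω) (z M ω).s)) := by
  have hE0 : 0 < E := lt_of_lt_of_le (by positivity) hE
  have up : ∀ a c : ℕ, (2 : ℝ) ^ Kf * 2 ^ a / 2 ^ c ≤ E * 2 ^ a / 2 ^ c := fun a c =>
    div_le_div_of_nonneg_right (mul_le_mul_of_nonneg_right hE (by positivity)) (by positivity)
  have h1 := rd_near Va (z 0 ω).e
  have h2 := rd_near Rt (tau (z 0 ω) (z M ω).s)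
  refine ⟨⟨?_, ?_, ?_⟩, ?_, ?_, ?_⟩
  · refine le_trans ?_ (up _ _)
    have k3 := h.ze 0 (Nat.zero_le M) ω hω
    have k4 := h.ze M le_rfl ω hω
    have a0 : (2 : ℝ) ^ Kf * 2 ^ w M / 2 ^ UM = 16 * (2 ^ Kf * 2 ^ w M / 2 ^ (UM + 4)) := by
      rw [pow_add _ UM 4]
      field_simp
      norm_num
    have a1 := pow_cmp c4
    have a2 := pow_cmp c5
    have a3 := pow_cmp c6
    have e4 : ∀ k : ℕ, (4 : ℝ) / 2 ^ k = 4 * (1 / 2 ^ k) := fun k => by ring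
    rw [e4] at k3 k4
    rw [a0]
    have a5 : (0 : ℝ) < 2 ^ Kf * 2 ^ w M / 2 ^ (UM + 4) := by positivity
    rw [abs_le] at h1 k3 k4 ⊢
    constructor <;> linarith only [h1.1, h1.2, k3.1, k3.2, k4.1, k4.2, a1, a2, a3, a5]
  · rw [sub_self, abs_zero]
    positivity
  · refine le_trans ?_ (up _ _)
    have k1 := tau_near h (Nat.zero_le M) hK c8 c9 hω
    have k2 := tau_near h (le_refl M) (Q := Q) hK c10 (fun b hb hb' => absurd hb' (by omega)) hω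
    have e1 : tau (z M ω) (z M ω).s = -(z M ω).c := by
      unfold tau
      ring
    rw [e1] at k2
    have a1 := pow_cmp c7
    have a0 : (2 : ℝ) ^ Kf * 2 ^ w M / 2 ^ PM = 2 * (2 ^ Kf * 2 ^ w M / 2 ^ (PM + 1)) := by
      rw [pow_succ _ PM]
      field_simp
    have a2 : (1 : ℝ) / 2 ^ Rt ≤ 1 / 2 / 2 ^ Q := by
      have e2 : (1 : ℝ) / 2 / 2 ^ Q = 1 / 2 ^ (Q + 1) := by
        rw [pow_succ _ Q]
        field_simp
      rw [e2]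
      exact pow_dec zero_le_one c11
    have a3 : (1 : ℝ) / 2 / 2 ^ Q = 1 / 2 * (1 / 2 ^ Q) := by ring
    rw [a3] at k1 k2 a2
    rw [a0, sub_self, zero_mul, add_zero]
    have a5 : (0 : ℝ) < 1 / 2 ^ Q := by positivity
    rw [abs_le] at h2 k1 k2 ⊢
    constructor <;> linarith only [h2.1, h2.2, k1.1, k1.2, k2.1, k2.2, a1, a2, a5]
  · exact h1.trans ((pow_cmp c1).trans (up _ _))
  · refine le_trans ?_ (up _ _)
    have k3 := h.s_near (Nat.zero_le M) le_rfl (M := P₀ + K - (Kf + U₀))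
      (fun b hb hb' => by
        have := c2 b hb hb'
        omega) hω
    rw [Nat.sub_zero] at k3
    rw [neg_sub_neg, abs_sub_comm]
    refine k3.trans ?_
    rw [div_le_div_iff₀ (by positivity) (by positivity)]
    calc (M : ℝ) * 2 ^ P₀ ≤ 2 ^ K * 2 ^ P₀ := mul_le_mul_of_nonneg_right hK (by positivity)
      _ = 2 ^ (P₀ + K) := by rw [pow_add]; ring
      _ ≤ 2 ^ (Kf + U₀ + (P₀ + K - (Kf + U₀))) := pow_le_pow_right₀ (by norm_num) (by omega)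
      _ = _ := by rw [pow_add, pow_add]
  · have e1 : rd Rt (tau (z 0 ω) (z M ω).s) - -(z 0 ω).c + (-(z M ω).s - -(z 0 ω).s) * (z 0 ω).e =
        rd Rt (tau (z 0 ω) (z M ω).s) - tau (z 0 ω) (z M ω).s := by
      unfold tau
      ring
    rw [e1]
    exact h2.trans ((pow_cmp c3).trans (up _ _))

end near

end Pool.S6F
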