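import Pool.Agent.H62.S6.Ord

/-!
# Natural labels at finitely many windows, in one normal form

`e` is the exact direction of the fans (the direction of a pair of velocities at the exact point),
`z j` the label at the window `w j`. All labels contain the exact direction, to the precisions of
the labels, and the normals of labels at neighbouring windows agree.
-/

set_option autoImplicit false

namespace Pool.S6F

open Finset Real
open Pool.Agent.H49.Ent Pool.Agent.H32.Dense Pool.STK Pool.KA Pool.KSAT Pool.K2S Pool.PB Pool.KS6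
  Pool.S6C

/-- **Natural labels** at the windows `w 0 ≥ w 1 ≥ ... ≥ w N`, in one normal form. -/
structure NLc {J : ℕ} (F : Fam 3 J) (A : F.Ω → Prop) (i₀ iu iN : Fin 3) (N Pu : ℕ)
    (w V T H : ℕ → ℕ) (e n : (Fin 3 → ℤ) × (ℕ × F.ζ) → Fin 3 → ℝ) (z : ℕ → F.Ω → Pln) :
    Prop where
  hi : ∀ j : Fin 3, j = i₀ ∨ j = iu ∨ j = iN
  /-- the fans are straight -/
  ln : OnL i₀ (1 / 2 ^ Pu) (Fam.pt F) F.d A e n
  eb : ∀ ω, A ω → ∀ j, |e (Fam.pt F ω) j| ≤ 5 / 4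
  /-- the planks -/
  inc : ∀ j ≤ N, ∀ ω, A ω → Inc i₀ iu iN (w j) (V j) (T j) 2 (z j ω) (F.t ω) (F.x ω) (F.d ω)
  zp : ∀ j ≤ N, ∃ φ : (Fin 3 → ℤ) × (ℕ × F.ζ) → Pln, ∀ ω, A ω → z j ω = φ (ptq F J ω)
  zs : ∀ j ≤ N, ∃ ψ : ((Fin 3 → ℝ) × (Fin 3 → ℝ)) × F.ζ × ℕ → Pln,
    ∀ ω, z j ω = ψ (slam F (w j) ω)
  /-- the planks contain the exact direction -/
  ze : ∀ j ≤ N, ∀ ω, A ω → |(z j ω).e - e (Fam.pt F ω) iu| ≤ 4 / 2 ^ V j
  zc : ∀ j ≤ N, ∀ ω, A ω → |(z j ω).c + (z j ω).s * e (Fam.pt F ω) iu + e (Fam.pt F ω) iN| ≤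
    2 ^ w j / 2 ^ T j
  /-- the normals of neighbours -/
  zd : ∀ j < N, ∀ ω, A ω → |(z (j + 1) ω).s - (z j ω).s| ≤ 1 / 2 ^ H j

theorem NLc.sub {J : ℕ} {F : Fam 3 J} {A B : F.Ω → Prop} {i₀ iu iN : Fin 3} {N Pu : ℕ}
    {w V T H : ℕ → ℕ} {e n : (Fin 3 → ℤ) × (ℕ × F.ζ) → Fin 3 → ℝ} {z : ℕ → F.Ω → Pln}
    (h : NLc F A i₀ iu iN N Pu w V T H e n z) (hB : Sub B A) :
    NLc F B i₀ iu iN N Pu w V T H e n z := by
  refine ⟨h.hi, h.ln.sub hB, fun ω hω => h.eb ω (hB _ hω), fun j hj ω hω => h.inc j hj ω (hB _ hω),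
    fun j hj => ?_, h.zs, fun j hj ω hω => h.ze j hj ω (hB _ hω),
    fun j hj ω hω => h.zc j hj ω (hB _ hω), fun j hj ω hω => h.zd j hj ω (hB _ hω)⟩
  obtain ⟨φ, hφ⟩ := h.zp j hj
  exact ⟨φ, fun ω hω => hφ ω (hB _ hω)⟩

section near

variable {J : ℕ} {F : Fam 3 J} {A : F.Ω → Prop} {i₀ iu iN : Fin 3} {N Pu : ℕ} {w V T H : ℕ → ℕ}
  {e n : (Fin 3 → ℤ) × (ℕ × F.ζ) → Fin 3 → ℝ} {z : ℕ → F.Ω → Pln}

theorem NLc.e_near (h : NLc F A i₀ iu iN N Pu w V T H e n z) {i j : ℕ} (hi : i ≤ N) (hj : j ≤ N)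
    {ω : F.Ω} (hω : A ω) : |(z i ω).e - (z j ω).e| ≤ 4 / 2 ^ V i + 4 / 2 ^ V j := by
  have h1 := h.ze i hi ω hω
  have h2 := h.ze j hj ω hω
  have e1 : (z i ω).e - (z j ω).e =
      ((z i ω).e - e (Fam.pt F ω) iu) - ((z j ω).e - e (Fam.pt F ω) iu) := by ring
  rw [e1]
  exact (abs_sub _ _).trans (add_le_add h1 h2)

theorem NLc.s_near (h : NLc F A i₀ iu iN N Pu w V T H e n z) {i j : ℕ} (hij : i ≤ j) (hj : j ≤ N)
    {M : ℕ} (hM : ∀ b, i ≤ b → b < j → M ≤ H b) {ω : F.Ω} (hω : A ω) :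
    |(z j ω).s - (z i ω).s| ≤ ((j - i : ℕ) : ℝ) / 2 ^ M := by
  induction j with
  | zero =>
    have : i = 0 := by omega
    rw [this]
    simp
  | succ k ih =>
    rcases Nat.lt_or_ge k i with hk | hk
    · have : i = k + 1 := by omega
      rw [this]
      simp
    · have h1 := ih hk (by omega) (fun b hb hbk => hM b hb (by omega))
      have h2 := h.zd k (by omega) ω hω
      have h3 : (1 : ℝ) / 2 ^ H k ≤ 1 / 2 ^ M :=
        one_div_le_one_div_of_le (by positivity)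
          (pow_le_pow_right₀ (by norm_num) (hM k hk (by omega)))
      have e1 : (z (k + 1) ω).s - (z i ω).s =
          ((z (k + 1) ω).s - (z k ω).s) + ((z k ω).s - (z i ω).s) := by ring
      have e2 : (((k + 1 - i : ℕ) : ℝ)) / 2 ^ M = 1 / 2 ^ M + ((k - i : ℕ) : ℝ) / 2 ^ M := by
        rw [show k + 1 - i = (k - i) + 1 by omega]
        push_cast
        ring
      rw [e1, e2]
      exact (abs_add_le _ _).trans (add_le_add (h2.trans h3) h1)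

theorem NLc.c_near (h : NLc F A i₀ iu iN N Pu w V T H e n z) {i j : ℕ} (hi : i ≤ N) (hj : j ≤ N)
    {ω : F.Ω} (hω : A ω) :
    |((z i ω).c - (z j ω).c) + ((z i ω).s - (z j ω).s) * (z j ω).e| ≤
      2 ^ w i / 2 ^ T i + 2 ^ w j / 2 ^ T j + |(z i ω).s - (z j ω).s| * (4 / 2 ^ V j) := by
  have h1 := h.zc i hi ω hω
  have h2 := h.zc j hj ω hω
  have h3 := h.ze j hj ω hω
  have e1 : ((z i ω).c - (z j ω).c) + ((z i ω).s - (z j ω).s) * (z j ω).e =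
      (((z i ω).c + (z i ω).s * e (Fam.pt F ω) iu + e (Fam.pt F ω) iN) -
        ((z j ω).c + (z j ω).s * e (Fam.pt F ω) iu + e (Fam.pt F ω) iN)) +
      ((z i ω).s - (z j ω).s) * ((z j ω).e - e (Fam.pt F ω) iu) := by ring
  rw [e1]
  refine (abs_add_le _ _).trans (add_le_add ((abs_sub _ _).trans (add_le_add h1 h2)) ?_)
  rw [abs_mul]
  exact mul_le_mul_of_nonneg_left h3 (abs_nonneg _)

end near

/-- Straightness of the fans in the direction of the normals of the plank `z`, relative to the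
exact direction `e`. -/
def SnG {J : ℕ} (F : Fam 3 J) (A : F.Ω → Prop) (i₀ iu iN : Fin 3) (G : ℕ)
    (e : (Fin 3 → ℤ) × (ℕ × F.ζ) → Fin 3 → ℝ) (z : F.Ω → Pln) : Prop :=
  ∃ b : (Fin 3 → ℤ) × (ℕ × F.ζ) → ℝ, ∀ ω, A ω →
    |(F.d ω iN - e (Fam.pt F ω) iN * F.d ω i₀) +
      (z ω).s * (F.d ω iu - e (Fam.pt F ω) iu * F.d ω i₀) - b (Fam.pt F ω)| ≤ 1 / 2 ^ G

theorem SnG.sub {J : ℕ} {F : Fam 3 J} {A B : F.Ω → Prop} {i₀ iu iN : Fin 3} {G : ℕ}
    {e : (Fin 3 → ℤ) × (ℕ × F.ζ) → Fin 3 → ℝ} {z : F.Ω → Pln} (h : SnG F A i₀ iu iN G e z)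
    (hB : Sub B A) : SnG F B i₀ iu iN G e z := by
  obtain ⟨b, hb⟩ := h
  exact ⟨b, fun ω hω => hb ω (hB _ hω)⟩

/-- The directions of pairs of velocities. -/
theorem dir_fn {J : ℕ} {F : Fam 3 J} {i₀ : Fin 3} {q : ℕ} {B : F.Ω → Prop}
    (hs : Spr F i₀ q B) : ∃ α : (Fin 3 → ℤ) × (ℕ × F.ζ) → Fin 3 → ℝ, ∀ ω, B ω →
    ∃ ωa ωb, B ωa ∧ B ωb ∧ Fam.pt F ωa = Fam.pt F ω ∧ Fam.pt F ωb = Fam.pt F ω ∧
      1 / 2 ^ (q + 1) ≤ |F.d ωa i₀ - F.d ωb i₀| ∧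
      ∀ j, α (Fam.pt F ω) j = (F.d ωa j - F.d ωb j) / (F.d ωa i₀ - F.d ωb i₀) := by
  classical
  refine ⟨fun u => if h : ∃ ω, B ω ∧ Fam.pt F ω = u then
    fun j => (F.d (hs h.choose h.choose_spec.1).choose j -
      F.d (hs h.choose h.choose_spec.1).choose_spec.choose j) /
      (F.d (hs h.choose h.choose_spec.1).choose i₀ -
      F.d (hs h.choose h.choose_spec.1).choose_spec.choose i₀) else 0, fun ω hω => ?_⟩
  have h : ∃ ω', B ω' ∧ Fam.pt F ω' = Fam.pt F ω := ⟨ω, hω, rfl⟩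
  obtain ⟨k1, k2, k3, k4, k5⟩ := (hs h.choose h.choose_spec.1).choose_spec.choose_spec
  refine ⟨_, _, k1, k2, k3.trans h.choose_spec.2, k4.trans h.choose_spec.2, k5, fun j => ?_⟩
  simp only [dif_pos h]

/-- The frames of the labels and the exact direction. -/
theorem Lb3.dir {J : ℕ} {F : Fam 3 J} {B : F.Ω → Prop} {i₀ iu iN : Fin 3} {w lam P q : ℕ}
    {y : F.Ω → Pln} (h : Lb3 F B i₀ iu iN w lam P y)
    {α : (Fin 3 → ℤ) × (ℕ × F.ζ) → Fin 3 → ℝ} (hα : ∀ ω, B ω →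
      ∃ ωa ωb, B ωa ∧ B ωb ∧ Fam.pt F ωa = Fam.pt F ω ∧ Fam.pt F ωb = Fam.pt F ω ∧
      1 / 2 ^ (q + 1) ≤ |F.d ωa i₀ - F.d ωb i₀| ∧
      ∀ j, α (Fam.pt F ω) j = (F.d ωa j - F.d ωb j) / (F.d ωa i₀ - F.d ωb i₀))
    {ω : F.Ω} (hω : B ω) :
    |(y ω).e - α (Fam.pt F ω) iu| ≤ 8 * 2 ^ q * (1 / 2 ^ lam) ∧
      |(y ω).c + (y ω).s * α (Fam.pt F ω) iu + α (Fam.pt F ω) iN| ≤
        8 * 2 ^ q * (2 ^ w / 2 ^ P) := by
  obtain ⟨ωa, ωb, ha, hb, pa, pb, hab, hj⟩ := hα ω hω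
  have Ia := h.inc _ ha
  have Ib := h.inc _ hb
  rw [h.pt ha hω pa] at Ia
  rw [h.pt hb hω pb] at Ib
  rw [hj iu, hj iN]
  constructor
  · have b1 : |F.d ωa iu - (y ω).e * F.d ωa i₀ - fu i₀ iu (y ω).e (y ω).db| ≤ 2 / 2 ^ lam := Ia.vu
    have b2 : |F.d ωb iu - (y ω).e * F.d ωb i₀ - fu i₀ iu (y ω).e (y ω).db| ≤ 2 / 2 ^ lam := Ib.vu
    have a4 := pair_slope b1 b2 hab
    rw [abs_sub_comm]
    refine a4.trans (le_of_eq ?_)
    ring
  · exact pair_fn (inc_lam (by norm_num) (Nat.zero_le _) Ia)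
      (inc_lam (by norm_num) (Nat.zero_le _) Ib) hab

/-- A frame with the exact direction. -/
theorem dir_onL {J : ℕ} {F : Fam 3 J} {B : F.Ω → Prop} {i₀ : Fin 3} {q lp : ℕ}
    {α e n : (Fin 3 → ℤ) × (ℕ × F.ζ) → Fin 3 → ℝ} (hα : ∀ ω, B ω →
      ∃ ωa ωb, B ωa ∧ B ωb ∧ Fam.pt F ωa = Fam.pt F ω ∧ Fam.pt F ωb = Fam.pt F ω ∧
      1 / 2 ^ (q + 1) ≤ |F.d ωa i₀ - F.d ωb i₀| ∧
      ∀ j, α (Fam.pt F ω) j = (F.d ωa j - F.d ωb j) / (F.d ωa i₀ - F.d ωb i₀))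
    (hL : OnL i₀ (1 / 2 ^ lp) (Fam.pt F) F.d B e n) :
    (∀ ω, B ω → ∀ j, |α (Fam.pt F ω) j - e (Fam.pt F ω) j| ≤ 4 * 2 ^ q * (1 / 2 ^ lp)) ∧
      OnL i₀ (5 * 2 ^ q * (1 / 2 ^ lp)) (Fam.pt F) F.d B α n := by
  have key : ∀ ω, B ω → ∀ j,
      |α (Fam.pt F ω) j - e (Fam.pt F ω) j| ≤ 4 * 2 ^ q * (1 / 2 ^ lp) := by
    intro ω hω j
    obtain ⟨ωa, ωb, ha, hb, pa, pb, hab, hj⟩ := hα ω hω
    have La := hL _ ha j
    have Lb := hL _ hb j
    rw [pa] at La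
    rw [pb] at Lb
    rw [hj]
    exact pair_slope La Lb hab
  refine ⟨key, fun ω hω j => ?_⟩
  have h1 := hL ω hω j
  have h2 := key ω hω j
  have h3 := F.dir ω i₀
  have e1 : F.d ω j - α (Fam.pt F ω) j * F.d ω i₀ - n (Fam.pt F ω) j =
      (F.d ω j - e (Fam.pt F ω) j * F.d ω i₀ - n (Fam.pt F ω) j) -
        (α (Fam.pt F ω) j - e (Fam.pt F ω) j) * F.d ω i₀ := by ring
  rw [e1]
  refine (abs_sub _ _).trans ?_
  rw [abs_mul]
  have h4 := mul_le_mul h2 h3 (abs_nonneg _) (by positivity)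
  have h5 : (1 : ℝ) ≤ 2 ^ q := one_le_pow₀ (by norm_num)
  have h6 : (0 : ℝ) < 1 / 2 ^ lp := by positivity
  nlinarith only [h1, h4, h5, h6]

/-- Natural labels exist, as a claim about an event. -/
def NLP (i₀ : Fin 3) (N Pu : ℕ) (w V T H G : ℕ → ℕ) {J : ℕ} (F : Fam 3 J) (A : F.Ω → Prop) :
    Prop :=
  ∃ (iu iN : Fin 3) (e n : (Fin 3 → ℤ) × (ℕ × F.ζ) → Fin 3 → ℝ) (z : ℕ → F.Ω → Pln),
    NLc F A i₀ iu iN N Pu w V T H e n z ∧
      ∀ j ≤ N, SnG F A i₀ iu iN (G j) e (z j)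

theorem NLP.hered (i₀ : Fin 3) (N Pu : ℕ) (w V T H G : ℕ → ℕ) {J : ℕ} (F : Fam 3 J) :
    Hered (NLP i₀ N Pu w V T H G F) := by
  rintro A B hB ⟨iu, iN, e, n, z, h, h'⟩
  exact ⟨iu, iN, e, n, z, h.sub hB, fun j hj => (h' j hj).sub hB⟩

/-- Labels in one order, with the straightness in the direction of their normals. -/
def OrdK (i₀ : Fin 3) (N : ℕ) (w lam P G : ℕ → ℕ) {J : ℕ} (F : Fam 3 J) (A : F.Ω → Prop) :
    Prop :=
  ∃ (iu iN : Fin 3) (y : ℕ → F.Ω → Pln), (∀ j : Fin 3, j = i₀ ∨ j = iu ∨ j = iN) ∧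
    ∀ j ≤ N, Lb3 F A i₀ iu iN (w j) (lam j) (P j) (y j) ∧
      ∃ b k : (Fin 3 → ℤ) × (ℕ × F.ζ) → ℝ, ∀ ω, A ω →
        |fn i₀ iu iN (y j ω).c (y j ω).s (F.d ω) - b (ptq F J ω) - k (ptq F J ω) * F.d ω i₀| ≤
          1 / 2 ^ G j

theorem OrdK.hered (i₀ : Fin 3) (N : ℕ) (w lam P G : ℕ → ℕ) {J : ℕ} (F : Fam 3 J) :
    Hered (OrdK i₀ N w lam P G F) := by
  rintro A B hB ⟨iu, iN, y, hi, h⟩
  refine ⟨iu, iN, y, hi, fun j hj => ⟨(h j hj).1.sub hB, ?_⟩⟩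
  obtain ⟨b, k, hb⟩ := (h j hj).2
  exact ⟨b, k, fun ω hω => hb ω (hB _ hω)⟩

theorem pow_mid {q lam lam' : ℕ} (h : lam' + q + 3 ≤ lam) :
    (8 : ℝ) * 2 ^ q * (1 / 2 ^ lam) ≤ 1 / 2 ^ lam' := by
  obtain ⟨m, rfl⟩ := Nat.exists_eq_add_of_le h
  have e1 : (8 : ℝ) * 2 ^ q * (1 / 2 ^ (lam' + q + 3 + m)) = 1 / 2 ^ lam' / 2 ^ m := by
    simp only [pow_add]
    field_simp
    norm_num
  rw [e1]
  exact div_le_self (by positivity) (one_le_pow₀ (by norm_num))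

/-- The straightness in the direction of the normal, relative to the exact direction. -/
theorem sn_dir {J : ℕ} {F : Fam 3 J} {B : F.Ω → Prop} {i₀ iu iN : Fin 3} {w lam P q g G : ℕ}
    {y : F.Ω → Pln} (h : Lb3 F B i₀ iu iN w lam P y)
    {α : (Fin 3 → ℤ) × (ℕ × F.ζ) → Fin 3 → ℝ} (hα : ∀ ω, B ω →
      ∃ ωa ωb, B ωa ∧ B ωb ∧ Fam.pt F ωa = Fam.pt F ω ∧ Fam.pt F ωb = Fam.pt F ω ∧
      1 / 2 ^ (q + 1) ≤ |F.d ωa i₀ - F.d ωb i₀| ∧
      ∀ j, α (Fam.pt F ω) j = (F.d ωa j - F.d ωb j) / (F.d ωa i₀ - F.d ωb i₀))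
    {b k : (Fin 3 → ℤ) × (ℕ × F.ζ) → ℝ} (hb : ∀ ω, B ω →
        |fn i₀ iu iN (y ω).c (y ω).s (F.d ω) - b (ptq F J ω) - k (ptq F J ω) * F.d ω i₀| ≤
          1 / 2 ^ g) (hg : G + q + 3 ≤ g) : SnG F B i₀ iu iN G α y := by
  refine ⟨b, fun ω hω => ?_⟩
  obtain ⟨ωa, ωb, ha, hb', pa, pb, hab, hj⟩ := hα ω hω
  have Ba := hb _ ha
  have Bb := hb _ hb'
  have B0 := hb _ hω
  rw [h.pt ha hω pa, show ptq F J ωa = ptq F J ω from pa] at Ba
  rw [h.pt hb' hω pb, show ptq F J ωb = ptq F J ω from pb] at Bb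
  have hq0 : (0 : ℝ) < 1 / 2 ^ (q + 1) := by positivity
  have hd : 0 < |F.d ωa i₀ - F.d ωb i₀| := lt_of_lt_of_le hq0 hab
  have hd0 : F.d ωa i₀ - F.d ωb i₀ ≠ 0 := abs_pos.mp hd
  obtain ⟨k', hk'⟩ : ∃ k' : ℝ, k' = (y ω).c + (y ω).s * α (Fam.pt F ω) iu +
    α (Fam.pt F ω) iN := ⟨_, rfl⟩
  have key : |k' - k (ptq F J ω)| ≤ 4 * 2 ^ q * (1 / 2 ^ g) := by
    have e1 : k' - k (ptq F J ω) =
        ((fn i₀ iu iN (y ω).c (y ω).s (F.d ωa) - b (ptq F J ω) - k (ptq F J ω) * F.d ωa i₀) -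
          (fn i₀ iu iN (y ω).c (y ω).s (F.d ωb) - b (ptq F J ω) - k (ptq F J ω) * F.d ωb i₀)) /
          (F.d ωa i₀ - F.d ωb i₀) := by
      rw [hk', hj iu, hj iN]
      unfold fn
      field_simp
      ring
    rw [e1, abs_div, div_le_iff₀ hd]
    refine (abs_sub _ _).trans ((add_le_add Ba Bb).trans ?_)
    have e2 : (4 : ℝ) * 2 ^ q * (1 / 2 ^ g) * (1 / 2 ^ (q + 1)) = 1 / 2 ^ g + 1 / 2 ^ g := by
      rw [pow_succ]
      field_simp
      ring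
    have t4 : (4 : ℝ) * 2 ^ q * (1 / 2 ^ g) * (1 / 2 ^ (q + 1)) ≤
        4 * 2 ^ q * (1 / 2 ^ g) * |F.d ωa i₀ - F.d ωb i₀| :=
      mul_le_mul_of_nonneg_left hab (by positivity)
    linarith only [e2, t4]
  have e3 : (F.d ω iN - α (Fam.pt F ω) iN * F.d ω i₀) +
      (y ω).s * (F.d ω iu - α (Fam.pt F ω) iu * F.d ω i₀) - b (Fam.pt F ω) =
      (fn i₀ iu iN (y ω).c (y ω).s (F.d ω) - b (ptq F J ω) - k (ptq F J ω) * F.d ω i₀) -
        (k' - k (ptq F J ω)) * F.d ω i₀ := by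
    rw [hk', show b (Fam.pt F ω) = b (ptq F J ω) from rfl]
    unfold fn
    ring
  rw [e3]
  refine (abs_sub _ _).trans ?_
  rw [abs_mul]
  have h4 := mul_le_mul key (F.dir ω i₀) (abs_nonneg _) (by positivity)
  have h5 : (1 : ℝ) ≤ 2 ^ q := one_le_pow₀ (by norm_num)
  have h6 : (0 : ℝ) < 1 / 2 ^ g := by positivity
  have h7 := pow_mid hg
  nlinarith only [B0, h4, h6, h7, h5]

/-- **Natural labels** from labels in one order; `δ` is the slack. -/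
theorem nl_core {S : PCl 3} {a R h₁ : ℝ} {i₀ : Fin 3} {c s₂ : ℝ} {r : ℝ → ℝ} {D : Set ℝ}
    {σ : ℝ → Row} (hC : Cs S a R h₁ i₀ c s₂ r D σ) (N : ℕ) (u : ℕ → ℚ) (V T H G : ℕ → ℝ)
    {g δ : ℝ} (hδ : 0 < δ)
    (hu : ∀ j < N, u (j + 1) ≤ u j) (hu0 : ∀ j ≤ N, 0 ≤ u j) (hu1 : ∀ j ≤ N, u j ≤ 1)
    (hg : g + δ ≤ (σ 1).pi) (hδp : δ ≤ (σ 1).pi) (hT0 : ∀ j ≤ N, 0 < T j)
    (turn : ∀ j < N, (σ 1).rot (u j) + δ ≤ (σ 1).pi)
    (hH : ∀ j < N, max (H j) 0 + δ ≤ T j - u j - (σ 1).rot (u j) ∧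
      max (H j) 0 + δ ≤ T (j + 1) - u (j + 1) - (σ 1).rot (u j))
    (hO : Clp S (fun J F A => OrdK i₀ N (fun j => ⌊(u j : ℝ) * J⌋₊) (fun j => ⌊(V j + δ) * J⌋₊)
      (fun j => ⌊(T j + δ) * J⌋₊) (fun j => ⌊(G j + δ) * J⌋₊) F A)) (hG0 : ∀ j ≤ N, 0 ≤ G j) :
    Clp S (fun J F A => NLP i₀ N ⌊g * J⌋₊ (fun j => ⌊(u j : ℝ) * J⌋₊) (fun j => ⌊V j * J⌋₊)
      (fun j => ⌊T j * J⌋₊) (fun j => ⌊H j * J⌋₊) (fun j => ⌊G j * J⌋₊) F A) := by
  classical
  have hR1 := hC.row 1 one_pos le_rfl hC.D1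
  have hpi1 : (σ 1).pi ≤ 1 := num_le_cap hC.ne zero_le_one hR1.pi
  have hpi0 := pi_pos hC
  have hrot0 : ∀ j ≤ N, 0 ≤ (σ 1).rot (u j) := fun j hj =>
    num_nonneg hC.ne (hR1.rot (u j) (hu0 j hj) (hu1 j hj))
  have hu0r : ∀ j ≤ N, (0 : ℝ) ≤ u j := fun j hj => by exact_mod_cast hu0 j hj
  obtain ⟨x, hx⟩ : ∃ x, x = min (δ / 16) (min h₁ 1 / 4) := ⟨_, rfl⟩
  have hx0 : 0 < x := by
    rw [hx]
    have := lt_min hC.h₁0 one_pos
    exact lt_min (by linarith only [hδ]) (by linarith only [this])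
  have hxδ : x ≤ δ / 16 := by rw [hx]; exact min_le_left _ _
  have hx1 : x ≤ h₁ / 4 := by
    rw [hx]
    refine (min_le_right _ _).trans ?_
    have := min_le_left h₁ 1
    linarith
  have hx2 : x ≤ 1 / 4 := by
    rw [hx]
    refine (min_le_right _ _).trans ?_
    have := min_le_right h₁ 1
    linarith only [this]
  obtain ⟨J₃, hJ₃⟩ := exists_nat_gt (128 / δ)
  refine Clp.step ⟨1, fun J F _ => NLP i₀ N ⌊g * J⌋₊ (fun j => ⌊(u j : ℝ) * J⌋₊)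
      (fun j => ⌊V j * J⌋₊) (fun j => ⌊T j * J⌋₊) (fun j => ⌊H j * J⌋₊) (fun j => ⌊G j * J⌋₊) F,
    fun J F _ => NLP.hered _ _ _ _ _ _ _ _ _⟩ fun κ hκ => ?_
  obtain ⟨J₂, hJ₂⟩ := Pool.S6K.exp_small (κ := κ) (C := 2 * 2 ^ N) hκ (by
    have h1 : (1 : ℝ) ≤ 2 ^ N := one_le_pow₀ (by norm_num)
    linarith only [hδp, hpi1, hx0, hxδ, h1])
  exact by
   have c2 : Clp S (fun J F A => ∀ j < N,
       CmpP F A i₀ ⌊((σ 1).rot (u j) + δ / 4) * J⌋₊ ⌊(u j : ℝ) * J⌋₊ (2 * 2 ^ N)) :=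
     Clp.all N fun j hj => by
       refine cmp_clp hR1 (u j) (hu0 j hj.le) (hu1 j hj.le) (by linarith only [hx0, hxδ]) ?_ ?_
       · have := turn j hj
         linarith only [hpi1, hx0, hxδ, this]
       · have : (1 : ℝ) ≤ 2 ^ N := one_le_pow₀ (by norm_num)
         linarith only [hδp, hpi1, hx0, hxδ, this]
   have c3 := spr_clp hC hx0 hx1 hx2 (g := (σ 1).pi - δ / 4) (by linarith only [hδp, hx0, hxδ]) (by linarith only [hx0, hxδ])
   refine Clp.mono (J₂ := max J₂ J₃) ((hO.and c2).and c3) ?_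
   rintro J hJ F A ⟨⟨⟨iu, iN, y₀, hi, d1⟩, d2⟩, e, n, hL, B₀, hB₀, hPB₀, hspr, heb⟩ hSb
   have hJr : 128 / δ < J :=
     hJ₃.trans_le (by exact_mod_cast (le_max_right _ _).trans hJ)
   have hJδ : 128 < J * δ := by rwa [div_lt_iff₀ hδ] at hJr
   have hJ0 : (0 : ℝ) ≤ J := Nat.cast_nonneg J
   obtain ⟨q, hq⟩ : ∃ q, q = ⌈x * J⌉₊ := ⟨_, rfl⟩
   rw [← hq] at hspr
   have hq2 : (q : ℝ) < x * J + 1 := by rw [hq]; exact Nat.ceil_lt_add_one (by positivity)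
   have hxJ : x * J ≤ δ / 16 * J := mul_le_mul_of_nonneg_right hxδ hJ0
   obtain ⟨w, hw⟩ : ∃ w : ℕ → ℕ, w = fun j => ⌊(u j : ℝ) * J⌋₊ := ⟨_, rfl⟩
   obtain ⟨lam, hlam⟩ : ∃ lam : ℕ → ℕ, lam = fun j => ⌊(V j + δ) * J⌋₊ := ⟨_, rfl⟩
   obtain ⟨P, hP⟩ : ∃ P : ℕ → ℕ, P = fun j => ⌊(T j + δ) * J⌋₊ := ⟨_, rfl⟩
   obtain ⟨l, hl⟩ : ∃ l : ℕ → ℕ, l = fun j => ⌊((σ 1).rot (u j) + δ / 4) * J⌋₊ := ⟨_, rfl⟩
   obtain ⟨lp, hlp⟩ : ∃ lp : ℕ, lp = ⌊((σ 1).pi - δ / 4) * J⌋₊ := ⟨_, rfl⟩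
   have ew : ∀ j, ⌊(u j : ℝ) * J⌋₊ = w j := fun j => by rw [hw]
   have elam : ∀ j, ⌊(V j + δ) * J⌋₊ = lam j := fun j => by rw [hlam]
   have eP : ∀ j, ⌊(T j + δ) * J⌋₊ = P j := fun j => by rw [hP]
   have el : ∀ j, ⌊((σ 1).rot (u j) + δ / 4) * J⌋₊ = l j := fun j => by rw [hl]
   rw [← hlp] at hL
   have fw : ∀ j ≤ N, (w j : ℝ) ≤ u j * J := fun j hj => by
     rw [← ew]
     have := hu0r j hj
     exact Nat.floor_le (by positivity)
   exact by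
    have fP : ∀ j, (T j + δ) * J < P j + 1 := fun j => by
      rw [← eP]; exact Nat.lt_floor_add_one _
    have fl : ∀ j ≤ N, (l j : ℝ) ≤ ((σ 1).rot (u j) + δ / 4) * J := fun j hj => by
      rw [← el]
      have := hrot0 j hj
      exact Nat.floor_le (by positivity)
    have flp' : ((σ 1).pi - δ / 4) * J < lp + 1 := by rw [hlp]; exact Nat.lt_floor_add_one _
    have fH : ∀ j, (⌊H j * J⌋₊ : ℝ) ≤ max (H j) 0 * J := fun j => by
      rcases le_total (H j) 0 with h | h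
      · rw [Nat.floor_of_nonpos (mul_nonpos_of_nonpos_of_nonneg h hJ0), Nat.cast_zero]
        exact mul_nonneg (le_max_right _ _) hJ0
      · rw [max_eq_left h]
        exact Nat.floor_le (mul_nonneg h hJ0)
    have n1 : ∀ j < N, l j + q + 5 ≤ lp := fun j hj => by
      have m1 : ((σ 1).rot (u j) + δ) * J ≤ (σ 1).pi * J :=
        mul_le_mul_of_nonneg_right (turn j hj) hJ0
      have m2 := fl j hj.le
      have : ((l j + q + 5 : ℕ) : ℝ) < ((lp + 1 : ℕ) : ℝ) := by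
        push_cast
        linarith only [hδp, hpi1, hx0, hxδ, hJδ, hq2, hxJ, flp', m1, m2]
      have : l j + q + 5 < lp + 1 := by exact_mod_cast this
      omega
    have n1' : q + 10 ≤ lp := by
      have m1 : δ * J ≤ (σ 1).pi * J := mul_le_mul_of_nonneg_right hδp hJ0
      have : ((q + 10 : ℕ) : ℝ) < ((lp + 1 : ℕ) : ℝ) := by
        push_cast
        linarith only [hδp, hpi1, hx0, hxδ, hJδ, hq2, hxJ, flp', m1]
      have : q + 10 < lp + 1 := by exact_mod_cast this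
      omega
    have n2 : ∀ j < N, l j + q + w j + (⌊H j * J⌋₊ + 13) ≤ P j := fun j hj => by
      have m1 : (max (H j) 0 + δ) * J ≤ (T j - u j - (σ 1).rot (u j)) * J :=
        mul_le_mul_of_nonneg_right (hH j hj).1 hJ0
      have m2 := fl j hj.le
      have m3 := fw j hj.le
      have m4 := fP j
      have m5 := fH j
      have : ((l j + q + w j + (⌊H j * J⌋₊ + 13) : ℕ) : ℝ) < ((P j + 1 : ℕ) : ℝ) := by
        push_cast
        linarith only [hδp, hpi1, hx0, hxδ, hJδ, hq2, hxJ, m1, m2, m3, m4, m5]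
      have : l j + q + w j + (⌊H j * J⌋₊ + 13) < P j + 1 := by exact_mod_cast this
      omega
    exact by
     have n3 : ∀ j < N, l j + q + w (j + 1) + (⌊H j * J⌋₊ + 13) ≤ P (j + 1) := fun j hj => by
       have m1 : (max (H j) 0 + δ) * J ≤ (T (j + 1) - u (j + 1) - (σ 1).rot (u j)) * J :=
         mul_le_mul_of_nonneg_right (hH j hj).2 hJ0
       have m2 := fl j hj.le
       have m3 := fw (j + 1) hj
       have m4 := fP (j + 1)
       have m5 := fH j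
       have : ((l j + q + w (j + 1) + (⌊H j * J⌋₊ + 13) : ℕ) : ℝ) < ((P (j + 1) + 1 : ℕ) : ℝ) := by
         push_cast
         linarith only [hδp, hpi1, hx0, hxδ, hJδ, hq2, hxJ, m1, m2, m3, m4, m5]
       have : l j + q + w (j + 1) + (⌊H j * J⌋₊ + 13) < P (j + 1) + 1 := by exact_mod_cast this
       omega
     have n4 : ∀ j ≤ N, ⌊T j * J⌋₊ + q + 3 ≤ P j := fun j hj => by
       have h0 := hT0 j hj
       have m3 : (⌊T j * J⌋₊ : ℝ) ≤ T j * J := Nat.floor_le (by positivity)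
       have m4 := fP j
       have : ((⌊T j * J⌋₊ + q + 3 : ℕ) : ℝ) < ((P j + 1 : ℕ) : ℝ) := by
         push_cast
         linarith only [hδp, hpi1, hx0, hxδ, hJδ, hq2, hxJ, m3, m4]
       have : ⌊T j * J⌋₊ + q + 3 < P j + 1 := by exact_mod_cast this
       omega
     have n5 : ∀ j, 0 < V j → ⌊V j * J⌋₊ + q + 3 ≤ lam j := fun j h => by
       have m3 : (⌊V j * J⌋₊ : ℝ) ≤ V j * J := Nat.floor_le (by positivity)
       have m4 : (V j + δ) * J < lam j + 1 := by rw [← elam]; exact Nat.lt_floor_add_one _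
       have : ((⌊V j * J⌋₊ + q + 3 : ℕ) : ℝ) < ((lam j + 1 : ℕ) : ℝ) := by
         push_cast
         linarith only [hδp, hpi1, hx0, hxδ, hJδ, hq2, hxJ, m3, m4]
       have : ⌊V j * J⌋₊ + q + 3 < lam j + 1 := by exact_mod_cast this
       omega
     have n6 : ∀ j ≤ N, ⌊G j * J⌋₊ + q + 3 ≤ ⌊(G j + δ) * J⌋₊ := fun j hj => by
       have h := hG0 j hj
       have m3 : (⌊G j * J⌋₊ : ℝ) ≤ G j * J := Nat.floor_le (by positivity)
       have m4 : (G j + δ) * J < ⌊(G j + δ) * J⌋₊ + 1 := Nat.lt_floor_add_one _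
       have : ((⌊G j * J⌋₊ + q + 3 : ℕ) : ℝ) < ((⌊(G j + δ) * J⌋₊ + 1 : ℕ) : ℝ) := by
         push_cast
         linarith only [hδp, hpi1, hx0, hxδ, hJδ, hq2, hxJ, m3, m4]
       have : ⌊G j * J⌋₊ + q + 3 < ⌊(G j + δ) * J⌋₊ + 1 := by exact_mod_cast this
       omega
     exact by
      have n8 : ∀ j < N, w (j + 1) ≤ w j := fun j hj => by
        rw [← ew, ← ew]
        exact Nat.floor_le_floor (mul_le_mul_of_nonneg_right (by exact_mod_cast hu j hj) hJ0)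
      have n9 : ⌊g * J⌋₊ + q + 3 ≤ lp := by
        rcases le_total g 0 with h | h
        · rw [Nat.floor_of_nonpos (mul_nonpos_of_nonpos_of_nonneg h hJ0)]
          omega
        · have m3 : (⌊g * J⌋₊ : ℝ) ≤ g * J := Nat.floor_le (by positivity)
          have m1 : (g + δ) * J ≤ (σ 1).pi * J := mul_le_mul_of_nonneg_right hg hJ0
          have : ((⌊g * J⌋₊ + q + 3 : ℕ) : ℝ) < ((lp + 1 : ℕ) : ℝ) := by
            push_cast
            linarith only [hδp, hpi1, hx0, hxδ, hJδ, hq2, hxJ, flp', m3, m1]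
          have : ⌊g * J⌋₊ + q + 3 < lp + 1 := by exact_mod_cast this
          omega
      -- the labels
      have hlab : ∀ j, ∃ (y : F.Ω → Pln), (j ≤ N → Lb3 F A i₀ iu iN (w j) (lam j) (P j) y ∧
          ∃ b k : (Fin 3 → ℤ) × (ℕ × F.ζ) → ℝ, ∀ ω, A ω →
            |fn i₀ iu iN (y ω).c (y ω).s (F.d ω) - b (ptq F J ω) - k (ptq F J ω) * F.d ω i₀| ≤
              1 / 2 ^ ⌊(G j + δ) * J⌋₊) ∧
          ∃ ψ : ((Fin 3 → ℝ) × (Fin 3 → ℝ)) × F.ζ × ℕ → Pln, ∀ ω, y ω = ψ (slam F (w j) ω) := by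
        intro j
        by_cases hj : j ≤ N
        · obtain ⟨hy0, b, k, hbk⟩ := d1 j hj
          beta_reduce at hy0 hbk
          rw [ew, elam, eP] at hy0
          obtain ⟨φ, g2⟩ := hy0.yp
          obtain ⟨ψ, g3⟩ := hy0.ys
          refine ⟨fun ω => ψ (slam F (w j) ω), fun _ => ⟨⟨hi, fun ω hω => ?_, ⟨φ, fun ω hω => ?_⟩,
            ψ, fun ω _ => rfl⟩, b, k, fun ω hω => ?_⟩, ψ, fun ω => rfl⟩
          · beta_reduce
            rw [← g3 ω hω]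
            exact hy0.inc ω hω
          · beta_reduce
            rw [← g3 ω hω]
            exact g2 ω hω
          · beta_reduce
            rw [← g3 ω hω]
            exact hbk ω hω
        · exact ⟨fun _ => default, fun h => absurd h hj, fun _ => default, fun _ => rfl⟩
      choose y hy' hys using hlab
      exact by
       have hy : ∀ j ≤ N, Lb3 F A i₀ iu iN (w j) (lam j) (P j) (y j) := fun j hj => (hy' j hj).1
       obtain ⟨α, hα⟩ := dir_fn hspr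
       obtain ⟨hαe, hαL⟩ := dir_onL hα (hL.sub hB₀)
       obtain ⟨t1, t2, t3⟩ := three hi
       -- the comparisons
       obtain ⟨G, hG, hPG, hcmp⟩ := seq_ev (K := 2) F.isLaw (B₀ := B₀) (by norm_num) N
         (fun j G => ∀ ω, G ω → |(y (j + 1) ω).s - (y j ω).s| ≤ 1 / 2 ^ ⌊H j * J⌋₊)
         (fun j _ A' B' hs h ω hω => h ω (hs _ hω))
         (fun j hj G' hG' hP' => by
           obtain ⟨B, g1, g2, g3⟩ := d2 j hj B₀ G' hG' hB₀ (by
             rw [mul_assoc]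
             exact hPB₀.trans (mul_le_mul_of_nonneg_left hP' (by norm_num))) q lp (by
               rw [el]
               exact n1 j hj) hspr e n (hL.sub hB₀) iu iN iu iN (w j)
             (w (j + 1)) (lam j) (lam (j + 1)) (P j) (P (j + 1)) (y j) (y (j + 1)) (by rw [ew])
             (by rw [ew]; exact n8 j hj) ((hy j hj.le).sub hB₀) ((hy (j + 1) hj).sub hB₀)
           rw [el] at g3
           refine ⟨B, g1, g2, fun ω hω => ?_⟩
           have a1 := pow_small (n2 j hj)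
           have a2 := pow_small (n3 j hj)
           rcases g3 ω hω with ⟨-, -, h⟩ | ⟨h, -, -⟩
           · refine h.trans ?_
             have e1 : (1600 : ℝ) * 2 ^ q * 2 ^ l j *
                 (2 ^ w j / 2 ^ P j + 2 ^ w (j + 1) / 2 ^ P (j + 1)) =
                 1600 * 2 ^ q * 2 ^ l j * (2 ^ w j / 2 ^ P j) +
                 1600 * 2 ^ q * 2 ^ l j * (2 ^ w (j + 1) / 2 ^ P (j + 1)) := by ring
             rw [e1]
             refine (add_le_add a1 a2).trans ?_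
             rw [pow_add, ← add_div, div_le_div_iff₀ (by positivity) (by positivity)]
             have : (0 : ℝ) < 2 ^ ⌊H j * J⌋₊ := by positivity
             nlinarith only [this]
           · exact absurd h.symm t3)
       exact by
        have hfin : Pe F.p A ≤ 2 * 2 ^ N * Pe F.p G := by
          calc Pe F.p A ≤ 2 * Pe F.p B₀ := hPB₀
            _ ≤ 2 * (2 ^ N * Pe F.p G) := mul_le_mul_of_nonneg_left hPG (by norm_num)
            _ = _ := by ring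
        refine Pool.S6K.stb_part (hSb 0) (hG.trans hB₀) (by positivity) hfin
          (hJ₂ J ((le_max_left _ _).trans hJ)) (Pe_nonneg F.isLaw A) ⟨iu, iN, α, n, y, ?_, fun j hj => by
            obtain ⟨b, k, hbk⟩ := (hy' j hj).2
            exact (sn_dir ((hy j hj).sub hB₀) hα (fun ω hω => hbk ω (hB₀ _ hω)) (n6 j hj)).sub hG⟩
        have heα : ∀ ω, G ω → ∀ j, |α (Fam.pt F ω) j| ≤ 5 / 4 := by
          intro ω hω j
          have h1 := hαe ω (hG _ hω) j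
          have h2 := heb ω (hG _ hω) j
          have r2 : (2 : ℝ) ^ q * (1 / 2 ^ lp) ≤ 1 / 2 ^ 10 := pow_small1 n1'
          have r4 : (4 : ℝ) * 2 ^ q * (1 / 2 ^ lp) ≤ 4 * (1 / 2 ^ 10) := by
            rw [mul_assoc]
            exact mul_le_mul_of_nonneg_left r2 (by norm_num)
          have h3 := abs_sub_abs_le_abs_sub (α (Fam.pt F ω) j) (e (Fam.pt F ω) j)
          norm_num at r4
          linarith only [hδp, hpi1, hx0, hxδ, h1, h2, r2, h3]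
        refine ⟨hi, (hαL.sub hG).mono ?_, heα, fun j hj ω hω => ?_, fun j hj => ?_, fun j hj => ?_,
          fun j hj ω hω => ?_, fun j hj ω hω => ?_, fun j hj ω hω => hcmp j hj ω hω⟩
        · have h1 := pow_mid n9
          have h2 : (0 : ℝ) < 2 ^ q * (1 / 2 ^ lp) := by positivity
          nlinarith only [h1, h2]
        · beta_reduce
          rw [ew]
          have h1 := (hy j hj).inc ω (hB₀ _ (hG _ hω))
          have i1 : ⌊V j * J⌋₊ ≤ lam j := by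
            rw [← elam]
            exact Nat.floor_le_floor (mul_le_mul_of_nonneg_right (by linarith only [hx0, hxδ]) hJ0)
          have i2 : ⌊T j * J⌋₊ ≤ P j := by
            have := n4 j hj
            omega
          have h2 := inc_lam (by norm_num) i1 h1
          have hp : (2 : ℝ) ^ ⌊T j * J⌋₊ ≤ 2 ^ P j := pow_le_pow_right₀ (by norm_num) i2
          exact ⟨h2.e_le, h2.c_le, h2.s_le, h2.pe, h2.pu,
            h2.pn.trans (div_le_div_of_nonneg_left (by norm_num) (by positivity) hp), h2.ve, h2.vu,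
            h2.vn.trans (div_le_div_of_nonneg_left (by positivity) (by positivity) hp)⟩
        · obtain ⟨φ, hφ⟩ := (hy j hj).yp
          exact ⟨φ, fun ω hω => hφ ω (hB₀ _ (hG _ hω))⟩
        · beta_reduce
          rw [ew]
          exact hys j
        · beta_reduce
          by_cases h : 0 < V j
          · have h1 := (((hy j hj).sub hB₀).dir hα (hG _ hω)).1
            refine h1.trans ((pow_mid (n5 j h)).trans ?_)
            exact div_le_div_of_nonneg_right (by norm_num) (by positivity)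
          · have e0 : ⌊V j * J⌋₊ = 0 :=
              Nat.floor_of_nonpos (mul_nonpos_of_nonpos_of_nonneg (not_lt.1 h) hJ0)
            rw [e0, pow_zero, div_one]
            have h1 := ((hy j hj).inc ω (hB₀ _ (hG _ hω))).e_le
            have h2 := heα ω hω iu
            have h3 := abs_sub (y j ω).e (α (Fam.pt F ω) iu)
            linarith only [hδp, hpi1, hx0, hxδ, h1, h2, h3]
        · beta_reduce
          rw [ew]
          have h1 := (((hy j hj).sub hB₀).dir hα (hG _ hω)).2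
          refine h1.trans ?_
          have h2 := pow_mid (n4 j hj)
          have e1 : (8 : ℝ) * 2 ^ q * (2 ^ w j / 2 ^ P j) = 2 ^ w j * (8 * 2 ^ q * (1 / 2 ^ P j)) := by
            ring
          have e2 : (2 : ℝ) ^ w j / 2 ^ ⌊T j * J⌋₊ = 2 ^ w j * (1 / 2 ^ ⌊T j * J⌋₊) := by ring
          rw [e1, e2]
          exact mul_le_mul_of_nonneg_left h2 (by positivity)

end Pool.S6F
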