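import Pool.Agent.H62.S6.FF

/-!
# The frames of the falling case exist
-/

set_option autoImplicit false

namespace Pool.S6F

open Finset Real
open Pool.Agent.H49.Ent Pool.Agent.H32.Dense Pool.STK Pool.KA Pool.KSAT Pool.K2S Pool.PB Pool.KS6
  Pool.S6C Pool.FALL Pool.S6N Pool.Sel51

/-- A grid of windows between `ul` and `us`. -/
theorem grid_ex {ul us : ℚ} (h : ul < us) {C e : ℝ} (hC : 0 < C) (he : 0 < e) :
    ∃ (M : ℕ) (st : ℚ), 0 < M ∧ 0 < st ∧ C * st ≤ e ∧ us - M * st = ul := by
  have hd : (0 : ℝ) < (us : ℝ) - ul := by
    have : (ul : ℝ) < us := by exact_mod_cast h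
    linarith only [this]
  obtain ⟨M, hM⟩ := exists_nat_gt (C * ((us : ℝ) - ul) / e)
  have hM0 : (0 : ℝ) < M := lt_of_le_of_lt (by positivity) hM
  have hM1 : 0 < M := by exact_mod_cast hM0
  have hMq : (M : ℚ) ≠ 0 := by positivity
  refine ⟨M, (us - ul) / M, hM1, div_pos (by linarith only [h]) (by exact_mod_cast hM1), ?_, ?_⟩
  · push_cast
    rw [div_lt_iff₀ he] at hM
    rw [← mul_div_assoc, div_le_iff₀ hM0]
    linarith
  · field_simp
    ring

/-- The grid window below a window. -/
theorem grid_win {us st : ℚ} {M J : ℕ} (hst : 0 < st) {x : ℕ}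
    (h0 : (x : ℝ) ≤ us * J) (hM : ⌊((us - M * st : ℚ) : ℝ) * J⌋₊ ≤ x) :
    ∃ m ≤ M, ⌊((us - m * st : ℚ) : ℝ) * J⌋₊ ≤ x ∧
      (x : ℝ) ≤ ((us - m * st : ℚ) : ℝ) * J + st * J := by
  classical
  have hex : ∃ m : ℕ, ⌊((us - (m : ℚ) * st : ℚ) : ℝ) * J⌋₊ ≤ x := ⟨M, hM⟩
  have hst' : (0 : ℝ) < st := by exact_mod_cast hst
  refine ⟨Nat.find hex, Nat.find_min' hex hM, Nat.find_spec hex, ?_⟩
  rcases Nat.eq_zero_or_pos (Nat.find hex) with h | h
  · rw [h]
    push_cast
    have : (0 : ℝ) ≤ st * J := by positivity
    linarith only [h0, this]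
  · obtain ⟨k, hk⟩ : ∃ k, Nat.find hex = k + 1 := ⟨Nat.find hex - 1, by omega⟩
    have h2 := Nat.find_min hex (m := k) (by omega)
    rw [hk]
    push Not at h2
    have h3 : (x : ℝ) < ((us - k * st : ℚ) : ℝ) * J := Nat.lt_of_lt_floor h2
    push_cast at h3 ⊢
    linarith only [h3]

/-- **(FFR)** The frames of the falling case exist. -/
theorem ffr_thm : FFrStmt := by
  intro S a R h₁ i₀ c s₂ r' D σ hC act Ks W v₁ t e₁ Q₀ P g v₀ v ρ a₀ α hLoc L e G hZ N ul us η hη
  have hA := hLoc.adm
  have he := hZ.e0
  have hρ := hZ.ρ0
  have hvρ := hZ.vρ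
  have eL := hZ.eL
  have hv : 0 < v := by linarith
  have hL : 0 < L := by linarith
  have hvL : 0 < v * L := by positivity
  have hρL : ρ * L < v * L := by nlinarith only [he, hvρ, eL]
  have hρL0 : 0 < ρ * L := by positivity
  have LG : 10 * L + 4 * (v * L) ≤ G := by
    have := hZ.LG
    linarith
  have hG : 0 < G := by linarith only [he, eL, hρL, hρL0, LG]
  have g1 := hZ.g1
  have g3 := hZ.g3
  have g5 := hZ.g5
  have g6 := hZ.g6
  have g8 := hZ.g8
  have g9 := hZ.g9
  have g10 := hZ.g10
  have g11 := hZ.g11
  have hv1 : (v₁ : ℝ) < 1 := by exact_mod_cast hA.v1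
  obtain ⟨wr, hwr⟩ : ∃ x, x = W g := ⟨_, rfl⟩
  rw [← hwr] at g3 g6 g9 g11
  by_cases hcd : W g - L / 2 ≤ ul ∧ (us : ℝ) ≤ W g + L / 2 ∧ (ul : ℝ) < us
  swap
  · refine Clp.of one_pos 1 fun J hJ F A _ w₀ Δ r V₀ H X Pu PN hF _ _ => ?_
    exfalso
    apply hcd
    have hJ' : (1 : ℝ) ≤ J := by exact_mod_cast hJ
    have h1 := hF.ul1
    have h2 := hF.us0
    refine ⟨hF.ul0, hF.us1, ?_⟩
    have h3 : (w₀ : ℝ) ≤ ((w₀ + N * Δ : ℕ) : ℝ) := by exact_mod_cast Nat.le_add_right _ _
    by_contra hcon
    push Not at hcon
    have h4 : (us : ℝ) * J ≤ ul * J := mul_le_mul_of_nonneg_right hcon (by linarith only [he, eL, hρL, hρL0, LG, hv1, g9, g6, hJ'])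
    have h5 : 0 < e * J := by positivity
    linarith only [h1, h2, h3, h4, h5]
  exact by
   obtain ⟨cu, cs, cl⟩ := hcd
   rw [← hwr] at cu cs
   obtain ⟨M, st, hM0, hst, hst1, hMu⟩ := grid_ex (by exact_mod_cast cl : ul < us)
     (C := 1 + v + ρ) (e := e / 8) (by linarith only [he, hρ, hvρ, eL, hρL, hρL0, LG, hv1, g9, g6]) (by linarith)
   have hst' : (0 : ℝ) < st := by exact_mod_cast hst
   have vst : 0 < v * st := by positivity
   have ρst : 0 < ρ * st := by positivity
   have sst : (st : ℝ) + v * st + ρ * st ≤ e / 8 := by linarith only [hst1]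
   obtain ⟨u, hu⟩ : ∃ u : ℕ → ℚ, u = fun j : ℕ => us - (j : ℚ) * st := ⟨_, rfl⟩
   have u0 : u 0 = us := by rw [hu]; simp
   have uM : u M = ul := by rw [hu]; exact hMu
   have us' : ∀ j, u (j + 1) = u j - st := fun j => by
     rw [hu]
     push_cast
     ring
   have us'r : ∀ j, (u (j + 1) : ℝ) = u j - st := fun j => by
     rw [us' j]
     push_cast
     ring
   have umono : ∀ i j, i ≤ j → (u j : ℝ) ≤ u i := fun i j hij => by
     rw [hu]
     push_cast
     have h1 : (i : ℝ) ≤ j := by exact_mod_cast hij
     have h2 := mul_le_mul_of_nonneg_right h1 hst'.le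
     linarith only [h2]
   have uge : ∀ j ≤ M, (ul : ℝ) ≤ u j := fun j hj => by
     rw [← uM]
     exact umono j M hj
   have ule : ∀ j, (u j : ℝ) ≤ us := fun j => by
     rw [← u0]
     exact umono 0 j (Nat.zero_le j)
   exact by
    have uabs : ∀ j ≤ M, |(u j : ℝ) - wr| ≤ L := fun j hj => by
      have h1 := uge j hj
      have h2 := ule j
      rw [abs_le]
      constructor <;> linarith
    have aff : ∀ j ≤ M, (v₀ + v * (u j - wr) - e ≤ (σ 1).rot (u j) ∧
        (σ 1).rot (u j) ≤ v₀ + v * (u j - wr) + e) ∧
        (g - wr + ρ * (u j - wr) - e ≤ (σ 1).th (u j) - u j ∧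
        (σ 1).th (u j) - u j ≤ g - wr + ρ * (u j - wr) + e) := fun j hj => by
      obtain ⟨h1, h2⟩ := hZ.aff (u j) (by rw [← hwr]; exact uabs j hj)
      rw [← hwr] at h1 h2
      rw [abs_le] at h1 h2
      refine ⟨⟨by linarith only [h1, h1.1], by linarith only [h1, h1.2]⟩, ?_, ?_⟩
      · linarith only [h2, h2.1]
      · linarith only [h2, h2.2]
    have vb : ∀ j ≤ M, -(v * L) / 2 ≤ v * (u j - wr) ∧ v * (u j - wr) ≤ v * L / 2 := fun j hj => by
      have h1 := uge j hj
      have h2 := ule j
      have h3 := mul_le_mul_of_nonneg_left (show -L / 2 ≤ (u j : ℝ) - wr by linarith only [cu, h1]) hv.le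
      have h4 := mul_le_mul_of_nonneg_left (show (u j : ℝ) - wr ≤ L / 2 by linarith only [cs, h2]) hv.le
      exact ⟨by linarith only [h3], by linarith only [h4]⟩
    have ρb : ∀ j ≤ M, -(ρ * L) / 2 ≤ ρ * (u j - wr) ∧ ρ * (u j - wr) ≤ ρ * L / 2 := fun j hj => by
      have h1 := uge j hj
      have h2 := ule j
      have h3 := mul_le_mul_of_nonneg_left (show -L / 2 ≤ (u j : ℝ) - wr by linarith only [cu, h1]) hρ.le
      have h4 := mul_le_mul_of_nonneg_left (show (u j : ℝ) - wr ≤ L / 2 by linarith only [cs, h2]) hρ.le
      exact ⟨by linarith only [h3], by linarith only [h4]⟩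
    obtain ⟨δ, hδe⟩ : ∃ δ, δ = min η (e / 8) := ⟨_, rfl⟩
    have hδ : 0 < δ := by rw [hδe]; exact lt_min hη (by linarith only [hst1, hst', vst, ρst])
    have δη : δ ≤ η := by rw [hδe]; exact min_le_left _ _
    exact by
     have δe : δ ≤ e / 8 := by rw [hδe]; exact min_le_right _ _
     have rot0 : ∀ j ≤ M, 0 < (σ 1).rot (u j) := fun j hj => by
       have h1 := (aff j hj).1.1
       have h2 := (vb j hj).1
       linarith only [eL, hρL, hρL0, LG, g10, hst1, hst', vst, ρst, h1, h2]
     have hh : ∀ j ≤ M, (σ 1).rot (u j) + G / 2 < (σ 1).th (u j) - u j := fun j hj => by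
       have h1 := (aff j hj).1.2
       have h2 := (vb j hj).2
       have h3 := (aff j hj).2.1
       have h4 := (ρb j hj).1
       linarith only [eL, hρL, hρL0, LG, g11, hst1, hst', vst, ρst, h1, h2, h3, h4]
     have hh' : ∀ j < M, (σ 1).rot (u j) + G / 2 < (σ 1).th (u (j + 1)) - u (j + 1) := fun j hj => by
       have h1 := (aff j hj.le).1.2
       have h2 := (vb j hj.le).2
       have h3 := (aff (j + 1) hj).2.1
       have h4 := (ρb (j + 1) hj).1
       linarith only [eL, hρL, hρL0, LG, g11, hst1, hst', vst, ρst, h1, h2, h3, h4]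
     have key := nl_adm hC hA M u (fun j => (σ 1).rot (u j) - δ) (fun j => (σ 1).th (u j) - δ)
       (fun j => min ((σ 1).th (u j) - u j) ((σ 1).th (u (j + 1)) - u (j + 1)) -
         (σ 1).rot (u j) - 2 * δ) (fun _ => P - wr + G / 2) (g := (P - g) + v₀ + G / 2)
       (fun j _ => by
         rw [us' j]
         linarith only [hst]) (fun j hj => by
         have h1 := uge j hj
         have : (0 : ℝ) ≤ u j := by linarith only [eL, hρL, hρL0, LG, g9, cu, hst1, hst', vst, ρst, h1]
         exact_mod_cast this) (fun j hj => by
         have h1 := ule j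
         have : (u j : ℝ) ≤ v₁ := by linarith only [eL, hρL, hρL0, LG, g6, cs, hst1, hst', vst, ρst, h1]
         exact_mod_cast this) (by linarith only [eL, hρL, hρL0, LG, g1, hst1, hst', vst, ρst]) (fun j hj => by
         beta_reduce
         linarith only [hδ]) (fun j hj => by
         beta_reduce
         linarith only [hδ]) (fun j hj => by
         have h1 := hh j hj
         beta_reduce
         linarith only [eL, hρL, hρL0, LG, hst1, hst', vst, ρst, h1]) (fun j hj => by
         have h1 := hh j hj
         have h2 := rot0 j hj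
         beta_reduce
         linarith only [eL, hρL, hρL0, LG, hst1, hst', vst, ρst, δe, h1, h2]) (fun j hj => by
         have h1 := (aff j hj.le).1.2
         have h2 := (vb j hj.le).2
         linarith only [eL, hρL, hρL0, LG, g1, g8, hst1, hst', vst, ρst, h1, h2]) (fun j hj => by
         have h1 := hh j hj.le
         have h2 := hh' j hj
         beta_reduce
         exact ⟨by linarith only [eL, hρL, hρL0, LG, hst1, hst', vst, ρst, δe, h1], by linarith only [eL, hρL, hρL0, LG, hst1, hst', vst, ρst, δe, h2]⟩) (fun j hj => by
         have h1 := min_le_left ((σ 1).th (u j) - u j) ((σ 1).th (u (j + 1)) - u (j + 1))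
         have h2 := min_le_right ((σ 1).th (u j) - u j) ((σ 1).th (u (j + 1)) - u (j + 1))
         beta_reduce
         exact ⟨by linarith only [hδ, h1], by linarith only [hδ, h2]⟩) (fun j _ => by
         beta_reduce
         linarith only [eL, hρL, hρL0, LG, g8, g10, g11, hst1, hst', vst, ρst]) (fun j _ => by
         beta_reduce
         linarith only [eL, hρL, hρL0, LG, g3, hst1, hst', vst, ρst]) (fun j hj => by
         have h3 := (aff j hj).2.1
         have h4 := (ρb j hj).1
         beta_reduce
         linarith only [eL, hρL, hρL0, LG, g5, g8, hst1, hst', vst, ρst, δe, h3, h4])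
     exact by
      obtain ⟨J₂, hJ₂⟩ := exists_nat_gt (((M : ℝ) + 20) / e)
      refine Clp.mono (J₂ := max J₂ 1) key ?_
      rintro J hJ F A ⟨iu, iN, en, n, z, hN, hS⟩ w₀ Δ r V₀ H X Pu PN hF hPu hPN
      have hJr : ((M : ℝ) + 20) / e < J := hJ₂.trans_le (by exact_mod_cast (le_max_left _ _).trans hJ)
      have hJe : (M : ℝ) + 20 < e * J := by
        rw [div_lt_iff₀ he] at hJr
        linarith only [hJr]
      have hJ0 : (0 : ℝ) ≤ J := Nat.cast_nonneg J
      have hJ1 : (1 : ℝ) ≤ J := by exact_mod_cast (le_max_right _ _).trans hJ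
      beta_reduce at hN hS
      -- the precisions
      obtain ⟨w, hw⟩ : ∃ w : ℕ → ℕ, w = fun j => ⌊(u j : ℝ) * J⌋₊ := ⟨_, rfl⟩
      obtain ⟨nV, hnV⟩ : ∃ f : ℕ → ℕ, f = fun j => ⌊((σ 1).rot (u j) - δ) * J⌋₊ := ⟨_, rfl⟩
      obtain ⟨nT, hnT⟩ : ∃ f : ℕ → ℕ, f = fun j => ⌊((σ 1).th (u j) - δ) * J⌋₊ := ⟨_, rfl⟩
      obtain ⟨nH, hnH⟩ : ∃ f : ℕ → ℕ, f = fun j =>
        ⌊(min ((σ 1).th (u j) - u j) ((σ 1).th (u (j + 1)) - u (j + 1)) -
          (σ 1).rot (u j) - 2 * δ) * J⌋₊ := ⟨_, rfl⟩
      rw [← hw, ← hnV, ← hnT, ← hnH] at hN
      have u0r : ∀ j ≤ M, (0 : ℝ) ≤ u j := fun j hj => by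
        have h1 := uge j hj
        linarith only [eL, hρL, hρL0, LG, g9, cu, hst1, hst', vst, ρst, h1]
      have wle : ∀ j ≤ M, (w j : ℝ) ≤ u j * J := fun j hj => by
        have h1 := u0r j hj
        rw [hw]
        exact Nat.floor_le (by positivity)
      have wlt : ∀ j, (u j : ℝ) * J < w j + 1 := fun j => by
        rw [hw]
        exact Nat.lt_floor_add_one _
      have nVlt : ∀ j, ((σ 1).rot (u j) - δ) * J < nV j + 1 := fun j => by
        rw [hnV]
        exact Nat.lt_floor_add_one _
      exact by
       have nTlt : ∀ j, ((σ 1).th (u j) - δ) * J < nT j + 1 := fun j => by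
         rw [hnT]
         exact Nat.lt_floor_add_one _
       have nHlt : ∀ j, (min ((σ 1).th (u j) - u j) ((σ 1).th (u (j + 1)) - u (j + 1)) -
           (σ 1).rot (u j) - 2 * δ) * J < nH j + 1 := fun j => by
         rw [hnH]
         exact Nat.lt_floor_add_one _
       -- everything times `J`
       have affJ : ∀ j ≤ M, (v₀ * J + v * (u j * J - wr * J) - e * J ≤ (σ 1).rot (u j) * J ∧
           (σ 1).rot (u j) * J ≤ v₀ * J + v * (u j * J - wr * J) + e * J) ∧
           ((g - wr) * J + ρ * (u j * J - wr * J) - e * J ≤ (σ 1).th (u j) * J - u j * J ∧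
           (σ 1).th (u j) * J - u j * J ≤ (g - wr) * J + ρ * (u j * J - wr * J) + e * J) :=
         fun j hj => by
         obtain ⟨⟨h1, h2⟩, h3, h4⟩ := aff j hj
         have k1 := mul_le_mul_of_nonneg_right h1 hJ0
         have k2 := mul_le_mul_of_nonneg_right h2 hJ0
         have k3 := mul_le_mul_of_nonneg_right h3 hJ0
         have k4 := mul_le_mul_of_nonneg_right h4 hJ0
         exact ⟨⟨by linarith only [k1], by linarith only [k2]⟩, by linarith only [k3], by linarith only [k4]⟩
       have sstJ : (st : ℝ) * J + v * st * J + ρ * st * J ≤ e * J / 8 := by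
         have := mul_le_mul_of_nonneg_right sst hJ0
         linarith only [this]
       have stJ : 0 ≤ (st : ℝ) * J := by positivity
       have vstJ : 0 ≤ v * st * J := by positivity
       have ρstJ : 0 ≤ ρ * st * J := by positivity
       have δJ : δ * J ≤ e * J / 8 := by
         have := mul_le_mul_of_nonneg_right δe hJ0
         linarith only [this]
       have δJ0 : 0 ≤ δ * J := by positivity
       have umJ : ∀ i j, i ≤ j → (u j : ℝ) * J ≤ u i * J := fun i j hij =>
         mul_le_mul_of_nonneg_right (umono i j hij) hJ0
       -- the normals between the grid windows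
       exact by
        have nHge : ∀ m ≤ M, ∀ b, m ≤ b → b < M → (g - wr - v₀) * J + ρ * (u m * J - wr * J) -
            v * (u m * J - wr * J) - ρ * st * J - 2 * (e * J) - 2 * (δ * J) < nH b + 1 := by
          intro m hm b hmb hb
          refine lt_of_le_of_lt ?_ (nHlt b)
          have h1 := (affJ b hb.le).1.2
          have h2 := (affJ b hb.le).2.1
          have h3 := (affJ (b + 1) hb).2.1
          rw [us'r b] at h3
          have h4 : (v - ρ) * (u b * J) ≤ (v - ρ) * (u m * J) :=
            mul_le_mul_of_nonneg_left (umJ m b hmb) (by linarith only [hvρ])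
          have e1 : (min ((σ 1).th (u b) - u b) ((σ 1).th (u (b + 1)) - u (b + 1)) -
              (σ 1).rot (u b) - 2 * δ) * J =
              min ((σ 1).th (u b) - u b) ((σ 1).th (u (b + 1)) - u (b + 1)) * J -
              (σ 1).rot (u b) * J - 2 * (δ * J) := by ring
          have h5 : (g - wr) * J + ρ * (u b * J - wr * J) - ρ * st * J - e * J ≤
              min ((σ 1).th (u b) - u b) ((σ 1).th (u (b + 1)) - u (b + 1)) * J := by
            rcases min_choice ((σ 1).th (u b) - u b) ((σ 1).th (u (b + 1)) - u (b + 1)) with h | h
            · rw [h]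
              linarith only [ρstJ, h2]
            · rw [h, us'r b]
              linarith only [h3]
          rw [e1]
          linarith only [h1, h4, h5]
        -- the integer levels
        have fvi : ∀ i ≤ N, fv V₀ r i ≤ fv V₀ r N := fun i hi => by
          unfold fv
          have := Nat.mul_le_mul_right r hi
          omega
        have fwi : ∀ i ≤ N, w₀ ≤ fw w₀ Δ i ∧ fw w₀ Δ i ≤ fw w₀ Δ N := fun i hi => by
          unfold fw
          have := Nat.mul_le_mul_right Δ hi
          exact ⟨by omega, by omega⟩
        exact by
         have lva : (fv V₀ r N : ℝ) ≤ v₀ * J + v * (w₀ - wr * J) - 20 * (e * J) := by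
           have := hF.va
           rw [← hwr] at this
           unfold fv
           linarith only [this]
         have lrt : ∀ i ≤ N, (fv V₀ r i : ℝ) + H ≤
             (g - wr) * J + ρ * ((fw w₀ Δ i : ℝ) - wr * J) - 20 * (e * J) := fun i hi => by
           have := hF.rt i hi
           rw [← hwr] at this
           unfold fv fw
           push_cast at this ⊢
           linarith only [this]
         have lrt' : (g - wr) * J + ρ * ((w₀ : ℝ) - wr * J) - 30 * (e * J) ≤ (V₀ : ℝ) + H := by
           have := hF.rt' 0 (Nat.zero_le N)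
           rw [← hwr] at this
           push_cast at this
           linarith only [this]
         have lhs : (H : ℝ) + X ≤ (g - wr - v₀) * J + (ρ - v) * (ul * J - wr * J) - 50 * (e * J) := by
           have := hF.hs
           rw [← hwr] at this
           push_cast at this
           linarith only [this]
         have lrs : (fv V₀ r N : ℝ) + H + X ≤
             (g - wr) * J + ρ * (us * J - wr * J) - 20 * (e * J) := by
           have := hF.rs
           rw [← hwr] at this
           unfold fv
           push_cast at this ⊢
           linarith only [this]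
         have lul : (ul : ℝ) * J + e * J ≤ w₀ := hF.ul1
         exact by
          have lus : (fw w₀ Δ N : ℝ) + e * J ≤ us * J := hF.us0
          have lzu : (fw w₀ Δ N : ℝ) ≤ (wr + L / 2) * J := by
            have := hF.zu
            rw [← hwr] at this
            exact this
          have fwr : ∀ i ≤ N, (w₀ : ℝ) ≤ fw w₀ Δ i ∧ (fw w₀ Δ i : ℝ) ≤ fw w₀ Δ N := fun i hi =>
            ⟨by exact_mod_cast (fwi i hi).1, by exact_mod_cast (fwi i hi).2⟩
          have fvr : ∀ i ≤ N, (fv V₀ r i : ℝ) ≤ fv V₀ r N := fun i hi => by exact_mod_cast fvi i hi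
          have fw_u0 : ∀ i ≤ N, (fw w₀ Δ i : ℝ) ≤ u 0 * J := fun i hi => by
            have h1 := (fwr i hi).2
            rw [u0]
            linarith only [eL, hρL, hρL0, LG, hv1, g9, g6, hst1, hst', vst, ρst, hJe, lus, h1]
          have hm : ∀ i, ∃ m ≤ M, i ≤ N → w m ≤ fw w₀ Δ i ∧ (fw w₀ Δ i : ℝ) ≤ u m * J + st * J := by
            intro i
            by_cases hi : i ≤ N
            · have h1 := fw_u0 i hi
              rw [u0] at h1
              obtain ⟨m, k1, k2, k3⟩ := grid_win (M := M) hst h1 (by
                rw [hMu]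
                have h2 := (fwr i hi).1
                refine Nat.floor_le_of_le ?_
                linarith only [eL, hρL, hρL0, LG, hv1, g9, g6, hst1, hst', vst, ρst, hJe, lul, h2])
              refine ⟨m, k1, fun _ => ⟨?_, ?_⟩⟩
              · rw [hw, hu]
                exact k2
              · rw [hu]
                exact k3
            · exact ⟨0, Nat.zero_le M, fun h => absurd h hi⟩
          choose m hmM hm using hm
          have hmw : ∀ i ≤ N, (w (m i) : ℝ) ≤ u (m i) * J := fun i _ => wle (m i) (hmM i)
          exact by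
           have hMJ : (M : ℝ) + 20 < e * J := hJe
           have usJ : (u 0 : ℝ) * J = us * J := by rw [u0]
           have ulJ : (u M : ℝ) * J = ul * J := by rw [uM]
           have vmono : ∀ {x y : ℝ}, x ≤ y → v * x ≤ v * y := fun h => mul_le_mul_of_nonneg_left h hv.le
           have ρmono : ∀ {x y : ℝ}, x ≤ y → ρ * x ≤ ρ * y := fun h => mul_le_mul_of_nonneg_left h hρ.le
           obtain ⟨Va, hVa⟩ : ∃ k : ℕ, k = ⌊(σ 1).rot us * J⌋₊ := ⟨_, rfl⟩
           obtain ⟨Rt, hRt⟩ : ∃ k : ℕ, k = ⌊((σ 1).th us - us) * J⌋₊ := ⟨_, rfl⟩
           have a0 := affJ 0 (Nat.zero_le M)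
           have aM := affJ M le_rfl
           rw [u0] at a0
           rw [uM] at aM
           have r0 := rot0 0 (Nat.zero_le M)
           have rM := rot0 M le_rfl
           have hh0 := hh 0 (Nat.zero_le M)
           have hhM := hh M le_rfl
           rw [u0] at r0 hh0
           rw [uM] at rM hhM
           have Vale : (Va : ℝ) ≤ (σ 1).rot us * J := by
             rw [hVa]
             exact Nat.floor_le (by positivity)
           have Valt : (σ 1).rot us * J < Va + 1 := by
             rw [hVa]
             exact Nat.lt_floor_add_one _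
           have Rtle : (Rt : ℝ) ≤ ((σ 1).th us - us) * J := by
             rw [hRt]
             exact Nat.floor_le (mul_nonneg (by linarith only [eL, hρL, hρL0, LG, hst1, hst', vst, ρst, r0, hh0]) hJ0)
           have Rtlt : ((σ 1).th us - us) * J < Rt + 1 := by
             rw [hRt]
             exact Nat.lt_floor_add_one _
           have w0us : (w₀ : ℝ) ≤ us * J := by
             have h1 := (fwr 0 (Nat.zero_le N)).1
             have h2 := fw_u0 0 (Nat.zero_le N)
             rw [u0] at h2
             linarith only [h1, h2]
           exact by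
            have vw0 := vmono w0us
            have nV0lt := nVlt 0
            have nT0lt := nTlt 0
            have nVMlt := nVlt M
            have nTMlt := nTlt M
            have w0lt := wlt 0
            have wMlt := wlt M
            have w0le := wle 0 (Nat.zero_le M)
            have wMle := wle M le_rfl
            rw [u0] at nV0lt nT0lt w0lt w0le
            rw [uM] at nVMlt nTMlt wMlt wMle
            have hKM : (M : ℝ) ≤ 2 ^ M := by exact_mod_cast (Nat.lt_two_pow_self (n := M)).le
            have toN : ∀ {a b : ℕ}, (a : ℝ) < (b : ℝ) + 1 → a ≤ b := fun {a b} h => by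
              have h' : a < b + 1 := by exact_mod_cast h
              omega
            have hwM : ∀ i ≤ N, w M ≤ fw w₀ Δ i := by
              intro i hi
              have h1 := (fwr i hi).1
              refine toN ?_
              linarith only [eL, hρL, hρL0, LG, hv1, g9, g6, hst1, hst', vst, ρst, hJe, lul, wMle, h1]
            have hwJ : ∀ i ≤ N, fw w₀ Δ i ≤ J := by
              intro i hi
              have h1 := (fwr i hi).2
              have h2 : (wr + L / 2) * J ≤ 1 * J := mul_le_mul_of_nonneg_right (by linarith only [eL, hρL, hρL0, LG, hv1, g6, hst1, hst', vst, ρst]) hJ0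
              have : ((fw w₀ Δ i : ℕ) : ℝ) ≤ J := by linarith only [lzu, h1, h2]
              exact_mod_cast this
            have kV : ∀ i ≤ N, fv V₀ r i + 3 ≤ nV (m i) := by
              intro i hi
              have h1 := (affJ (m i) (hmM i)).1.1
              have h2 := nVlt (m i)
              have h3 := fvr i hi
              have h4 := vmono ((fwr i hi).1.trans (hm i hi).2)
              refine toN ?_
              push_cast
              linarith only [eL, hρL, hρL0, LG, hv1, g9, g6, hst1, hst', vst, ρst, hJe, sstJ, stJ, ρstJ, δJ, lva, h1, h2, h3, h4]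
            exact by
             have a011 := a0.1.1
             have a012 := a0.1.2
             have a021 := a0.2.1
             have a022 := a0.2.2
             have aM11 := aM.1.1
             have aM12 := aM.1.2
             have aM21 := aM.2.1
             have aM22 := aM.2.2
             have kV0 : fv V₀ r N + 3 ≤ nV 0 := by
               refine toN ?_
               push_cast
               linarith only [eL, hρL, hρL0, LG, hv1, g9, g6, hst1, hst', vst, ρst, hJe, δJ, lva, a0, vw0, nV0lt]
             have kT : ∀ i ≤ N, w (m i) + (fv V₀ r i + H) + 2 ≤ nT (m i) := by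
               intro i hi
               have h1 := (affJ (m i) (hmM i)).2.1
               have h2 := nTlt (m i)
               have h3 := lrt i hi
               have h4 := ρmono (hm i hi).2
               have h5 := hmw i hi
               refine toN ?_
               push_cast
               linarith only [eL, hρL, hρL0, LG, hv1, g9, g6, hst1, hst', vst, ρst, hJe, sstJ, stJ, vstJ, δJ, h1, h2, h3, h4, h5]
             have kT0 : w 0 + (fv V₀ r N + H + X) + 2 ≤ nT 0 := by
               refine toN ?_
               push_cast
               linarith only [eL, hρL, hρL0, LG, hv1, g9, g6, hst1, hst', vst, ρst, hJe, δJ, lrs, a0, nT0lt, w0le]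
             have kTM : w M + (H + X) + 2 ≤ nT M := by
               have h1 : 0 ≤ (σ 1).rot ul * J := by positivity
               refine toN ?_
               push_cast
               linarith only [eL, hρL, hρL0, LG, hv1, g9, g6, hst1, hst', vst, ρst, hJe, δJ, lhs, aM, nTMlt, wMle, h1]
             exact by
              have kH : ∀ i ≤ N, ∀ b, m i ≤ b → b < M → fv V₀ r i + H + M + 4 ≤ nH b + nV (m i) := by
                intro i hi b hb hbM
                have h1 := (affJ (m i) (hmM i)).1.1
                have h2 := nVlt (m i)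
                have h3 := lrt i hi
                have h4 := ρmono (hm i hi).2
                have h5 := nHge (m i) (hmM i) b hb hbM
                refine toN ?_
                push_cast
                linarith only [eL, hρL, hρL0, LG, hv1, g9, g6, hst1, hst', vst, ρst, hJe, sstJ, stJ, vstJ, δJ, h1, h2, h3, h4, h5]
              have kH0 : ∀ b, 0 ≤ b → b < M → fv V₀ r N + H + X + M + 4 ≤ nH b + nV 0 := by
                intro b hb hbM
                have h5 := nHge 0 (Nat.zero_le M) b hb hbM
                rw [u0] at h5
                refine toN ?_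
                push_cast
                linarith only [eL, hρL, hρL0, LG, hv1, g9, g6, hst1, hst', vst, ρst, hJe, sstJ, stJ, vstJ, δJ, lrs, a0, nV0lt, h5]
              have kVa : fv V₀ r N ≤ Va := by
                refine toN ?_
                linarith only [eL, hρL, hρL0, LG, hv1, g9, g6, hst1, hst', vst, ρst, hJe, lva, a0, Valt, vw0]
              have kRt : fv V₀ r N + H + X ≤ Rt := by
                refine toN ?_
                push_cast
                linarith only [eL, hρL, hρL0, LG, hv1, g9, g6, hst1, hst', vst, ρst, hJe, lrs, a0, Rtlt]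
              have kv2 : 2 ≤ fv V₀ r N := by
                have h1 := (vb M le_rfl).1
                rw [uM] at h1
                have h2 : (0 : ℝ) ≤ (v₀ + v * (ul - wr)) * J := mul_nonneg (by linarith only [eL, hρL, hρL0, LG, g10, hst1, hst', vst, ρst, h1]) hJ0
                have h3 := ρmono (show (ul : ℝ) * J ≤ w₀ by
                  have : 0 < e * J := by positivity
                  linarith only [eL, hρL, hρL0, LG, hv1, g9, g6, hst1, hst', vst, ρst, hJe, lul])
                have h4 := fvr 0 (Nat.zero_le N)
                have h5 : (fv V₀ r 0 : ℝ) = V₀ := by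
                  unfold fv
                  simp
                rw [h5] at h4
                have h6 : (0 : ℝ) ≤ X := Nat.cast_nonneg X
                refine toN ?_
                push_cast
                linarith only [eL, hρL, hρL0, LG, hv1, g9, g6, hst1, hst', vst, ρst, hJe, lrt', lhs, h2, h3, h4]
              exact by
               obtain ⟨bb, hFF⟩ := ffr_of (Va := Va) (Rt := Rt) (Pu := Pu) (PN := PN) (K := M) hN
                 (hS M le_rfl) m (fun i _ => hmM i)
                 (fun i hi => (hm i hi).1) hwM hwJ hKM kV kV0 kT kT0 kTM kH kH0 kVa (kv2.trans kVa) kRt kv2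
                 (Nat.le_floor hPu) (Nat.le_floor (by rw [hwr]; exact hPN))
               refine ⟨Va, Rt, _, _, _, _, _, _, _, _, _, _, z M, z 0, rfl, hFF, ?_⟩
               rw [← hwr]
               have ewM : w M = ⌊(ul : ℝ) * J⌋₊ := by
                 rw [hw]
                 simp only [uM]
               have ew0 : w 0 = ⌊(us : ℝ) * J⌋₊ := by
                 rw [hw]
                 simp only [u0]
               obtain ⟨Kf, hKf⟩ : ∃ k : ℕ, k = ⌊(η + 10 * e) * J⌋₊ := ⟨_, rfl⟩
               obtain ⟨Q, hQ⟩ : ∃ k : ℕ, k = ⌊((σ 1).th ul - ul - 7 * e) * J⌋₊ := ⟨_, rfl⟩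
               obtain ⟨U₁, hU₁⟩ : ∃ k : ℕ, k = ⌊((us : ℝ) + (σ 1).rot us) * J⌋₊ := ⟨_, rfl⟩
               obtain ⟨P₁, hP₁⟩ : ∃ k : ℕ, k = ⌊(σ 1).th us * J⌋₊ := ⟨_, rfl⟩
               obtain ⟨UM, hUM⟩ : ∃ k : ℕ, k = ⌊((ul : ℝ) + (σ 1).rot ul) * J⌋₊ := ⟨_, rfl⟩
               obtain ⟨PM, hPM⟩ : ∃ k : ℕ, k = ⌊(σ 1).th ul * J⌋₊ := ⟨_, rfl⟩
               have ul0 : (0 : ℝ) ≤ ul := by
                 have := u0r M le_rfl
                 rwa [uM] at this
               have us0 : (0 : ℝ) ≤ us := ul0.trans cl.le
               have ηJ : 0 < η * J := mul_pos hη (by linarith only [eL, hρL, hρL0, LG, hv1, g9, g6, hst1, hst', vst, ρst, hJ1])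
               have Kflt : (η + 10 * e) * J < Kf + 1 := by rw [hKf]; exact Nat.lt_floor_add_one _
               have Qlt : ((σ 1).th ul - ul - 7 * e) * J < Q + 1 := by rw [hQ]; exact Nat.lt_floor_add_one _
               have Qle : (Q : ℝ) ≤ ((σ 1).th ul - ul - 7 * e) * J := by
                 rw [hQ]
                 exact Nat.floor_le (mul_nonneg (by linarith only [eL, hρL, hρL0, LG, hst1, hst', vst, ρst, rM, hhM]) hJ0)
               have U₁le : (U₁ : ℝ) ≤ ((us : ℝ) + (σ 1).rot us) * J := by
                 rw [hU₁]
                 exact Nat.floor_le (by positivity)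
               exact by
                have U₁lt : ((us : ℝ) + (σ 1).rot us) * J < U₁ + 1 := by
                  rw [hU₁]
                  exact Nat.lt_floor_add_one _
                have P₁le : (P₁ : ℝ) ≤ (σ 1).th us * J := by
                  rw [hP₁]
                  exact Nat.floor_le (mul_nonneg (by linarith only [eL, hρL, hρL0, LG, g9, cu, cl, hst1, hst', vst, ρst, r0, hh0]) hJ0)
                have UMle : (UM : ℝ) ≤ ((ul : ℝ) + (σ 1).rot ul) * J := by
                  rw [hUM]
                  exact Nat.floor_le (by positivity)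
                have PMle : (PM : ℝ) ≤ (σ 1).th ul * J := by
                  rw [hPM]
                  exact Nat.floor_le (mul_nonneg (by linarith only [eL, hρL, hρL0, LG, g9, cu, hst1, hst', vst, ρst, rM, hhM]) hJ0)
                have vd : v * (ul * J) ≤ v * (us * J) := vmono (mul_le_mul_of_nonneg_right cl.le hJ0)
                have ρd : ρ * (ul * J) ≤ ρ * (us * J) := ρmono (mul_le_mul_of_nonneg_right cl.le hJ0)
                have c1 : U₁ ≤ Kf + w 0 + Va := by
                  refine toN ?_
                  push_cast
                  linarith only [eL, hρL, hρL0, LG, hv1, g9, g6, hst1, hst', vst, ρst, hJe, Valt, w0lt, ηJ, Kflt, U₁le]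
                have c2 : ∀ b, 0 ≤ b → b < M → P₁ + M ≤ Kf + U₁ + nH b := by
                  intro b hb hbM
                  have h5 := nHge 0 (Nat.zero_le M) b hb hbM
                  rw [u0] at h5
                  refine toN ?_
                  push_cast
                  linarith only [eL, hρL, hρL0, LG, hv1, g9, g6, hst1, hst', vst, ρst, hJe, sstJ, stJ, vstJ, δJ, a0, ηJ, Kflt, U₁lt, P₁le, h5]
                have c3 : P₁ ≤ Kf + w 0 + Rt := by
                  refine toN ?_
                  push_cast
                  linarith only [eL, hρL, hρL0, LG, hv1, g9, g6, hst1, hst', vst, ρst, hJe, Rtlt, w0lt, ηJ, Kflt, P₁le]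
                have c4 : UM + 4 ≤ Kf + w M + Va := by
                  refine toN ?_
                  push_cast
                  linarith only [eL, hρL, hρL0, LG, hv1, g9, g6, hst1, hst', vst, ρst, hJe, a0, aM, Valt, wMlt, ηJ, Kflt, UMle, vd]
                exact by
                 have c5 : UM + 4 ≤ Kf + w M + nV 0 := by
                   refine toN ?_
                   push_cast
                   linarith only [eL, hρL, hρL0, LG, hv1, g9, g6, hst1, hst', vst, ρst, hJe, δJ, a0, aM, nV0lt, wMlt, ηJ, Kflt, UMle, vd]
                 have c6 : UM + 4 ≤ Kf + w M + nV M := by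
                   refine toN ?_
                   push_cast
                   linarith only [eL, hρL, hρL0, LG, hv1, g9, g6, hst1, hst', vst, ρst, hJe, δJ, nVMlt, wMlt, ηJ, Kflt, UMle]
                 have c7 : PM + 1 ≤ Kf + w M + Q := by
                   refine toN ?_
                   push_cast
                   linarith only [eL, hρL, hρL0, LG, hv1, g9, g6, hst1, hst', vst, ρst, hJe, wMlt, ηJ, Kflt, Qlt, PMle]
                 have c8 : w 0 + Q + 2 ≤ nT 0 := by
                   refine toN ?_
                   push_cast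
                   linarith only [eL, hρL, hρL0, LG, hv1, g9, g6, hst1, hst', vst, ρst, hJe, δJ, a0, aM, nT0lt, w0le, Qle, ρd]
                 have c9 : ∀ b, 0 ≤ b → b < M → Q + M + 4 ≤ nH b + nV 0 := by
                   intro b hb hbM
                   have h5 := nHge 0 (Nat.zero_le M) b hb hbM
                   rw [u0] at h5
                   refine toN ?_
                   push_cast
                   linarith only [eL, hρL, hρL0, LG, hv1, g9, g6, hst1, hst', vst, ρst, hJe, sstJ, stJ, vstJ, δJ, a0, aM, nV0lt, Qle, ρd, h5]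
                 have c10 : w M + Q + 2 ≤ nT M := by
                   refine toN ?_
                   push_cast
                   linarith only [eL, hρL, hρL0, LG, hv1, g9, g6, hst1, hst', vst, ρst, hJe, δJ, nTMlt, wMle, Qle]
                 have c11 : Q + 1 ≤ Rt := by
                   refine toN ?_
                   push_cast
                   linarith only [eL, hρL, hρL0, LG, hv1, g9, g6, hst1, hst', vst, ρst, hJe, a0, aM, Rtlt, Qle, ρd]
                 exact by
                  have hE : (2 : ℝ) ^ Kf ≤ Real.exp ((η + 10 * e) * J) := by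
                    have h1 : (2 : ℝ) ^ Kf = Real.exp (Real.log 2 * Kf) := by
                      rw [Real.exp_mul, Real.exp_log (by norm_num), Real.rpow_natCast]
                    rw [h1, Real.exp_le_exp]
                    have h2 : (Kf : ℝ) ≤ (η + 10 * e) * J := by
                      rw [hKf]
                      exact Nat.floor_le (by positivity)
                    have h3 := Real.log_two_lt_d9
                    have h4 : (0 : ℝ) ≤ Kf := Nat.cast_nonneg Kf
                    have h5 : Real.log 2 * Kf ≤ 1 * Kf := mul_le_mul_of_nonneg_right (by linarith only [eL, hρL, hρL0, LG, hv1, g9, g6, hst1, hst', vst, ρst, h3]) h4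
                    linarith only [h2, h5]
                  have hcl := fun (ω : F.Ω) (hω : A ω) =>
                    cl_of hN hKM hE c1 c2 c3 c4 c5 c6 c7 c8 c9 c10 c11 (ω := ω) hω
                  refine ⟨?_, ?_, ?_, ?_, ?_, fun ω _ => rfl, Real.exp ((η + 10 * e) * J), ?_, ?_, ?_, ?_⟩
                  · linarith only [eL, hρL, hρL0, LG, hv1, g9, g6, hst1, hst', vst, ρst, hJe, a0, Vale]
                  · linarith only [eL, hρL, hρL0, LG, hv1, g9, g6, hst1, hst', vst, ρst, hJe, a0, Rtle]
                  · rw [← ewM]
                    refine nl_weak hN le_rfl ?_ ?_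
                    · rw [hnV]
                      simp only [uM]
                      exact Nat.floor_le_floor (mul_le_mul_of_nonneg_right (by linarith only [δη]) hJ0)
                    · rw [hnT]
                      simp only [uM]
                      exact Nat.floor_le_floor (mul_le_mul_of_nonneg_right (by linarith only [δη]) hJ0)
                  · rw [← ew0]
                    refine nl_weak hN (Nat.zero_le M) ?_ ?_
                    · rw [hnV]
                      simp only [u0]
                      exact Nat.floor_le_floor (mul_le_mul_of_nonneg_right (by linarith only [δη]) hJ0)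
                    · rw [hnT]
                      simp only [u0]
                      exact Nat.floor_le_floor (mul_le_mul_of_nonneg_right (by linarith only [δη]) hJ0)
                  · intro ω ω' _ _ h1 h2
                    beta_reduce
                    rw [h1, h2]
                    exact ⟨rfl, rfl, rfl⟩
                  · exact Real.one_le_exp (by positivity)
                  · rw [Real.log_exp]
                  · intro ω hω
                    rw [← ewM, ← hUM, ← hPM]
                    exact (hcl ω hω).1
                  · intro ω hω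
                    rw [← ew0, ← hU₁, ← hP₁]
                    exact (hcl ω hω).2

end Pool.S6F
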