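import Pool.Agent.H62.S6.FF
import Pool.Agent.H72.S6B.Def

/-!
# Frames with a closed plane of directions, from natural labels
-/

set_option autoImplicit false

namespace Pool.S6F

open Finset Real
open Pool.Agent.H49.Ent Pool.Agent.H32.Dense Pool.STK Pool.KA Pool.KSAT Pool.K2S Pool.PB Pool.KS6
  Pool.S6C Pool.FALL Pool.S6N Pool.S6B

variable {J : ℕ} {F : Fam 3 J} {A : F.Ω → Prop} {i₀ iu iN : Fin 3} {M Pu' : ℕ}
  {w V T H : ℕ → ℕ} {e n : (Fin 3 → ℤ) × (ℕ × F.ζ) → Fin 3 → ℝ} {z : ℕ → F.Ω → Pln}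

/-- **The frames `UFi`**: slopes of the mesh labels, a plane of directions `(s, c)` which is a
function of the window `wl`. -/
theorem ufi_of (h : NLc F A i₀ iu iN M Pu' w V T H e n z) {j₀ G hh : ℕ} (hj₀ : j₀ ≤ M)
    (hG : SnG F A i₀ iu iN G e (z j₀)) {s c : F.Ω → ℝ} {wl wa wb : ℕ}
    (hsl : ∃ ψ : ((Fin 3 → ℝ) × (Fin 3 → ℝ)) × F.ζ × ℕ → ℝ × ℝ, ∀ ω, (s ω, c ω) = ψ (slam F wl ω))
    {kap : ℕ} {B C : ℝ} (hB : 2 ≤ B) (hC : 1 ≤ C)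
    (hd : ∀ ω, A ω → |c ω + s ω * e (Fam.pt F ω) iu + e (Fam.pt F ω) iN| ≤ C / 2 ^ kap)
    (hb : ∀ ω, A ω → |s ω| ≤ B ∧ |c ω| ≤ B)
    (hs : ∀ ω, A ω → |s ω - (z j₀ ω).s| ≤ 1 / 2 ^ hh) (lw : wl ≤ wa) (wJ : wb ≤ J)
    {vp : ℕ → ℕ} (mono : ∀ w w', wa ≤ w → w ≤ w' → w' ≤ wb → vp w ≤ vp w') {Hu HN : ℕ}
    (hHu : Hu ≤ Pu') (hHN : HN ≤ G) (hHN' : HN ≤ hh + Pu') (m : ℕ → ℕ)
    (hm : ∀ x, wa ≤ x → x ≤ wb → m x ≤ M ∧ w (m x) ≤ x ∧ vp x + 3 ≤ V (m x)) :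
    ∃ nN : (Fin 3 → ℤ) × (ℕ × F.ζ) → ℝ,
      UFi F A ![i₀, iu, iN] wl wa wb vp kap Hu HN (fun v => e v iu) (fun v => n v iu)
        (fun v => e v iN) nN (fun x ω => if x ≤ J then rd (vp x) (z (m x) ω).e else 0)
        (fun ω => -s ω) (fun ω => -c ω) B C := by
  obtain ⟨b, hb'⟩ := hG
  obtain ⟨φ, hφ⟩ := h.zp j₀ hj₀
  refine ⟨fun v => b v - (φ v).s * n v iu, bij_of h.hi, by linarith, hC, lw, wJ, mono,
    fun ω hω => ?_, fun ω hω => ?_, fun ω hω => ?_, fun ω hω => ?_, fun x h1 h2 ω hω => ?_,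
    fun x h1 h2 ω => ?_, fun ω hω => ?_, fun x h1 h2 => ?_, ?_⟩
  · refine (h.ln ω hω iu).trans ?_
    exact (pow_dec zero_le_one hHu).trans
      (div_le_div_of_nonneg_right (by linarith) (by positivity))
  · have k1 := hb' ω hω
    have k2 := h.ln ω hω iu
    have k3 := hs ω hω
    have k4 : z j₀ ω = φ (Fam.pt F ω) := hφ ω hω
    rw [← k4]
    show |(F.d ω iN - e (Fam.pt F ω) iN * F.d ω i₀ -
      (b (Fam.pt F ω) - (z j₀ ω).s * n (Fam.pt F ω) iu)) -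
      -s ω * (F.d ω iu - e (Fam.pt F ω) iu * F.d ω i₀ - n (Fam.pt F ω) iu)| ≤ B / 2 ^ HN
    have e1 : (F.d ω iN - e (Fam.pt F ω) iN * F.d ω i₀ -
        (b (Fam.pt F ω) - (z j₀ ω).s * n (Fam.pt F ω) iu)) -
        -s ω * (F.d ω iu - e (Fam.pt F ω) iu * F.d ω i₀ - n (Fam.pt F ω) iu) =
        ((F.d ω iN - e (Fam.pt F ω) iN * F.d ω i₀) +
          (z j₀ ω).s * (F.d ω iu - e (Fam.pt F ω) iu * F.d ω i₀) - b (Fam.pt F ω)) +
        (s ω - (z j₀ ω).s) *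
          (F.d ω iu - e (Fam.pt F ω) iu * F.d ω i₀ - n (Fam.pt F ω) iu) := by ring
    rw [e1]
    refine (abs_add_le _ _).trans ?_
    rw [abs_mul]
    have t1 : |s ω - (z j₀ ω).s| *
        |F.d ω iu - e (Fam.pt F ω) iu * F.d ω i₀ - n (Fam.pt F ω) iu| ≤ 1 / 2 ^ HN := by
      calc _ ≤ 1 / 2 ^ hh * (1 / 2 ^ Pu') := mul_le_mul k3 k2 (abs_nonneg _) (by positivity)
        _ = 1 / 2 ^ (hh + Pu') := by
          rw [pow_add]
          field_simp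
        _ ≤ _ := pow_dec zero_le_one hHN'
    have t2 : (1 : ℝ) / 2 ^ G ≤ 1 / 2 ^ HN := pow_dec zero_le_one hHN
    have t3 : 2 / 2 ^ HN ≤ B / 2 ^ HN := div_le_div_of_nonneg_right hB (by positivity)
    have t4 : (2 : ℝ) / 2 ^ HN = 1 / 2 ^ HN + 1 / 2 ^ HN := by ring
    linarith
  · have := h.eb ω hω iu
    linarith
  · rw [abs_neg, abs_neg]
    exact hb ω hω
  · obtain ⟨g1, g2, g3⟩ := hm x h1 h2
    have k1 := rd_near (vp x) (z (m x) ω).e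
    have k2 := e_small h g1 g3 hω
    show |e (Fam.pt F ω) iu - (if x ≤ J then rd (vp x) (z (m x) ω).e else 0)| ≤ 3 / 2 ^ vp x
    rw [if_pos (h2.trans wJ)]
    have e1 : (3 : ℝ) / 2 ^ vp x = 1 / 2 ^ vp x + 1 / 2 / 2 ^ vp x + 3 / 2 / 2 ^ vp x := by ring
    have e2 : (0 : ℝ) < 3 / 2 / 2 ^ vp x := by positivity
    rw [e1]
    rw [abs_le] at k1 k2 ⊢
    constructor <;> linarith only [k1.1, k1.2, k2.1, k2.2, e2]
  · rw [if_pos (h2.trans wJ)]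
    exact rd_grid _ _
  · have e1 : e (Fam.pt F ω) iN - -s ω * e (Fam.pt F ω) iu - -c ω =
        c ω + s ω * e (Fam.pt F ω) iu + e (Fam.pt F ω) iN := by ring
    rw [e1]
    exact hd ω hω
  · obtain ⟨g1, g2, g3⟩ := hm x h1 h2
    obtain ⟨ψ, hψ⟩ := h.zs (m x) g1
    intro ω ω' _ _ hs'
    show (if x ≤ J then rd (vp x) (z (m x) ω).e else 0) =
      (if x ≤ J then rd (vp x) (z (m x) ω').e else 0)
    rw [if_pos (h2.trans wJ), if_pos (h2.trans wJ), hψ ω, hψ ω',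
      Pool.S6K.slam_mono g2 (h2.trans wJ) hs']
  · obtain ⟨ψ, hψ⟩ := hsl
    intro ω ω' _ _ hs'
    have e1 := hψ ω
    have e2 := hψ ω'
    rw [hs', ← e2] at e1
    have e3 := Prod.ext_iff.mp e1
    have h1 : s ω = s ω' := e3.1
    have h2 : c ω = c ω' := e3.2
    show (-s ω, -c ω) = (-s ω', -c ω')
    rw [h1, h2]

end Pool.S6F
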